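import Pool.Agent.Lib.Arb.LinAlgConv
import Pool.Agent.Lib.H31.BrunnMinkowski

/-!
# Module E: tail of the Green function by the Prékopa-Leindler inequality
-/

set_option autoImplicit false

open MeasureTheory
open scoped ENNReal

namespace Pool.Agent.Lib.Arb

variable {V : Type} [Fintype V] [DecidableEq V] {W : Matrix V V ℝ}

/-- Prékopa-Leindler at the midpoint on `V → ℝ`. -/
theorem pl_mid {f g h : (V → ℝ) → ℝ≥0∞} (hf : Measurable f) (hg : Measurable g)
    (hh : Measurable h)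
    (hle : ∀ x y, f x * g y ≤ h (fun a => (x a + y a) / 2) ^ 2) :
    (∫⁻ x, f x) * (∫⁻ x, g x) ≤ (∫⁻ x, h x) ^ 2 := by
  set e : V ≃ Fin (Fintype.card V) := Fintype.equivFin V with he
  set E : (V → ℝ) ≃ᵐ (Fin (Fintype.card V) → ℝ) :=
    MeasurableEquiv.piCongrLeft (fun _ => ℝ) e with hE
  have hmp : MeasurePreserving E volume volume :=
    volume_measurePreserving_piCongrLeft (fun _ => ℝ) e
  have hint : ∀ u : (V → ℝ) → ℝ≥0∞, ∫⁻ y, u (E.symm y) = ∫⁻ x, u x := by
    intro u
    exact hmp.symm.lintegral_comp_emb (MeasurableEquiv.measurableEmbedding _) u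
  have hEs : ∀ (y : Fin (Fintype.card V) → ℝ) (a : V), E.symm y a = y (e a) := by
    intro y a
    rfl
  have key := Pool.Agent.Lib.H31.prekopa_leindler (Fintype.card V)
    (f := fun y => f (E.symm y)) (g := fun y => g (E.symm y)) (h := fun y => h (E.symm y))
    (hf.comp E.symm.measurable) (hg.comp E.symm.measurable) (hh.comp E.symm.measurable)
    (a := 1 / 2) (b := 1 / 2) (by norm_num) (by norm_num) (by norm_num) ?_
  · rw [hint, hint, hint] at key
    have h2 : ((∫⁻ x, f x) ^ (1 / 2 : ℝ) * (∫⁻ x, g x) ^ (1 / 2 : ℝ)) ^ 2 ≤ (∫⁻ x, h x) ^ 2 := by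
      gcongr
    refine le_trans (le_of_eq ?_) h2
    rw [mul_pow, ← ENNReal.rpow_natCast, ← ENNReal.rpow_mul, ← ENNReal.rpow_natCast,
      ← ENNReal.rpow_mul]
    norm_num
  · intro x y
    have h1 := hle (E.symm x) (E.symm y)
    have h3 : (fun a => (E.symm x a + E.symm y a) / 2) =
        E.symm ((1 / 2 : ℝ) • x + (1 / 2 : ℝ) • y) := by
      funext a
      rw [hEs, hEs, hEs]
      simp only [Pi.add_apply, Pi.smul_apply, smul_eq_mul]
      ring
    rw [h3] at h1
    have h4 : (f (E.symm x) * g (E.symm y)) ^ (1 / 2 : ℝ) ≤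
        (h (E.symm ((1 / 2 : ℝ) • x + (1 / 2 : ℝ) • y)) ^ 2) ^ (1 / 2 : ℝ) := by
      exact ENNReal.rpow_le_rpow h1 (by norm_num)
    rw [ENNReal.mul_rpow_of_nonneg _ _ (by norm_num), ← ENNReal.rpow_natCast,
      ← ENNReal.rpow_mul] at h4
    norm_num at h4
    norm_num
    exact h4

/-- Prékopa-Leindler for `dens W 0` and the convex sets `{G x a ≤ l}`. -/
theorem NN_mid (hW : IsWt W) (x a : V) (l m : ℝ) (hl : 0 < l) (hm : 0 < m) :
    NN W x a l * NN W x a m ≤ NN W x a (Real.sqrt (l * m)) ^ 2 := by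
  have hms : ∀ l : ℝ, MeasurableSet {φ : V → ℝ | Gr W φ x a ≤ l} := fun l =>
    measurableSet_le (measurable_Gr W x a) measurable_const
  unfold NN
  rw [← lintegral_indicator (hms l), ← lintegral_indicator (hms m),
    ← lintegral_indicator (hms _)]
  refine pl_mid ((measurable_dens W 0).indicator (hms l)) ((measurable_dens W 0).indicator (hms m))
    ((measurable_dens W 0).indicator (hms _)) ?_
  intro φ ψ
  by_cases hφl : φ ∈ {φ : V → ℝ | Gr W φ x a ≤ l}
  swap
  · rw [Set.indicator_of_notMem hφl, zero_mul]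
    exact zero_le
  by_cases hψm : ψ ∈ {φ : V → ℝ | Gr W φ x a ≤ m}
  swap
  · rw [Set.indicator_of_notMem hψm, mul_zero]
    exact zero_le
  rw [Set.indicator_of_mem hφl, Set.indicator_of_mem hψm]
  by_cases hφ : (Hm W φ).PosDef
  swap
  · unfold dens
    rw [if_neg hφ, zero_mul]
    exact zero_le
  by_cases hψ : (Hm W ψ).PosDef
  swap
  · unfold dens
    rw [if_neg hψ, mul_zero]
    exact zero_le
  have hmid := posDef_mid hφ hψ
  have hG := Gr_mid_sq_le hW hφ hψ x a
  have hmem : (fun b => (φ b + ψ b) / 2) ∈ {φ : V → ℝ | Gr W φ x a ≤ Real.sqrt (l * m)} := by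
    have h0 : 0 ≤ Gr W ψ x a := Gr_nonneg hW hψ x a
    have h2 : Gr W φ x a * Gr W ψ x a ≤ l * m := mul_le_mul hφl hψm h0 hl.le
    exact Real.le_sqrt_of_sq_le (hG.trans h2)
  rw [Set.indicator_of_mem hmem]
  unfold dens
  rw [if_pos hφ, if_pos hψ, if_pos hmid]
  rw [← ENNReal.ofReal_mul (by positivity), ← ENNReal.ofReal_pow (by positivity)]
  refine ENNReal.ofReal_le_ofReal ?_
  have hd := det_mid hφ hψ
  have hdφ := hφ.det_pos
  have hdψ := hψ.det_pos
  have hdm := hmid.det_pos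
  simp only [Pi.zero_apply, mul_zero, zero_mul, Finset.sum_const_zero, zero_div, sub_zero, add_zero]
  have e1 : Real.exp (-(∑ b, φ b) + (∑ b, ∑ c, W b c) / 2) *
      Real.exp (-(∑ b, ψ b) + (∑ b, ∑ c, W b c) / 2) =
      Real.exp (-(∑ b, (φ b + ψ b) / 2) + (∑ b, ∑ c, W b c) / 2) ^ 2 := by
    rw [← Real.exp_add, ← Real.exp_nat_mul]
    congr 1
    rw [← Finset.sum_div, Finset.sum_add_distrib]
    push_cast
    ring
  have e2 : Real.sqrt (Hm W φ).det * Real.sqrt (Hm W ψ).det ≤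
      Real.sqrt ((Hm W (fun b => (φ b + ψ b) / 2)).det) ^ 2 := by
    rw [Real.sq_sqrt hdm.le, ← Real.sqrt_mul hdφ.le]
    exact Real.sqrt_le_iff.2 ⟨hdm.le, hd⟩
  calc Real.exp (-(∑ b, φ b) + (∑ b, ∑ c, W b c) / 2) * Real.sqrt (Hm W φ).det *
        (Real.exp (-(∑ b, ψ b) + (∑ b, ∑ c, W b c) / 2) * Real.sqrt (Hm W ψ).det)
      = Real.exp (-(∑ b, φ b) + (∑ b, ∑ c, W b c) / 2) *
        Real.exp (-(∑ b, ψ b) + (∑ b, ∑ c, W b c) / 2) *
        (Real.sqrt (Hm W φ).det * Real.sqrt (Hm W ψ).det) := by ring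
    _ ≤ Real.exp (-(∑ b, (φ b + ψ b) / 2) + (∑ b, ∑ c, W b c) / 2) ^ 2 *
        Real.sqrt ((Hm W (fun b => (φ b + ψ b) / 2)).det) ^ 2 := by
        rw [e1]
        exact mul_le_mul_of_nonneg_left e2 (by positivity)
    _ = _ := by rw [mul_pow]

theorem NN_le_II (W : Matrix V V ℝ) (x a : V) (l : ℝ) : NN W x a l ≤ II W :=
  setLIntegral_le_lintegral _ _

/-- Doubling iteration. -/
theorem NN_iter (hW : IsWt W) (x a : V) (hI : II W ≠ ⊤) (hI0 : II W ≠ 0) (s : ℝ)
    (h2 : II W / 2 ≤ NN W x a 2)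
    (hs2 : NN W x a (2 * Real.exp (-s)) ≤ ENNReal.ofReal (Real.exp (-(4 * s)) / 4) * II W)
    (k : ℕ) :
    NN W x a (2 * Real.exp (-(2 ^ k * s))) ≤
      ENNReal.ofReal ((1 / 2) ^ (2 ^ k) * Real.exp (-(4 * 2 ^ k * s)) / 2) * II W := by
  induction k with
  | zero =>
    simp only [pow_zero, one_mul, pow_one, mul_one]
    refine hs2.trans (le_of_eq ?_)
    congr 2
    ring
  | succ k ih =>
    have h3 := NN_mid hW x a (2 * Real.exp (-(2 ^ (k + 1) * s))) 2 (by positivity) (by norm_num)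
    have h4 : Real.sqrt (2 * Real.exp (-(2 ^ (k + 1) * s)) * 2) =
        2 * Real.exp (-(2 ^ k * s)) := by
      have : 2 * Real.exp (-(2 ^ (k + 1) * s)) * 2 = (2 * Real.exp (-(2 ^ k * s))) ^ 2 := by
        rw [mul_pow, ← Real.exp_nat_mul]
        have : ((2 : ℕ) : ℝ) * -(2 ^ k * s) = -(2 ^ (k + 1) * s) := by
          push_cast
          ring
        rw [this]
        ring
      rw [this, Real.sqrt_sq (by positivity)]
    rw [h4] at h3
    set c : ℝ := (1 / 2) ^ (2 ^ k) * Real.exp (-(4 * 2 ^ k * s)) / 2 with hc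
    have hc0 : 0 ≤ c := by rw [hc]; positivity
    have h5 : NN W x a (2 * Real.exp (-(2 ^ (k + 1) * s))) * (II W / 2) ≤
        (ENNReal.ofReal c * II W) ^ 2 := by
      calc NN W x a (2 * Real.exp (-(2 ^ (k + 1) * s))) * (II W / 2)
          ≤ NN W x a (2 * Real.exp (-(2 ^ (k + 1) * s))) * NN W x a 2 := by gcongr
        _ ≤ NN W x a (2 * Real.exp (-(2 ^ k * s))) ^ 2 := h3
        _ ≤ (ENNReal.ofReal c * II W) ^ 2 := by gcongr
    have h6 : (ENNReal.ofReal c * II W) ^ 2 =
        ENNReal.ofReal (2 * c ^ 2) * II W * (II W / 2) := by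
      have h7 : ENNReal.ofReal (2 * c ^ 2) = 2 * ENNReal.ofReal c ^ 2 := by
        rw [ENNReal.ofReal_mul (by norm_num), ENNReal.ofReal_pow hc0]
        norm_num
      rw [h7, mul_pow]
      have h8 : II W = 2 * (II W / 2) := by
        rw [ENNReal.mul_div_cancel (by norm_num) (by norm_num)]
      calc ENNReal.ofReal c ^ 2 * II W ^ 2 = ENNReal.ofReal c ^ 2 * (II W * II W) := by rw [sq (II W)]
        _ = ENNReal.ofReal c ^ 2 * (II W * (2 * (II W / 2))) := by rw [← h8]
        _ = 2 * ENNReal.ofReal c ^ 2 * II W * (II W / 2) := by ring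
    rw [h6] at h5
    have h9 : II W / 2 ≠ 0 := by
      simp [ENNReal.div_eq_zero_iff, hI0]
    have h10 : II W / 2 ≠ ⊤ := (ENNReal.div_lt_top hI (by norm_num)).ne
    have h11 := (ENNReal.mul_le_mul_iff_left h9 h10).1 h5
    refine h11.trans (le_of_eq ?_)
    congr 2
    rw [hc]
    have e1 : (1 / 2 : ℝ) ^ (2 ^ (k + 1)) = ((1 / 2 : ℝ) ^ (2 ^ k)) ^ 2 := by
      rw [← pow_mul]
      congr 1
    have e2 : Real.exp (-(4 * 2 ^ (k + 1) * s)) = Real.exp (-(4 * 2 ^ k * s)) ^ 2 := by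
      rw [← Real.exp_nat_mul]
      congr 1
      push_cast
      ring
    rw [e1, e2]
    ring

/-- Negative second moment of `G x a` from the tail (doubling iteration of `NN_mid`). -/
theorem lint_neg_two (hW : IsWt W) (x a : V) (hpos : ∀ φ, (Hm W φ).PosDef → 0 < Gr W φ x a)
    (hI : II W ≠ ⊤) (s : ℝ) (hs : 0 < s)
    (h2 : II W / 2 ≤ NN W x a 2)
    (hs2 : NN W x a (2 * Real.exp (-s)) ≤ ENNReal.ofReal (Real.exp (-(4 * s)) / 4) * II W) :
    ∫⁻ φ : V → ℝ, ENNReal.ofReal ((Gr W φ x a ^ 2)⁻¹) * dens W 0 φ ≤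
      ENNReal.ofReal (Real.exp (2 * s) + 1) * II W := by
  have hms : ∀ l : ℝ, MeasurableSet {φ : V → ℝ | Gr W φ x a ≤ l} := fun l =>
    measurableSet_le (measurable_Gr W x a) measurable_const
  by_cases hI0 : II W = 0
  · rw [hI0, mul_zero, nonpos_iff_eq_zero]
    unfold II at hI0
    rw [lintegral_eq_zero_iff (measurable_dens W 0)] at hI0
    rw [lintegral_eq_zero_iff]
    · filter_upwards [hI0] with φ hφ
      rw [hφ]
      simp
    · exact (((measurable_Gr W x a).pow_const 2).inv.ennreal_ofReal).mul (measurable_dens W 0)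
  -- pointwise bound
  have hpt : ∀ φ : V → ℝ, ENNReal.ofReal ((Gr W φ x a ^ 2)⁻¹) * dens W 0 φ ≤
      ENNReal.ofReal (Real.exp (2 * s) / 4) * dens W 0 φ +
        ∑' k : ℕ, ENNReal.ofReal (Real.exp (4 * 2 ^ k * s) / 4) *
          ({φ : V → ℝ | Gr W φ x a ≤ 2 * Real.exp (-(2 ^ k * s))}.indicator (dens W 0) φ) := by
    intro φ
    by_cases hφ : (Hm W φ).PosDef
    swap
    · have : dens W 0 φ = 0 := by
        unfold dens
        rw [if_neg hφ]
      rw [this, mul_zero]
      exact zero_le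
    have hG := hpos φ hφ
    by_cases hlarge : 2 * Real.exp (-s) < Gr W φ x a
    · refine le_trans ?_ le_self_add
      gcongr
      have h3 : (2 * Real.exp (-s)) ^ 2 ≤ Gr W φ x a ^ 2 := by gcongr
      calc (Gr W φ x a ^ 2)⁻¹ ≤ ((2 * Real.exp (-s)) ^ 2)⁻¹ := by
            gcongr
        _ = Real.exp (2 * s) / 4 := by
            rw [mul_pow, ← Real.exp_nat_mul, mul_inv, ← Real.exp_neg]
            have : -(((2 : ℕ) : ℝ) * -s) = 2 * s := by push_cast; ring
            rw [this]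
            ring
    · push Not at hlarge
      -- find the dyadic level
      have hex : ∃ k : ℕ, 2 * Real.exp (-(2 ^ (k + 1) * s)) < Gr W φ x a := by
        have h3 : Filter.Tendsto (fun k : ℕ => 2 * Real.exp (-(2 ^ (k + 1) * s))) Filter.atTop
            (nhds (2 * 0)) := by
          refine Filter.Tendsto.const_mul _ ?_
          refine Real.tendsto_exp_atBot.comp ?_
          refine Filter.tendsto_neg_atTop_atBot.comp ?_
          refine Filter.Tendsto.atTop_mul_const hs ?_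
          exact (tendsto_pow_atTop_atTop_of_one_lt (by norm_num : (1 : ℝ) < 2)).comp
            (Filter.tendsto_add_atTop_nat 1)
        rw [mul_zero] at h3
        exact (h3.eventually (gt_mem_nhds hG)).exists
      classical
      set k := Nat.find hex with hk
      have hk1 : 2 * Real.exp (-(2 ^ (k + 1) * s)) < Gr W φ x a := Nat.find_spec hex
      have hk2 : Gr W φ x a ≤ 2 * Real.exp (-(2 ^ k * s)) := by
        rcases Nat.eq_zero_or_pos k with h0 | h0
        · rw [h0]
          simpa using hlarge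
        · have := Nat.find_min hex (m := k - 1) (by omega)
          rw [Nat.sub_add_cancel h0] at this
          exact not_lt.1 this
      refine le_trans ?_ le_add_self
      refine le_trans ?_ (ENNReal.le_tsum k)
      rw [Set.indicator_of_mem (show φ ∈ {φ : V → ℝ | Gr W φ x a ≤ 2 * Real.exp (-(2 ^ k * s))}
        from hk2)]
      gcongr
      calc (Gr W φ x a ^ 2)⁻¹ ≤ ((2 * Real.exp (-(2 ^ (k + 1) * s))) ^ 2)⁻¹ := by
            gcongr
        _ = Real.exp (4 * 2 ^ k * s) / 4 := by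
            rw [mul_pow, ← Real.exp_nat_mul, mul_inv, ← Real.exp_neg]
            have : -(((2 : ℕ) : ℝ) * -(2 ^ (k + 1) * s)) = 4 * 2 ^ k * s := by
              push_cast
              ring
            rw [this]
            ring
  refine (lintegral_mono hpt).trans ?_
  rw [lintegral_add_left ((measurable_dens W 0).const_mul _),
    lintegral_const_mul _ (measurable_dens W 0), lintegral_tsum]
  swap
  · intro k
    exact (((measurable_dens W 0).indicator (hms _)).const_mul _).aemeasurable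
  have hterm : ∀ k : ℕ, ∫⁻ φ : V → ℝ, ENNReal.ofReal (Real.exp (4 * 2 ^ k * s) / 4) *
      ({φ : V → ℝ | Gr W φ x a ≤ 2 * Real.exp (-(2 ^ k * s))}.indicator (dens W 0) φ) ≤
      ENNReal.ofReal ((1 / 2) ^ (k + 1)) * II W := by
    intro k
    rw [lintegral_const_mul _ ((measurable_dens W 0).indicator (hms _)),
      lintegral_indicator (hms _)]
    have h3 := NN_iter hW x a hI hI0 s h2 hs2 k
    unfold NN at h3
    calc ENNReal.ofReal (Real.exp (4 * 2 ^ k * s) / 4) *
          ∫⁻ φ in {φ : V → ℝ | Gr W φ x a ≤ 2 * Real.exp (-(2 ^ k * s))}, dens W 0 φ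
        ≤ ENNReal.ofReal (Real.exp (4 * 2 ^ k * s) / 4) *
          (ENNReal.ofReal ((1 / 2) ^ (2 ^ k) * Real.exp (-(4 * 2 ^ k * s)) / 2) * II W) := by
          gcongr
      _ = ENNReal.ofReal ((1 / 2) ^ (2 ^ k) / 8) * II W := by
          rw [← mul_assoc, ← ENNReal.ofReal_mul (by positivity)]
          congr 2
          have : Real.exp (4 * 2 ^ k * s) * Real.exp (-(4 * 2 ^ k * s)) = 1 := by
            rw [← Real.exp_add]
            simp
          calc Real.exp (4 * 2 ^ k * s) / 4 * ((1 / 2) ^ (2 ^ k) * Real.exp (-(4 * 2 ^ k * s)) / 2)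
              = (Real.exp (4 * 2 ^ k * s) * Real.exp (-(4 * 2 ^ k * s))) *
                ((1 / 2) ^ (2 ^ k) / 8) := by ring
            _ = (1 / 2) ^ (2 ^ k) / 8 := by rw [this, one_mul]
      _ ≤ ENNReal.ofReal ((1 / 2) ^ (k + 1)) * II W := by
          gcongr
          have h4 : (1 / 2 : ℝ) ^ (2 ^ k) ≤ (1 / 2) ^ (k + 1) :=
            pow_le_pow_of_le_one (by norm_num) (by norm_num) (Nat.lt_pow_self (by norm_num))
          have h5 : (0 : ℝ) < (1 / 2) ^ (2 ^ k) := by positivity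
          linarith
  have hsum : ∑' k : ℕ, ENNReal.ofReal ((1 / 2) ^ (k + 1)) = 1 := by
    rw [← ENNReal.ofReal_tsum_of_nonneg (fun k => by positivity)]
    · have : ∑' k : ℕ, (1 / 2 : ℝ) ^ (k + 1) = 1 := by
        simp_rw [pow_succ]
        rw [tsum_mul_right, tsum_geometric_two]
        norm_num
      rw [this]
      simp
    · simp_rw [pow_succ]
      exact (summable_geometric_two).mul_right _
  calc ENNReal.ofReal (Real.exp (2 * s) / 4) * II W + ∑' k : ℕ, ∫⁻ φ : V → ℝ,
        ENNReal.ofReal (Real.exp (4 * 2 ^ k * s) / 4) *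
        ({φ : V → ℝ | Gr W φ x a ≤ 2 * Real.exp (-(2 ^ k * s))}.indicator (dens W 0) φ)
      ≤ ENNReal.ofReal (Real.exp (2 * s) / 4) * II W +
        ∑' k : ℕ, ENNReal.ofReal ((1 / 2) ^ (k + 1)) * II W := by
        gcongr with k
        exact hterm k
    _ = ENNReal.ofReal (Real.exp (2 * s) / 4) * II W + 1 * II W := by
        rw [ENNReal.tsum_mul_right, hsum]
    _ = ENNReal.ofReal (Real.exp (2 * s) / 4 + 1) * II W := by
        rw [ENNReal.ofReal_add (by positivity) (by norm_num), add_mul, ENNReal.ofReal_one]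
    _ ≤ ENNReal.ofReal (Real.exp (2 * s) + 1) * II W := by
        gcongr
        have := Real.exp_pos (2 * s)
        linarith

end Pool.Agent.Lib.Arb
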