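import Pool.Agent.Lib.Arb.Rep
import Pool.Agent.Lib.Arb.Tail

/-!
# Module F: the self-improving estimate
-/

set_option autoImplicit false
set_option linter.unusedSectionVars false
set_option linter.unusedVariables false
set_option linter.unusedSimpArgs false

open MeasureTheory Matrix
open scoped ENNReal

namespace Pool.Agent.Lib.Arb

variable {V : Type} [Fintype V] [DecidableEq V] {W : Matrix V V ℝ}

theorem mul_dens_mono (W : Matrix V V ℝ) (η φ : V → ℝ) {x y : ℝ≥0∞}
    (h : (Hm W φ).PosDef → x ≤ y) : x * dens W η φ ≤ y * dens W η φ := by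
  by_cases hφ : (Hm W φ).PosDef
  · gcongr; exact h hφ
  · unfold dens
    rw [if_neg hφ, mul_zero, mul_zero]

theorem LI_add (W : Matrix V V ℝ) {f g : (V → ℝ) → ℝ≥0∞} (hf : Measurable f) :
    ∫⁻ φ : V → ℝ, (f φ + g φ) * dens W 0 φ =
      (∫⁻ φ : V → ℝ, f φ * dens W 0 φ) + ∫⁻ φ : V → ℝ, g φ * dens W 0 φ := by
  have h : Measurable fun φ => f φ * dens W 0 φ := hf.mul (measurable_dens W 0)
  rw [← lintegral_add_left h]
  exact lintegral_congr fun φ => by ring

theorem LI_const (W : Matrix V V ℝ) (c : ℝ≥0∞) {f : (V → ℝ) → ℝ≥0∞} (hf : Measurable f) :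
    ∫⁻ φ : V → ℝ, (c * f φ) * dens W 0 φ = c * ∫⁻ φ : V → ℝ, f φ * dens W 0 φ := by
  have h : Measurable fun φ => f φ * dens W 0 φ := hf.mul (measurable_dens W 0)
  rw [← lintegral_const_mul _ h]
  exact lintegral_congr fun φ => by ring

theorem LI_const' (W : Matrix V V ℝ) (c : ℝ≥0∞) :
    ∫⁻ φ : V → ℝ, c * dens W 0 φ = c * II W := by
  rw [II, lintegral_const_mul _ (measurable_dens W 0)]

theorem LI_sum (W : Matrix V V ℝ) {ι : Type} (s : Finset ι) (f : ι → (V → ℝ) → ℝ≥0∞)
    (hf : ∀ i, Measurable (f i)) :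
    ∫⁻ φ : V → ℝ, (∑ i ∈ s, f i φ) * dens W 0 φ = ∑ i ∈ s, ∫⁻ φ : V → ℝ, f i φ * dens W 0 φ := by
  have h : ∀ i ∈ s, Measurable fun φ => f i φ * dens W 0 φ :=
    fun i _ => (hf i).mul (measurable_dens W 0)
  rw [← lintegral_finsetSum s h]
  exact lintegral_congr fun φ => Finset.sum_mul ..

theorem measurable_ofReal_tt (W : Matrix V V ℝ) (x a : V) :
    Measurable fun φ : V → ℝ => ENNReal.ofReal (tt W x a φ) :=
  ENNReal.measurable_ofReal.comp (measurable_tt W x a)

theorem lint_Gr_le (hW : IsWt W) (x a : V) (hxa : x ≠ a) :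
    ∫⁻ φ : V → ℝ, ENNReal.ofReal (Gr W φ x a) * dens W 0 φ ≤ II W := by
  rw [← II_two hW x a hxa]
  exact le_self_add

theorem tt_nonneg (hW : IsWt W) {φ : V → ℝ} (hφ : (Hm W φ).PosDef) (x a : V) :
    0 ≤ tt W x a φ := by
  rw [tt_eq hW hφ]
  exact div_nonneg (Gr_nonneg hW hφ x a) (Gr_diag_pos hφ x).le

/-- Markov inequality for `tt`. -/
theorem markov_tt (hW : IsWt W) (x a : V) (hxa : x ≠ a) :
    ∫⁻ φ : V → ℝ, (if tt W x a φ ≤ 1 / 2 then 1 else 0) * dens W 0 φ ≤
      4 * II (mrg x a W) := by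
  have hT := lint_tt hW x a
  have hT2 := lint_tt_sq hW x a hxa
  have h2 := II_two hW x a hxa
  have hle := lint_Gr_le hW x a hxa
  set T := ∫⁻ φ : V → ℝ, ENNReal.ofReal (tt W x a φ) * dens W 0 φ with hTdef
  rw [← hT] at h2 hle
  have hTtop : T ≠ ⊤ := ne_top_of_le_ne_top (II_ne_top hW) hle
  have hmt := measurable_ofReal_tt W x a
  have hmd := measurable_dens W 0
  have hmi : Measurable fun φ : V → ℝ => (if tt W x a φ ≤ 1 / 2 then (1 : ℝ≥0∞) else 0) :=
    Measurable.ite (measurableSet_le (measurable_tt W x a) measurable_const)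
      measurable_const measurable_const
  have key : (∫⁻ φ : V → ℝ, (if tt W x a φ ≤ 1 / 2 then 1 else 0) * dens W 0 φ) + 8 * T ≤
      4 * II W + 4 * T := by
    have e1 : (∫⁻ φ : V → ℝ, (if tt W x a φ ≤ 1 / 2 then 1 else 0) * dens W 0 φ) + 8 * T =
        ∫⁻ φ : V → ℝ, ((if tt W x a φ ≤ 1 / 2 then 1 else 0) +
          8 * ENNReal.ofReal (tt W x a φ)) * dens W 0 φ := by
      rw [LI_add W hmi, LI_const W 8 hmt]
    have e2 : 4 * II W + 4 * T = ∫⁻ φ : V → ℝ, (4 + 4 * ENNReal.ofReal (tt W x a φ ^ 2)) *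
        dens W 0 φ := by
      have hm2 : Measurable fun φ : V → ℝ => ENNReal.ofReal (tt W x a φ ^ 2) :=
        ENNReal.measurable_ofReal.comp ((measurable_tt W x a).pow_const 2)
      rw [LI_add W measurable_const, LI_const W 4 hm2, LI_const', hT2]
    rw [e1, e2]
    refine lintegral_mono fun φ => mul_dens_mono _ _ _ fun hφ => ?_
    have ht := tt_nonneg hW hφ x a
    set t := tt W x a φ
    have e3 : (if t ≤ 1 / 2 then (1 : ℝ≥0∞) else 0) = ENNReal.ofReal (if t ≤ 1 / 2 then 1 else 0) := by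
      split_ifs <;> simp
    have h8 : (8 : ℝ≥0∞) = ENNReal.ofReal 8 := by norm_num
    have h4 : (4 : ℝ≥0∞) = ENNReal.ofReal 4 := by norm_num
    rw [e3, h8, h4, ← ENNReal.ofReal_mul (by norm_num), ← ENNReal.ofReal_mul (by norm_num),
      ← ENNReal.ofReal_add (by split_ifs <;> norm_num) (by positivity),
      ← ENNReal.ofReal_add (by norm_num) (by positivity)]
    refine ENNReal.ofReal_le_ofReal ?_
    split_ifs with h
    · nlinarith
    · nlinarith [sq_nonneg (1 - t)]
  have h3 : (∫⁻ φ : V → ℝ, (if tt W x a φ ≤ 1 / 2 then 1 else 0) * dens W 0 φ) + 8 * T ≤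
      4 * II (mrg x a W) + 8 * T := by
    refine key.trans (le_of_eq ?_)
    rw [← h2]
    ring
  exact (ENNReal.add_le_add_iff_right (ENNReal.mul_ne_top (by norm_num) hTtop)).mp h3

theorem NN_eq (W : Matrix V V ℝ) (x a : V) (l : ℝ) :
    NN W x a l = ∫⁻ φ : V → ℝ, (if Gr W φ x a ≤ l then 1 else 0) * dens W 0 φ := by
  unfold NN
  rw [← lintegral_indicator (measurableSet_le (measurable_Gr W x a) measurable_const)]
  refine lintegral_congr fun φ => ?_
  by_cases h : Gr W φ x a ≤ l
  · rw [Set.indicator_of_mem (by simpa using h), if_pos h, one_mul]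
  · rw [Set.indicator_of_notMem (by simpa using h), if_neg h, zero_mul]

/-- Small values of `G x a` are unlikely. -/
theorem NN_small (hW : IsWt W) (x a : V) (hxa : x ≠ a) (s : ℝ) :
    NN W x a (2 * Real.exp (-s)) ≤ 4 * II (mrg x a W) +
      mom (fun y => ENNReal.ofReal (y ^ 6)) / ENNReal.ofReal ((Real.exp s / 4) ^ 6) * II W := by
  have hu : 0 < Real.exp s / 4 := by positivity
  have h1 := lint_indep hW x (fun _ => 1) measurable_const (fun _ _ => rfl)
    (fun y => if Real.exp s / 4 ≤ y then 1 else 0)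
    (Measurable.ite (measurableSet_le measurable_const measurable_id)
      measurable_const measurable_const)
  simp only [one_mul] at h1
  have h2 := markov_tt hW x a hxa
  have hmi : Measurable fun φ : V → ℝ => (if tt W x a φ ≤ 1 / 2 then (1 : ℝ≥0∞) else 0) :=
    Measurable.ite (measurableSet_le (measurable_tt W x a) measurable_const)
      measurable_const measurable_const
  calc NN W x a (2 * Real.exp (-s))
      = ∫⁻ φ : V → ℝ, (if Gr W φ x a ≤ 2 * Real.exp (-s) then 1 else 0) * dens W 0 φ :=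
        NN_eq _ _ _ _
    _ ≤ ∫⁻ φ : V → ℝ, ((if tt W x a φ ≤ 1 / 2 then 1 else 0) +
          (if Real.exp s / 4 ≤ (Gr W φ x x)⁻¹ then 1 else 0)) * dens W 0 φ := by
        refine lintegral_mono fun φ => mul_dens_mono _ _ _ fun hφ => ?_
        by_cases h : Gr W φ x a ≤ 2 * Real.exp (-s)
        · rw [if_pos h]
          by_cases h' : tt W x a φ ≤ 1 / 2
          · rw [if_pos h']; exact le_self_add
          · have h'' : Real.exp s / 4 ≤ (Gr W φ x x)⁻¹ := by
              rw [tt_eq hW hφ] at h'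
              have hg := Gr_diag_pos hφ x
              push Not at h'
              rw [lt_div_iff₀ hg] at h'
              rw [le_inv_comm₀ hu hg, inv_div]
              have h3 : Gr W φ x x / 2 < 2 * Real.exp (-s) := by linarith
              rw [Real.exp_neg] at h3
              have h4 : Gr W φ x x < 4 * (Real.exp s)⁻¹ := by linarith
              exact h4.le
            rw [if_pos h'']; exact le_add_self
        · rw [if_neg h]; exact zero_le
    _ = (∫⁻ φ : V → ℝ, (if tt W x a φ ≤ 1 / 2 then 1 else 0) * dens W 0 φ) +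
          ∫⁻ φ : V → ℝ, (if Real.exp s / 4 ≤ (Gr W φ x x)⁻¹ then 1 else 0) * dens W 0 φ := by
        rw [LI_add W hmi]
    _ ≤ 4 * II (mrg x a W) +
        mom (fun y => ENNReal.ofReal (y ^ 6)) / ENNReal.ofReal ((Real.exp s / 4) ^ 6) * II W := by
        refine add_le_add h2 ?_
        rw [h1]
        exact mul_le_mul' (mom_tail _ hu) le_rfl

/-- `G x a ≤ 2` with probability at least `1 / 2`. -/
theorem NN_two (hW : IsWt W) (x a : V) (hxa : x ≠ a) : II W / 2 ≤ NN W x a 2 := by
  have hle := lint_Gr_le hW x a hxa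
  have hm : Measurable fun φ : V → ℝ => (if Gr W φ x a ≤ 2 then (1 : ℝ≥0∞) else 0) :=
    Measurable.ite (measurableSet_le (measurable_Gr W x a) measurable_const)
      measurable_const measurable_const
  have h1 : 2 * II W ≤ 2 * NN W x a 2 + II W := by
    calc 2 * II W = ∫⁻ φ : V → ℝ, 2 * dens W 0 φ := (LI_const' W 2).symm
      _ ≤ ∫⁻ φ : V → ℝ, (2 * (if Gr W φ x a ≤ 2 then 1 else 0) +
            ENNReal.ofReal (Gr W φ x a)) * dens W 0 φ := by
          refine lintegral_mono fun φ => mul_dens_mono _ _ _ fun hφ => ?_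
          by_cases h : Gr W φ x a ≤ 2
          · rw [if_pos h, mul_one]; exact le_self_add
          · rw [if_neg h, mul_zero, zero_add]
            push Not at h
            rw [show (2 : ℝ≥0∞) = ENNReal.ofReal 2 by norm_num]
            exact ENNReal.ofReal_le_ofReal h.le
      _ = 2 * NN W x a 2 + ∫⁻ φ : V → ℝ, ENNReal.ofReal (Gr W φ x a) * dens W 0 φ := by
          rw [NN_eq, LI_add W (hm.const_mul 2), LI_const W 2 hm]
      _ ≤ 2 * NN W x a 2 + II W := by gcongr
  have hI := II_ne_top hW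
  rw [two_mul (II W)] at h1
  have h2 : II W ≤ 2 * NN W x a 2 := (ENNReal.add_le_add_iff_right hI).mp h1
  rw [ENNReal.div_le_iff (by norm_num) (by norm_num), mul_comm]
  exact h2

/-- Transfer from `G x a ^ (-2)` to `G x x / G x a ^ 2`. -/
theorem lint_ratio (hW : IsWt W) (x a : V) (hpos : ∀ φ, (Hm W φ).PosDef → 0 < Gr W φ x a) :
    (∫⁻ φ : V → ℝ, ENNReal.ofReal (Gr W φ x x / Gr W φ x a ^ 2) * dens W 0 φ) =
      mom (fun y => ENNReal.ofReal (y ^ 1)) / mom (fun y => ENNReal.ofReal (y ^ 2)) *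
        ∫⁻ φ : V → ℝ, ENNReal.ofReal ((Gr W φ x a ^ 2)⁻¹) * dens W 0 φ := by
  have hmF : Measurable fun φ : V → ℝ => ENNReal.ofReal ((tt W x a φ ^ 2)⁻¹) :=
    ENNReal.measurable_ofReal.comp ((measurable_tt W x a).pow_const 2).inv
  have hgen : ∀ k : ℕ, ∫⁻ φ : V → ℝ, ENNReal.ofReal ((tt W x a φ ^ 2)⁻¹) *
      ENNReal.ofReal ((Gr W φ x x)⁻¹ ^ k) * dens W 0 φ =
      mom (fun y => ENNReal.ofReal (y ^ k)) *
        ∫⁻ φ : V → ℝ, ENNReal.ofReal ((tt W x a φ ^ 2)⁻¹) * dens W 0 φ := fun k =>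
    lint_indep hW x _ hmF (fun φ s => by rw [tt_update]) (fun y => ENNReal.ofReal (y ^ k))
      (ENNReal.measurable_ofReal.comp (measurable_id.pow_const k))
  have h1 : (∫⁻ φ : V → ℝ, ENNReal.ofReal (Gr W φ x x / Gr W φ x a ^ 2) * dens W 0 φ) =
      mom (fun y => ENNReal.ofReal (y ^ 1)) *
        ∫⁻ φ : V → ℝ, ENNReal.ofReal ((tt W x a φ ^ 2)⁻¹) * dens W 0 φ := by
    rw [← hgen 1]
    refine lintegral_congr fun φ => mul_dens_congr _ _ _ fun hφ => ?_
    have hg := Gr_diag_pos hφ x
    have hga := hpos φ hφ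
    rw [← ENNReal.ofReal_mul (by positivity), tt_eq hW hφ]
    congr 1
    field_simp
  have h2 : (∫⁻ φ : V → ℝ, ENNReal.ofReal ((Gr W φ x a ^ 2)⁻¹) * dens W 0 φ) =
      mom (fun y => ENNReal.ofReal (y ^ 2)) *
        ∫⁻ φ : V → ℝ, ENNReal.ofReal ((tt W x a φ ^ 2)⁻¹) * dens W 0 φ := by
    rw [← hgen 2]
    refine lintegral_congr fun φ => mul_dens_congr _ _ _ fun hφ => ?_
    have hg := Gr_diag_pos hφ x
    have hga := hpos φ hφ
    rw [← ENNReal.ofReal_mul (by positivity), tt_eq hW hφ]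
    congr 1
    field_simp
  rw [h1, h2, ← mul_assoc, ENNReal.div_mul_cancel (mom_pow_ne_zero 2) (mom_pow_ne_top 2)]

/-- The lower bound for the two-point function. -/
theorem two_point_lower (hW : IsWt W) (x y : V) (hxy : x ≠ y)
    (hpos : ∀ φ, (Hm W φ).PosDef → 0 < Gr W φ x y) :
    2 * II (mrg x y W) ≤ ∫⁻ φ : V → ℝ,
      ENNReal.ofReal (Gr W φ x x * Gr W φ y y / Gr W φ x y ^ 2 - 1) * dens W 0 φ := by
  have hle := lint_Gr_le hW x y hxy
  have h2 := II_two hW x y hxy
  set T := ∫⁻ φ : V → ℝ, ENNReal.ofReal (Gr W φ x y) * dens W 0 φ with hT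
  have hTtop : T ≠ ⊤ := ne_top_of_le_ne_top (II_ne_top hW) hle
  have hT1 : ∫⁻ φ : V → ℝ, ENNReal.ofReal (tt W x y φ) * dens W 0 φ = T := lint_tt hW x y
  have hT2 : ∫⁻ φ : V → ℝ, ENNReal.ofReal (tt W y x φ) * dens W 0 φ = T := by
    rw [lint_tt hW y x, hT]
    exact lintegral_congr fun φ => by rw [Gr_symm hW]
  set R := ∫⁻ φ : V → ℝ,
      ENNReal.ofReal (Gr W φ x x * Gr W φ y y / Gr W φ x y ^ 2 - 1) * dens W 0 φ with hR
  have key : 2 * II W ≤ 2 * T + R := by
    have e1 : 2 * T + R = ∫⁻ φ : V → ℝ, (ENNReal.ofReal (tt W x y φ) +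
        ENNReal.ofReal (tt W y x φ) +
        ENNReal.ofReal (Gr W φ x x * Gr W φ y y / Gr W φ x y ^ 2 - 1)) * dens W 0 φ := by
      have hm : Measurable fun φ : V → ℝ => ENNReal.ofReal (tt W x y φ) +
          ENNReal.ofReal (tt W y x φ) := (measurable_ofReal_tt W x y).add (measurable_ofReal_tt W y x)
      rw [LI_add W hm, LI_add W (measurable_ofReal_tt W x y), hT1, hT2, two_mul]
    rw [e1, ← LI_const' W 2]
    refine lintegral_mono fun φ => mul_dens_mono _ _ _ fun hφ => ?_
    have hx := Gr_diag_pos hφ x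
    have hy := Gr_diag_pos hφ y
    have hg := hpos φ hφ
    have hsq := Gr_sq_le hφ x y
    set X := Gr W φ x x
    set Y := Gr W φ y y
    set g := Gr W φ x y with hgdef
    have ht1 : tt W x y φ = g / X := tt_eq hW hφ x y
    have ht2 : tt W y x φ = g / Y := by rw [tt_eq hW hφ y x, Gr_symm hW φ y x]
    have hf : 0 ≤ X * Y / g ^ 2 - 1 := by
      rw [sub_nonneg, le_div_iff₀ (by positivity), one_mul]
      exact hsq
    rw [ht1, ht2, ← ENNReal.ofReal_add (by positivity) (by positivity),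
      ← ENNReal.ofReal_add (by positivity) hf,
      show (2 : ℝ≥0∞) = ENNReal.ofReal 2 by norm_num]
    refine ENNReal.ofReal_le_ofReal ?_
    -- `u + u' + 1/(u u') ≥ 3`
    have hu : 0 < g / X := by positivity
    have hu' : 0 < g / Y := by positivity
    have hfe : X * Y / g ^ 2 = 1 / ((g / X) * (g / Y)) := by field_simp
    rw [hfe]
    set u := g / X
    set u' := g / Y
    set r := Real.sqrt (u * u') with hr
    have hr0 : 0 < r := Real.sqrt_pos.mpr (by positivity)
    have hr2 : r ^ 2 = u * u' := Real.sq_sqrt (by positivity)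
    have h1 : 2 * r ≤ u + u' := by
      have : (2 * r) ^ 2 ≤ (u + u') ^ 2 := by
        rw [mul_pow, hr2]; nlinarith [sq_nonneg (u - u')]
      exact le_of_sq_le_sq this (by positivity)
    have h3 : 3 ≤ 2 * r + 1 / r ^ 2 := by
      rw [← sub_nonneg]
      have : 2 * r + 1 / r ^ 2 - 3 = (r - 1) ^ 2 * (2 * r + 1) / r ^ 2 := by
        field_simp
        ring
      rw [this]
      positivity
    rw [← hr2]
    linarith
  have h3 : 2 * II (mrg x y W) + 2 * T ≤ R + 2 * T := by
    calc 2 * II (mrg x y W) + 2 * T = 2 * II W := by rw [← h2]; ring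
      _ ≤ 2 * T + R := key
      _ = R + 2 * T := by ring
  exact (ENNReal.add_le_add_iff_right (ENNReal.mul_ne_top (by norm_num) hTtop)).mp h3

theorem boot : ∃ p C : ℝ, 0 < p ∧ 0 < C ∧
    ∀ (V : Type) [Fintype V] [DecidableEq V] (W : Matrix V V ℝ), IsWt W →
    ∀ (x : V), (∀ a, a ≠ x → 0 < W x a) →
    ∀ (A : Finset V) (E : ℝ), (∀ y ∈ A, ∃ θ, IsFlow W A x y θ E) →
    (∀ a ∈ A, a ≠ x → II (mrg x a W) ≤ ENNReal.ofReal p * II W) →
    ∀ a ∈ A, a ≠ x → II (mrg x a W) ≤ ENNReal.ofReal (C * E) * II W := by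
  set M6 : ℝ := (mom (fun y => ENNReal.ofReal (y ^ 6))).toReal with hM6
  have hM6' : mom (fun y => ENNReal.ofReal (y ^ 6)) = ENNReal.ofReal M6 :=
    (ENNReal.ofReal_toReal (mom_pow_ne_top 6)).symm
  have hM6n : 0 ≤ M6 := ENNReal.toReal_nonneg
  set m1 : ℝ := (mom (fun y => ENNReal.ofReal (y ^ 1))).toReal with hm1
  have hm1' : mom (fun y => ENNReal.ofReal (y ^ 1)) = ENNReal.ofReal m1 :=
    (ENNReal.ofReal_toReal (mom_pow_ne_top 1)).symm
  have hm1n : 0 < m1 := ENNReal.toReal_pos (mom_pow_ne_zero 1) (mom_pow_ne_top 1)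
  set m2 : ℝ := (mom (fun y => ENNReal.ofReal (y ^ 2))).toReal with hm2
  have hm2' : mom (fun y => ENNReal.ofReal (y ^ 2)) = ENNReal.ofReal m2 :=
    (ENNReal.ofReal_toReal (mom_pow_ne_top 2)).symm
  have hm2n : 0 < m2 := ENNReal.toReal_pos (mom_pow_ne_zero 2) (mom_pow_ne_top 2)
  -- choice of `s`
  obtain ⟨s, hs0, hs⟩ : ∃ s : ℝ, 0 < s ∧ 8 * 4 ^ 6 * M6 ≤ Real.exp (2 * s) := by
    refine ⟨8 * 4 ^ 6 * M6 + 1, by positivity, ?_⟩
    have := Real.add_one_le_exp (2 * (8 * 4 ^ 6 * M6 + 1))
    have h' : 0 ≤ 8 * 4 ^ 6 * M6 := by positivity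
    linarith
  set K₀ : ℝ := Real.exp (2 * s) + 1 with hK₀
  set K : ℝ := m1 / m2 * K₀ + m1 with hK
  have hK0 : 0 < K := by positivity
  refine ⟨Real.exp (-(4 * s)) / 32, K, by positivity, hK0, ?_⟩
  intro V _ _ W hW x hx A E hA hp y hy hyx
  have hI := II_ne_top hW
  have hgpos : ∀ a, ∀ φ, (Hm W φ).PosDef → 0 < Gr W φ x a := fun a φ hφ => Gr_pos hW hφ x hx a
  -- the key integral bound
  have hbound : ∀ a ∈ A, ∫⁻ φ : V → ℝ, ENNReal.ofReal (Gr W φ x x / Gr W φ x a ^ 2) *
      dens W 0 φ ≤ ENNReal.ofReal K * II W := by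
    intro a ha
    by_cases hax : a = x
    · subst hax
      have h := lint_indep hW a (fun _ => 1) measurable_const (fun _ _ => rfl)
        (fun y => ENNReal.ofReal (y ^ 1)) (ENNReal.measurable_ofReal.comp (measurable_id.pow_const 1))
      simp only [one_mul] at h
      have h1 : ∫⁻ φ : V → ℝ, ENNReal.ofReal (Gr W φ a a / Gr W φ a a ^ 2) * dens W 0 φ =
          ∫⁻ φ : V → ℝ, ENNReal.ofReal ((Gr W φ a a)⁻¹ ^ 1) * dens W 0 φ := by
        refine lintegral_congr fun φ => mul_dens_congr _ _ _ fun hφ => ?_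
        have hg := Gr_diag_pos hφ a
        congr 1
        field_simp
      rw [h1, h, hm1']
      refine mul_le_mul' (ENNReal.ofReal_le_ofReal ?_) le_rfl
      rw [hK]
      have : 0 ≤ m1 / m2 * K₀ := by positivity
      linarith
    · have hxa : x ≠ a := fun h => hax h.symm
      have h1 := NN_small hW x a hxa s
      have h2 : NN W x a (2 * Real.exp (-s)) ≤ ENNReal.ofReal (Real.exp (-(4 * s)) / 4) * II W := by
        refine h1.trans ?_
        have h3 : 4 * II (mrg x a W) ≤ ENNReal.ofReal (Real.exp (-(4 * s)) / 8) * II W := by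
          calc 4 * II (mrg x a W) ≤ 4 * (ENNReal.ofReal (Real.exp (-(4 * s)) / 32) * II W) := by
                gcongr; exact hp a ha hax
            _ = ENNReal.ofReal (Real.exp (-(4 * s)) / 8) * II W := by
                rw [← mul_assoc, show (4 : ℝ≥0∞) = ENNReal.ofReal 4 by norm_num,
                  ← ENNReal.ofReal_mul (by norm_num)]
                congr 2
                ring
        have h4 : mom (fun y => ENNReal.ofReal (y ^ 6)) / ENNReal.ofReal ((Real.exp s / 4) ^ 6) ≤
            ENNReal.ofReal (Real.exp (-(4 * s)) / 8) := by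
          rw [hM6', ← ENNReal.ofReal_div_of_pos (by positivity)]
          refine ENNReal.ofReal_le_ofReal ?_
          rw [div_le_iff₀ (by positivity)]
          have e1 : Real.exp (-(4 * s)) / 8 * (Real.exp s / 4) ^ 6 =
              Real.exp (2 * s) / (8 * 4 ^ 6) := by
            have e2 : Real.exp (-(4 * s)) * Real.exp s ^ 6 = Real.exp (2 * s) := by
              rw [← Real.exp_nat_mul, ← Real.exp_add]
              congr 1
              push_cast
              ring
            rw [← e2]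
            ring
          rw [e1, le_div_iff₀ (by positivity)]
          linarith
        calc 4 * II (mrg x a W) + mom (fun y => ENNReal.ofReal (y ^ 6)) /
              ENNReal.ofReal ((Real.exp s / 4) ^ 6) * II W
            ≤ ENNReal.ofReal (Real.exp (-(4 * s)) / 8) * II W +
              ENNReal.ofReal (Real.exp (-(4 * s)) / 8) * II W := by gcongr
          _ = ENNReal.ofReal (Real.exp (-(4 * s)) / 4) * II W := by
              rw [← add_mul, ← ENNReal.ofReal_add (by positivity) (by positivity)]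
              congr 2
              ring
      have h5 := lint_neg_two hW x a (hgpos a) hI s hs0 (NN_two hW x a hxa) h2
      rw [lint_ratio hW x a (hgpos a), hm1', hm2', ← ENNReal.ofReal_div_of_pos hm2n]
      calc ENNReal.ofReal (m1 / m2) *
            ∫⁻ φ : V → ℝ, ENNReal.ofReal ((Gr W φ x a ^ 2)⁻¹) * dens W 0 φ
          ≤ ENNReal.ofReal (m1 / m2) * (ENNReal.ofReal (Real.exp (2 * s) + 1) * II W) := by
            gcongr
        _ = ENNReal.ofReal (m1 / m2 * K₀) * II W := by
            rw [← mul_assoc, ← ENNReal.ofReal_mul (by positivity)]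
        _ ≤ ENNReal.ofReal K * II W := by
            refine mul_le_mul' (ENNReal.ofReal_le_ofReal ?_) le_rfl
            rw [hK]
            linarith
  obtain ⟨θ, hθ⟩ := hA y hy
  have hE : 0 ≤ E := le_trans (Finset.sum_nonneg fun a _ => Finset.sum_nonneg fun b _ =>
    div_nonneg (sq_nonneg _) (hW.nonneg a b)) hθ.energy
  -- integrate the flow inequality
  have hmr : ∀ a, Measurable fun φ : V → ℝ => ENNReal.ofReal (Gr W φ x x / Gr W φ x a ^ 2) :=
    fun a => ENNReal.measurable_ofReal.comp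
      ((measurable_Gr W x x).div ((measurable_Gr W x a).pow_const 2))
  have hflow : ∫⁻ φ : V → ℝ, ENNReal.ofReal (Gr W φ x x * Gr W φ y y / Gr W φ x y ^ 2 - 1) *
      dens W 0 φ ≤ ENNReal.ofReal (2 * (K * E)) * II W := by
    calc ∫⁻ φ : V → ℝ, ENNReal.ofReal (Gr W φ x x * Gr W φ y y / Gr W φ x y ^ 2 - 1) *
          dens W 0 φ
        ≤ ∫⁻ φ : V → ℝ, (∑ a, ∑ b, ENNReal.ofReal (θ a b ^ 2 / W a b) *
            (ENNReal.ofReal (Gr W φ x x / Gr W φ x a ^ 2) +
              ENNReal.ofReal (Gr W φ x x / Gr W φ x b ^ 2))) * dens W 0 φ := by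
          refine lintegral_mono fun φ => mul_dens_mono _ _ _ fun hφ => ?_
          have hgx := Gr_diag_pos hφ x
          have hg := fun a => hgpos a φ hφ
          have h1 := flow_ineq hW hφ x y hg θ hθ.rep (fun a b h => (hθ.supp a b h).2.2)
          calc ENNReal.ofReal (Gr W φ x x * Gr W φ y y / Gr W φ x y ^ 2 - 1)
              ≤ ENNReal.ofReal (∑ a, ∑ b, θ a b ^ 2 / W a b *
                  (Gr W φ x x / Gr W φ x a ^ 2 + Gr W φ x x / Gr W φ x b ^ 2)) := by
                refine ENNReal.ofReal_le_ofReal (h1.trans ?_)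
                rw [Finset.mul_sum]
                refine Finset.sum_le_sum fun a _ => ?_
                rw [Finset.mul_sum]
                refine Finset.sum_le_sum fun b _ => ?_
                have hθW : 0 ≤ θ a b ^ 2 / W a b := div_nonneg (sq_nonneg _) (hW.nonneg a b)
                have hga := hg a
                have hgb := hg b
                have h2 : 2 * (Gr W φ x x / (Gr W φ x a * Gr W φ x b)) ≤
                    Gr W φ x x / Gr W φ x a ^ 2 + Gr W φ x x / Gr W φ x b ^ 2 := by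
                  have h3 : Gr W φ x x / Gr W φ x a ^ 2 + Gr W φ x x / Gr W φ x b ^ 2 -
                      2 * (Gr W φ x x / (Gr W φ x a * Gr W φ x b)) =
                      Gr W φ x x * (1 / Gr W φ x a - 1 / Gr W φ x b) ^ 2 := by
                    field_simp
                    ring
                  have h4 : 0 ≤ Gr W φ x x * (1 / Gr W φ x a - 1 / Gr W φ x b) ^ 2 := by
                    positivity
                  linarith
                calc 2 * (θ a b ^ 2 / W a b * (Gr W φ x x / (Gr W φ x a * Gr W φ x b)))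
                    = θ a b ^ 2 / W a b * (2 * (Gr W φ x x / (Gr W φ x a * Gr W φ x b))) := by
                      ring
                  _ ≤ _ := mul_le_mul_of_nonneg_left h2 hθW
            _ = _ := by
                have hnn : ∀ a b, 0 ≤ θ a b ^ 2 / W a b *
                    (Gr W φ x x / Gr W φ x a ^ 2 + Gr W φ x x / Gr W φ x b ^ 2) := by
                  intro a b
                  have hθW : 0 ≤ θ a b ^ 2 / W a b := div_nonneg (sq_nonneg _) (hW.nonneg a b)
                  have hga := hg a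
                  have hgb := hg b
                  positivity
                rw [ENNReal.ofReal_sum_of_nonneg fun a _ => Finset.sum_nonneg fun b _ => hnn a b]
                refine Finset.sum_congr rfl fun a _ => ?_
                rw [ENNReal.ofReal_sum_of_nonneg fun b _ => hnn a b]
                refine Finset.sum_congr rfl fun b _ => ?_
                have hθW : 0 ≤ θ a b ^ 2 / W a b := div_nonneg (sq_nonneg _) (hW.nonneg a b)
                have hga := hg a
                have hgb := hg b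
                rw [ENNReal.ofReal_mul hθW, ENNReal.ofReal_add (by positivity) (by positivity)]
      _ = ∑ a, ∑ b, ENNReal.ofReal (θ a b ^ 2 / W a b) *
            ((∫⁻ φ : V → ℝ, ENNReal.ofReal (Gr W φ x x / Gr W φ x a ^ 2) * dens W 0 φ) +
              ∫⁻ φ : V → ℝ, ENNReal.ofReal (Gr W φ x x / Gr W φ x b ^ 2) * dens W 0 φ) := by
          have hab : ∀ a b, Measurable fun φ : V → ℝ =>
              ENNReal.ofReal (Gr W φ x x / Gr W φ x a ^ 2) +
                ENNReal.ofReal (Gr W φ x x / Gr W φ x b ^ 2) := fun a b => (hmr a).add (hmr b)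
          rw [LI_sum W Finset.univ (fun a φ => ∑ b, ENNReal.ofReal (θ a b ^ 2 / W a b) *
            (ENNReal.ofReal (Gr W φ x x / Gr W φ x a ^ 2) +
              ENNReal.ofReal (Gr W φ x x / Gr W φ x b ^ 2)))
            fun a => Finset.measurable_sum _ fun b _ => (hab a b).const_mul _]
          refine Finset.sum_congr rfl fun a _ => ?_
          rw [LI_sum W Finset.univ (fun b φ => ENNReal.ofReal (θ a b ^ 2 / W a b) *
            (ENNReal.ofReal (Gr W φ x x / Gr W φ x a ^ 2) +
              ENNReal.ofReal (Gr W φ x x / Gr W φ x b ^ 2)))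
            fun b => (hab a b).const_mul _]
          refine Finset.sum_congr rfl fun b _ => ?_
          rw [LI_const W _ (hab a b), LI_add W (hmr a)]
      _ ≤ ∑ a, ∑ b, ENNReal.ofReal (θ a b ^ 2 / W a b) *
            (ENNReal.ofReal K * II W + ENNReal.ofReal K * II W) := by
          refine Finset.sum_le_sum fun a _ => Finset.sum_le_sum fun b _ => ?_
          by_cases h0 : θ a b = 0
          · simp [h0]
          · obtain ⟨ha, hb, _⟩ := hθ.supp a b h0
            gcongr
            · exact hbound a ha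
            · exact hbound b hb
      _ = ENNReal.ofReal (∑ a, ∑ b, θ a b ^ 2 / W a b) *
            (ENNReal.ofReal K * II W + ENNReal.ofReal K * II W) := by
          have hnn : ∀ a b, 0 ≤ θ a b ^ 2 / W a b := fun a b =>
            div_nonneg (sq_nonneg _) (hW.nonneg a b)
          rw [ENNReal.ofReal_sum_of_nonneg fun a _ => Finset.sum_nonneg fun b _ => hnn a b,
            Finset.sum_mul]
          refine Finset.sum_congr rfl fun a _ => ?_
          rw [ENNReal.ofReal_sum_of_nonneg fun b _ => hnn a b, Finset.sum_mul]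
      _ ≤ ENNReal.ofReal E * (ENNReal.ofReal K * II W + ENNReal.ofReal K * II W) := by
          gcongr
          exact hθ.energy
      _ = ENNReal.ofReal (2 * (K * E)) * II W := by
          rw [← two_mul, ← mul_assoc, ← mul_assoc, show (2 : ℝ≥0∞) = ENNReal.ofReal 2 by norm_num,
            ← ENNReal.ofReal_mul hE, ← ENNReal.ofReal_mul (by positivity)]
          congr 2
          ring
  have h6 := two_point_lower hW x y (fun h => hyx h.symm) (hgpos y)
  have h7 : 2 * II (mrg x y W) ≤ 2 * (ENNReal.ofReal (K * E) * II W) := by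
    refine h6.trans (hflow.trans (le_of_eq ?_))
    rw [ENNReal.ofReal_mul (by norm_num), mul_assoc, ENNReal.ofReal_ofNat]
  exact (ENNReal.mul_le_mul_iff_right (by norm_num) (by norm_num)).mp h7

/-- Star edges at `x`. -/
def stW (W : Matrix V V ℝ) (x : V) (τ : ℝ) : Matrix V V ℝ := fun a b =>
  W a b + if (a = x ∧ b ≠ x) ∨ (b = x ∧ a ≠ x) then τ else 0

theorem isWt_stW (hW : IsWt W) (x : V) (τ : ℝ) (hτ : 0 ≤ τ) : IsWt (stW W x τ) where
  symm a b := by
    unfold stW
    rw [hW.symm a b]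
    congr 2
    exact propext (Or.comm)
  nonneg a b := by
    unfold stW
    have := hW.nonneg a b
    split_ifs <;> linarith
  diag a := by
    unfold stW
    rw [hW.diag, if_neg (by tauto), add_zero]

/-- Main finite volume theorem. -/
theorem main_estimate : ∃ K : ℝ, 0 < K ∧
    ∀ (V : Type) [Fintype V] [DecidableEq V] (W : Matrix V V ℝ), IsWt W →
    ∀ (x : V) (A : Finset V) (E : ℝ), (∀ y ∈ A, ∃ θ, IsFlow W A x y θ E) →
    ∀ a ∈ A, a ≠ x → II (mrg x a W) ≤ ENNReal.ofReal (K * E) * II W := by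
  obtain ⟨p, C, hp, hC, hboot⟩ := boot
  set p₁ : ℝ := min p (1 / 2) with hp₁
  have hp₁0 : 0 < p₁ := lt_min hp (by norm_num)
  have hp₁p : p₁ ≤ p := min_le_left _ _
  have hp₁2 : p₁ ≤ 1 / 2 := min_le_right _ _
  refine ⟨2 * C / p₁, by positivity, ?_⟩
  intro V _ _ W hW x A E hA a₁ ha₁ ha₁x
  have hE0 : 0 ≤ E := by
    obtain ⟨θ, hθ⟩ := hA a₁ ha₁
    exact le_trans (Finset.sum_nonneg fun a _ => Finset.sum_nonneg fun b _ =>
      div_nonneg (sq_nonneg _) (hW.nonneg a b)) hθ.energy
  by_cases hEb : p₁ / (2 * C) < E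
  · -- trivial case
    have h1 : II (mrg x a₁ W) ≤ II W := by
      rw [← II_two hW x a₁ (fun h => ha₁x h.symm)]
      exact le_add_self
    refine h1.trans ?_
    have h2 : (1 : ℝ≥0∞) ≤ ENNReal.ofReal (2 * C / p₁ * E) := by
      rw [← ENNReal.ofReal_one]
      refine ENNReal.ofReal_le_ofReal ?_
      have h3 : 2 * C / p₁ * (p₁ / (2 * C)) = 1 := by field_simp
      calc (1 : ℝ) = 2 * C / p₁ * (p₁ / (2 * C)) := h3.symm
        _ ≤ 2 * C / p₁ * E := mul_le_mul_of_nonneg_left hEb.le (by positivity)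
    calc II W = 1 * II W := (one_mul _).symm
      _ ≤ _ := mul_le_mul' h2 le_rfl
  push Not at hEb
  have hCE : C * E ≤ p₁ / 2 := by
    calc C * E ≤ C * (p₁ / (2 * C)) := mul_le_mul_of_nonneg_left hEb hC.le
      _ = p₁ / 2 := by field_simp
  have hCE0 : 0 ≤ C * E := mul_nonneg hC.le hE0
  set w : ℝ → V × V → ℝ := fun τ p => stW W x τ p.1 p.2 / 2 with hw
  set Z : ℝ → ℝ := fun τ => Zl (Prod.fst : V × V → V) Prod.snd (w τ) Finset.univ.toList
    (Setoid.ker id) with hZ
  set Y : V → ℝ → ℝ := fun a τ => Zl (Prod.fst : V × V → V) Prod.snd (w τ) Finset.univ.toList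
    (Setoid.ker fun v => if v = a then x else v) with hY
  have hwc : ∀ q : V × V, Continuous fun τ => w τ q := by
    intro q
    simp only [hw, stW]
    by_cases h : (q.1 = x ∧ q.2 ≠ x) ∨ (q.2 = x ∧ q.1 ≠ x)
    · simp only [if_pos h]; fun_prop
    · simp only [if_neg h]; fun_prop
  have hZc : Continuous Z := continuous_Zl w hwc _ _
  have hYc : ∀ a, Continuous (Y a) := fun a => continuous_Zl w hwc _ _
  -- translation
  have htr : ∀ τ : ℝ, 0 ≤ τ → ∀ a, a ≠ x → ∀ c : ℝ, 0 ≤ c →
      (II (mrg x a (stW W x τ)) ≤ ENNReal.ofReal c * II (stW W x τ) ↔ Y a τ ≤ c * Z τ) := by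
    intro τ hτ a hax c hc
    have hWt := isWt_stW hW x τ hτ
    have hwn : ∀ q : V × V, 0 ≤ stW W x τ q.1 q.2 / 2 := fun q => by
      have := hWt.nonneg q.1 q.2; linarith
    have hZn : 0 ≤ Z τ := Zl_nonneg' hwn _ _
    rw [II_mrg_eq_Zl hWt x a (fun h => hax h.symm), II_eq_Zl hWt, ← mul_assoc,
      ENNReal.mul_le_mul_iff_left II_zero_ne_zero II_zero_ne_top, ← ENNReal.ofReal_mul hc,
      ENNReal.ofReal_le_ofReal_iff (mul_nonneg hc hZn)]
  have hZpos : ∀ τ : ℝ, 0 ≤ τ → 0 < Z τ := fun τ hτ => lt_of_lt_of_le one_pos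
    (one_le_Zl (fun q => by
      have := (isWt_stW hW x τ hτ).nonneg q.1 q.2
      show 0 ≤ stW W x τ q.1 q.2 / 2
      linarith) _ _)
  -- the bootstrap step
  have hstep : ∀ τ : ℝ, 0 < τ → (∀ a ∈ A, a ≠ x → Y a τ ≤ p₁ * Z τ) →
      ∀ a ∈ A, a ≠ x → Y a τ ≤ C * E * Z τ := by
    intro τ hτ hYp a ha hax
    have hWt := isWt_stW hW x τ hτ.le
    have hle : ∀ a b, W a b ≤ stW W x τ a b := by
      intro a b
      unfold stW
      split_ifs <;> linarith
    have h := hboot V (stW W x τ) hWt x (fun b hb => by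
        have h1 := hW.nonneg x b
        have : stW W x τ x b = W x b + τ := by
          unfold stW
          rw [if_pos (Or.inl ⟨rfl, hb⟩)]
        rw [this]
        linarith) A E (by
        intro y hy
        obtain ⟨θ, hθ⟩ := hA y hy
        refine ⟨θ, hθ.rep, fun a b h => ⟨(hθ.supp a b h).1, (hθ.supp a b h).2.1,
          lt_of_lt_of_le (hθ.supp a b h).2.2 (hle a b)⟩, ?_⟩
        refine le_trans (Finset.sum_le_sum fun a _ => Finset.sum_le_sum fun b _ => ?_) hθ.energy
        by_cases h0 : θ a b = 0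
        · simp [h0]
        · exact div_le_div_of_nonneg_left (sq_nonneg _) (hθ.supp a b h0).2.2 (hle a b)) (by
        intro b hb hbx
        rw [htr τ hτ.le b hbx p hp.le]
        exact (hYp b hb hbx).trans (mul_le_mul_of_nonneg_right hp₁p (hZpos τ hτ.le).le)) a ha hax
    rw [htr τ hτ.le a hax _ hCE0] at h
    exact h
  -- all `τ > 0`
  have hall' : ∀ τ : ℝ, 0 < τ → ∀ a ∈ A, a ≠ x → Y a τ ≤ p₁ / 2 * Z τ := by
    by_contra hcon
    push Not at hcon
    obtain ⟨τ₀, hτ₀, a₀, ha₀, ha₀x, hgt⟩ := hcon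
    set U : Set ℝ := {τ | ∀ a ∈ A, a ≠ x → Y a τ < p₁ * Z τ} with hU
    set T : Set ℝ := {τ | ∃ a ∈ A, a ≠ x ∧ p₁ / 2 * Z τ < Y a τ} with hT
    have hUo : IsOpen U := by
      have : U = ⋂ a ∈ A, {τ | a ≠ x → Y a τ < p₁ * Z τ} := by
        ext τ; simp [hU]
      rw [this]
      refine isOpen_biInter_finset fun a _ => ?_
      by_cases hax : a = x
      · simp [hax]
      · simp only [ne_eq, hax, not_false_eq_true, forall_const]
        exact isOpen_lt (hYc a) (continuous_const.mul hZc)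
    have hTo : IsOpen T := by
      have : T = ⋃ a ∈ A, {τ | a ≠ x ∧ p₁ / 2 * Z τ < Y a τ} := by
        ext τ
        simp only [hT, Set.mem_ofPred_eq, Set.mem_iUnion, exists_prop]
      rw [this]
      refine isOpen_biUnion fun a _ => ?_
      by_cases hax : a = x
      · simp [hax]
      · simp only [ne_eq, hax, not_false_eq_true, true_and]
        exact isOpen_lt (continuous_const.mul hZc) (hYc a)
    have hcov : Set.Ioi (0 : ℝ) ⊆ U ∪ T := by
      intro τ hτ
      by_cases h : ∃ a ∈ A, a ≠ x ∧ p₁ / 2 * Z τ < Y a τ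
      · exact Or.inr h
      · left
        push Not at h
        intro a ha hax
        refine lt_of_le_of_lt (h a ha hax) ?_
        have := hZpos τ (le_of_lt hτ)
        nlinarith
    have hne1 : (Set.Ioi (0 : ℝ) ∩ U).Nonempty := by
      refine ⟨2 / p₁, by simp; positivity, ?_⟩
      intro a ha hax
      have hτ : (0 : ℝ) ≤ 2 / p₁ := by positivity
      have hWt := isWt_stW hW x (2 / p₁) hτ
      have h := II_mrg_le hWt x a (fun h => hax h.symm)
      have h' : II (mrg x a (stW W x (2 / p₁))) ≤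
          ENNReal.ofReal ((1 + 2 / p₁)⁻¹) * II (stW W x (2 / p₁)) := by
        have h1 : ENNReal.ofReal (1 + 2 / p₁) * II (mrg x a (stW W x (2 / p₁))) ≤
            II (stW W x (2 / p₁)) := by
          refine le_trans (mul_le_mul' (ENNReal.ofReal_le_ofReal ?_) le_rfl) h
          have : stW W x (2 / p₁) x a = W x a + 2 / p₁ := by
            unfold stW
            rw [if_pos (Or.inl ⟨rfl, hax⟩)]
          rw [this]
          have := hW.nonneg x a
          linarith
        calc II (mrg x a (stW W x (2 / p₁)))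
            = ENNReal.ofReal ((1 + 2 / p₁)⁻¹) *
                (ENNReal.ofReal (1 + 2 / p₁) * II (mrg x a (stW W x (2 / p₁)))) := by
              rw [← mul_assoc, ← ENNReal.ofReal_mul (by positivity),
                inv_mul_cancel₀ (by positivity), ENNReal.ofReal_one, one_mul]
          _ ≤ _ := by gcongr
      rw [htr _ hτ a hax _ (by positivity)] at h'
      refine lt_of_le_of_lt h' ?_
      refine mul_lt_mul_of_pos_right ?_ (hZpos _ hτ)
      rw [inv_lt_comm₀ (by positivity) hp₁0]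
      have : p₁⁻¹ < 2 / p₁ := by
        rw [← one_div]
        gcongr
        norm_num
      linarith
    have hne2 : (Set.Ioi (0 : ℝ) ∩ T).Nonempty := ⟨τ₀, hτ₀, a₀, ha₀, ha₀x, hgt⟩
    obtain ⟨τ, hτ, hτU, a, ha, hax, hgt'⟩ := isPreconnected_Ioi U T hUo hTo hcov hne1 hne2
    have h1 := hstep τ hτ (fun a ha hax => (hτU a ha hax).le) a ha hax
    have h2 := mul_le_mul_of_nonneg_right hCE (hZpos τ (le_of_lt hτ)).le
    linarith
  have hall : ∀ τ : ℝ, 0 < τ → Y a₁ τ ≤ C * E * Z τ := by
    intro τ hτ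
    refine hstep τ hτ (fun a ha hax => (hall' τ hτ a ha hax).trans ?_) a₁ ha₁ ha₁x
    refine mul_le_mul_of_nonneg_right ?_ (hZpos τ hτ.le).le
    linarith
  have h0 : Y a₁ 0 ≤ C * E * Z 0 := by
    have hcl : IsClosed {τ : ℝ | Y a₁ τ ≤ C * E * Z τ} :=
      isClosed_le (hYc a₁) (continuous_const.mul hZc)
    have hsub : Set.Ioi (0 : ℝ) ⊆ {τ : ℝ | Y a₁ τ ≤ C * E * Z τ} := fun τ hτ => hall τ hτ
    have := hcl.closure_subset_iff.mpr hsub
    rw [closure_Ioi] at this
    exact this (Set.mem_Ici.mpr le_rfl)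
  have h1 := (htr 0 le_rfl a₁ ha₁x (C * E) hCE0).mpr h0
  have h2 : stW W x 0 = W := by
    ext a b
    simp [stW]
  rw [h2] at h1
  refine h1.trans (mul_le_mul' (ENNReal.ofReal_le_ofReal ?_) le_rfl)
  refine mul_le_mul_of_nonneg_right ?_ hE0
  rw [le_div_iff₀ hp₁0]
  nlinarith

end Pool.Agent.Lib.Arb
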