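import Pool.Agent.Lib.Arb.Defs

/-!
# Module D: the forest polynomial by deletion-contraction over a list of edges
-/

set_option autoImplicit false

namespace Pool.Agent.Lib.Arb

/-- Join the classes of `a` and `b`. -/
def joinS {V : Type} (r : Setoid V) (a b : V) : Setoid V where
  r x y := r x y ∨ (r x a ∧ r b y) ∨ (r x b ∧ r a y)
  iseqv := by
    refine ⟨fun x => Or.inl (r.refl x), ?_, ?_⟩
    · rintro x y (h | ⟨h1, h2⟩ | ⟨h1, h2⟩)
      · exact Or.inl (r.symm h)
      · exact Or.inr (Or.inr ⟨r.symm h2, r.symm h1⟩)
      · exact Or.inr (Or.inl ⟨r.symm h2, r.symm h1⟩)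
    · rintro x y z (h | ⟨h1, h2⟩ | ⟨h1, h2⟩) (k | ⟨k1, k2⟩ | ⟨k1, k2⟩)
      · exact Or.inl (r.trans h k)
      · exact Or.inr (Or.inl ⟨r.trans h k1, k2⟩)
      · exact Or.inr (Or.inr ⟨r.trans h k1, k2⟩)
      · exact Or.inr (Or.inl ⟨h1, r.trans h2 k⟩)
      · exact Or.inr (Or.inl ⟨h1, k2⟩)
      · exact Or.inl (r.trans h1 k2)
      · exact Or.inr (Or.inr ⟨h1, r.trans h2 k⟩)
      · exact Or.inl (r.trans h1 k2)
      · exact Or.inr (Or.inr ⟨h1, k2⟩)

open Classical in
/-- Weighted number of forests of the graph with edge list `L`, after contraction of the classes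
of `r`. -/
noncomputable def Zl {V ι : Type} (s t : ι → V) (w : ι → ℝ) : List ι → Setoid V → ℝ
  | [], _ => 1
  | i :: L, r => Zl s t w L r +
      if r (s i) (t i) then 0 else w i * Zl s t w L (joinS r (s i) (t i))

open Classical in
/-- Weighted number of forests which connect `x` and `y`. -/
noncomputable def Nl {V ι : Type} (s t : ι → V) (w : ι → ℝ) (x y : V) : List ι → Setoid V → ℝ
  | [], r => if r x y then 1 else 0
  | i :: L, r => Nl s t w x y L r +
      if r (s i) (t i) then 0 else w i * Nl s t w x y L (joinS r (s i) (t i))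

/-- The weight matrix of a list of edges. -/
def Wm {V ι : Type} [DecidableEq V] (s t : ι → V) (w : ι → ℝ) : List ι → Matrix V V ℝ
  | [] => 0
  | i :: L => Wm s t w L +
      if s i = t i then 0 else w i • (Matrix.single (s i) (t i) 1 + Matrix.single (t i) (s i) 1)

/-! ### the join -/

section join

variable {V : Type}

theorem joinS_iff (r : Setoid V) (a b x y : V) :
    joinS r a b x y ↔ r x y ∨ (r x a ∧ r b y) ∨ (r x b ∧ r a y) := Iff.rfl

theorem le_joinS (r : Setoid V) (a b : V) : r ≤ joinS r a b := fun _ _ h => Or.inl h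

theorem joinS_self (r : Setoid V) (a b : V) : joinS r a b a b :=
  Or.inr (Or.inl ⟨r.refl a, r.refl b⟩)

theorem joinS_le_iff {r s : Setoid V} {a b : V} : joinS r a b ≤ s ↔ r ≤ s ∧ s a b := by
  constructor
  · intro h
    exact ⟨(le_joinS r a b).trans h, h (joinS_self r a b)⟩
  · rintro ⟨h1, h2⟩ x y (h | ⟨h3, h4⟩ | ⟨h3, h4⟩)
    · exact h1 h
    · exact s.trans (h1 h3) (s.trans h2 (h1 h4))
    · exact s.trans (h1 h3) (s.trans (s.symm h2) (h1 h4))

theorem joinS_joinS (r : Setoid V) (x y a b : V) :
    joinS (joinS r x y) a b = joinS (joinS r a b) x y := by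
  apply eq_of_forall_ge_iff
  intro s
  simp only [joinS_le_iff]
  tauto

theorem joinS_eq_self {r : Setoid V} {a b : V} (h : r a b) : joinS r a b = r := by
  apply eq_of_forall_ge_iff
  intro s
  rw [joinS_le_iff]
  exact ⟨fun h' => h'.1, fun h' => ⟨h', h' h⟩⟩

theorem joinS_comm_iff {r : Setoid V} {x y a b : V} (h1 : ¬ r a b) (h2 : ¬ r x y) :
    joinS r x y a b ↔ joinS r a b x y := by
  rw [joinS_iff, joinS_iff]
  constructor
  · rintro (h | ⟨h3, h4⟩ | ⟨h3, h4⟩)
    · exact absurd h h1
    · exact Or.inr (Or.inl ⟨r.symm h3, r.symm h4⟩)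
    · exact Or.inr (Or.inr ⟨h4, h3⟩)
  · rintro (h | ⟨h3, h4⟩ | ⟨h3, h4⟩)
    · exact absurd h h2
    · exact Or.inr (Or.inl ⟨r.symm h3, r.symm h4⟩)
    · exact Or.inr (Or.inr ⟨h4, h3⟩)

end join

variable {V ι : Type} {s t : ι → V} {w : ι → ℝ}

theorem Nl_nonneg (hw : ∀ i, 0 ≤ w i) (x y : V) (L : List ι) (r : Setoid V) :
    0 ≤ Nl s t w x y L r := by
  induction L generalizing r with
  | nil => unfold Nl; split_ifs <;> norm_num
  | cons i L ih =>
    unfold Nl
    have h1 := ih r
    have h2 := ih (joinS r (s i) (t i))
    have h3 := hw i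
    split_ifs <;> positivity

theorem Nl_le_Zl (hw : ∀ i, 0 ≤ w i) (x y : V) (L : List ι) (r : Setoid V) :
    Nl s t w x y L r ≤ Zl s t w L r := by
  induction L generalizing r with
  | nil => unfold Nl Zl; split_ifs <;> norm_num
  | cons i L ih =>
    unfold Nl Zl
    have h1 := ih r
    have h2 := ih (joinS r (s i) (t i))
    have h3 := hw i
    split_ifs
    · linarith
    · have := mul_le_mul_of_nonneg_left h2 h3
      linarith

theorem one_le_Zl (hw : ∀ i, 0 ≤ w i) (L : List ι) (r : Setoid V) : 1 ≤ Zl s t w L r := by
  induction L generalizing r with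
  | nil => unfold Zl; exact le_rfl
  | cons i L ih =>
    unfold Zl
    have h1 := ih r
    have h2 := ih (joinS r (s i) (t i))
    have h3 := hw i
    split_ifs
    · linarith
    · have : 0 ≤ w i * Zl s t w L (joinS r (s i) (t i)) := by positivity
      linarith

theorem Nl_eq_Zl (x y : V) (L : List ι) (r : Setoid V) (h : r x y) :
    Nl s t w x y L r = Zl s t w L r := by
  induction L generalizing r with
  | nil => unfold Nl Zl; rw [if_pos h]
  | cons i L ih =>
    unfold Nl Zl
    rw [ih r h, ih (joinS r (s i) (t i)) (le_joinS _ _ _ h)]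

/-- Forests that do not connect `x` and `y` are the forests of the contraction. -/
theorem Zl_sub_Nl (x y : V) (L : List ι) (r : Setoid V) (h : ¬ r x y) :
    Zl s t w L (joinS r x y) = Zl s t w L r - Nl s t w x y L r := by
  induction L generalizing r with
  | nil => unfold Nl Zl; rw [if_neg h, sub_zero]
  | cons i L ih =>
    unfold Nl Zl
    rw [ih r h]
    by_cases h1 : r (s i) (t i)
    · rw [if_pos h1, if_pos h1, if_pos (le_joinS _ _ _ h1)]
      ring
    · rw [if_neg h1, if_neg h1]
      by_cases h2 : joinS r x y (s i) (t i)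
      · rw [if_pos h2, Nl_eq_Zl x y L _ ((joinS_comm_iff h1 h).1 h2)]
        ring
      · rw [if_neg h2, joinS_joinS, ih _ (fun h3 => h2 ((joinS_comm_iff h1 h).2 h3))]
        ring

theorem Nl_congr (x x' y y' : V) (L : List ι) (r : Setoid V) (h : r x x') (h' : r y y') :
    Nl s t w x y L r = Nl s t w x' y' L r := by
  induction L generalizing r with
  | nil =>
    unfold Nl
    have : r x y ↔ r x' y' :=
      ⟨fun k => r.trans (r.symm h) (r.trans k h'), fun k => r.trans h (r.trans k (r.symm h'))⟩
    by_cases k : r x y
    · rw [if_pos k, if_pos (this.1 k)]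
    · rw [if_neg k, if_neg (fun k' => k (this.2 k'))]
  | cons i L ih =>
    unfold Nl
    rw [ih r h h', ih (joinS r (s i) (t i)) (le_joinS _ _ _ h) (le_joinS _ _ _ h')]

theorem Nl_comm (x y : V) (L : List ι) (r : Setoid V) :
    Nl s t w x y L r = Nl s t w y x L r := by
  induction L generalizing r with
  | nil =>
    unfold Nl
    by_cases k : r x y
    · rw [if_pos k, if_pos (r.symm k)]
    · rw [if_neg k, if_neg (fun k' => k (r.symm k'))]
  | cons i L ih =>
    unfold Nl
    rw [ih r, ih (joinS r (s i) (t i))]

/-- If `q` is not connected to any endpoint of the remaining edges it stays where it is. -/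
theorem Nl_eq_zero (q y : V) (L : List ι) (r : Setoid V)
    (hq : ∀ i ∈ L, ¬ r q (s i) ∧ ¬ r q (t i)) (hy : ¬ r q y) : Nl s t w q y L r = 0 := by
  induction L generalizing r with
  | nil => unfold Nl; rw [if_neg hy]
  | cons i L ih =>
    unfold Nl
    have hi := hq i List.mem_cons_self
    have key : ∀ z, ¬ r q z → ¬ joinS r (s i) (t i) q z := by
      rintro z hz (h | ⟨h, _⟩ | ⟨h, _⟩)
      · exact hz h
      · exact hi.1 h
      · exact hi.2 h
    rw [ih r (fun j hj => hq j (List.mem_cons_of_mem _ hj)) hy,
      ih (joinS r (s i) (t i)) (fun j hj => ⟨key _ (hq j (List.mem_cons_of_mem _ hj)).1,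
        key _ (hq j (List.mem_cons_of_mem _ hj)).2⟩) (key y hy)]
    split_ifs <;> simp

/-- Comparison of two connection events: it is enough to compare after the first edges have been
decided (spatial Markov property). -/
theorem Nl_append_le (hw : ∀ i, 0 ≤ w i) (c : ℝ) (x y x' y' : V) (L₁ L₂ : List ι)
    (h : ∀ r, c * Nl s t w x y L₂ r ≤ Nl s t w x' y' L₂ r) (r : Setoid V) :
    c * Nl s t w x y (L₁ ++ L₂) r ≤ Nl s t w x' y' (L₁ ++ L₂) r := by
  induction L₁ generalizing r with
  | nil => exact h r
  | cons i L ih =>
    rw [List.cons_append]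
    unfold Nl
    have h1 := ih r
    have h2 := ih (joinS r (s i) (t i))
    have h3 := hw i
    split_ifs
    · linarith
    · have := mul_le_mul_of_nonneg_left h2 h3
      linarith

theorem Zl_append_le (hw : ∀ i, 0 ≤ w i) (c : ℝ) (x y : V) (L₁ L₂ : List ι)
    (h : ∀ r, c * Zl s t w L₂ r ≤ Nl s t w x y L₂ r) (r : Setoid V) :
    c * Zl s t w (L₁ ++ L₂) r ≤ Nl s t w x y (L₁ ++ L₂) r := by
  induction L₁ generalizing r with
  | nil => exact h r
  | cons i L ih =>
    rw [List.cons_append]
    unfold Nl Zl
    have h1 := ih r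
    have h2 := ih (joinS r (s i) (t i))
    have h3 := hw i
    split_ifs
    · linarith
    · have := mul_le_mul_of_nonneg_left h2 h3
      linarith

theorem continuous_Zl {T : Type} [TopologicalSpace T] (w : T → ι → ℝ)
    (hw : ∀ i, Continuous fun τ => w τ i) (L : List ι) (r : Setoid V) :
    Continuous fun τ => Zl s t (w τ) L r := by
  induction L generalizing r with
  | nil => unfold Zl; exact continuous_const
  | cons i L ih =>
    unfold Zl
    have h1 := ih r
    have h2 := ih (joinS r (s i) (t i))
    have h3 := hw i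
    split_ifs
    · exact h1.add continuous_const
    · exact h1.add (h3.mul h2)

/-! ### the weight matrix of a list -/

theorem Wm_diag [Fintype V] [DecidableEq V] (L : List ι) (a : V) : Wm s t w L a a = 0 := by
  induction L with
  | nil => rfl
  | cons i L ih =>
    unfold Wm
    rw [Matrix.add_apply, ih, zero_add]
    split_ifs with h
    · rfl
    · simp only [Matrix.smul_apply, Matrix.add_apply, Matrix.single_apply, smul_eq_mul]
      rw [if_neg (by rintro ⟨h1, h2⟩; exact h (h1.trans h2.symm)),
        if_neg (by rintro ⟨h1, h2⟩; exact h (h2.trans h1.symm))]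
      ring

theorem Wm_apply [Fintype V] [DecidableEq V] (L : List ι) (a b : V) (hab : a ≠ b) :
    Wm s t w L a b =
      (L.map fun i => w i * ((if s i = a ∧ t i = b then 1 else 0) +
        (if s i = b ∧ t i = a then 1 else 0))).sum := by
  induction L with
  | nil => rfl
  | cons i L ih =>
    unfold Wm
    rw [Matrix.add_apply, ih, List.map_cons, List.sum_cons, add_comm]
    congr 1
    by_cases h : s i = t i
    · rw [if_pos h, if_neg (by rintro ⟨h1, h2⟩; exact hab (by rw [← h1, ← h2, h])),
        if_neg (by rintro ⟨h1, h2⟩; exact hab (by rw [← h1, ← h2, h]))]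
      simp
    · rw [if_neg h]
      simp only [Matrix.smul_apply, Matrix.add_apply, Matrix.single_apply, smul_eq_mul]
      congr 2
      exact if_congr and_comm rfl rfl

theorem isWt_Wm [Fintype V] [DecidableEq V] (hw : ∀ i, 0 ≤ w i) (L : List ι) :
    IsWt (Wm s t w L) where
  symm a b := by
    by_cases hab : a = b
    · rw [hab]
    · rw [Wm_apply L a b hab, Wm_apply L b a (Ne.symm hab)]
      congr 1
      refine List.map_congr_left fun i _ => ?_
      ring
  nonneg a b := by
    by_cases hab : a = b
    · rw [hab, Wm_diag]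
    · rw [Wm_apply L a b hab]
      refine List.sum_nonneg fun z hz => ?_
      obtain ⟨i, _, rfl⟩ := List.mem_map.1 hz
      refine mul_nonneg (hw i) ?_
      split_ifs <;> norm_num
  diag a := Wm_diag L a

theorem mrg_Wm [Fintype V] [DecidableEq V] (a b : V) (hab : a ≠ b) (L : List ι) :
    mrg a b (Wm s t w L) =
      Wm (fun i => if s i = b then a else s i) (fun i => if t i = b then a else t i) w L := by
  ext c d
  by_cases hcd : c = d
  · subst hcd
    rw [Wm_diag]
    unfold mrg
    rw [if_pos (Or.inr (Or.inr rfl))]
  · rw [Wm_apply L c d hcd]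
    unfold mrg
    by_cases hc : c = b
    · rw [if_pos (Or.inl hc)]
      symm
      apply List.sum_eq_zero
      intro z hz
      obtain ⟨i, _, rfl⟩ := List.mem_map.1 hz
      subst hc
      have h1 : ¬ (if s i = c then a else s i) = c := by split_ifs <;> assumption
      have h2 : ¬ (if t i = c then a else t i) = c := by split_ifs <;> assumption
      rw [if_neg (fun h => h1 h.1), if_neg (fun h => h2 h.2)]
      ring
    · by_cases hd : d = b
      · rw [if_pos (Or.inr (Or.inl hd))]
        symm
        apply List.sum_eq_zero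
        intro z hz
        obtain ⟨i, _, rfl⟩ := List.mem_map.1 hz
        subst hd
        have h1 : ¬ (if s i = d then a else s i) = d := by split_ifs <;> assumption
        have h2 : ¬ (if t i = d then a else t i) = d := by split_ifs <;> assumption
        rw [if_neg (fun h => h2 h.2), if_neg (fun h => h1 h.1)]
        ring
      · rw [if_neg (by tauto)]
        by_cases hca : c = a
        · subst hca
          rw [if_pos rfl, Wm_apply L c d hcd, Wm_apply L b d (Ne.symm hd), ← List.sum_map_add]
          congr 1
          refine List.map_congr_left fun i _ => ?_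
          rw [← mul_add]
          congr 1
          have g1 := Ne.symm hcd
          have g2 := Ne.symm hc
          have g3 := Ne.symm hd
          by_cases h1 : s i = b <;> by_cases h2 : t i = b <;> by_cases h3 : s i = c <;>
            by_cases h4 : t i = c <;> by_cases h5 : s i = d <;> by_cases h6 : t i = d <;>
            simp_all
        · rw [if_neg hca]
          by_cases hda : d = a
          · subst hda
            rw [if_pos rfl, Wm_apply L c d hcd, Wm_apply L c b hc, ← List.sum_map_add]
            congr 1
            refine List.map_congr_left fun i _ => ?_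
            rw [← mul_add]
            congr 1
            have g1 := Ne.symm hcd
            have g2 := Ne.symm hc
            have g3 := Ne.symm hd
            by_cases h1 : s i = b <;> by_cases h2 : t i = b <;> by_cases h3 : s i = c <;>
              by_cases h4 : t i = c <;> by_cases h5 : s i = d <;> by_cases h6 : t i = d <;>
              simp_all
          · rw [if_neg hda, Wm_apply L c d hcd]
            congr 1
            refine List.map_congr_left fun i _ => ?_
            congr 1
            have g1 := Ne.symm hcd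
            have g2 := Ne.symm hc
            have g3 := Ne.symm hd
            have g4 := Ne.symm hca
            have g5 := Ne.symm hda
            by_cases h1 : s i = b <;> by_cases h2 : t i = b <;> by_cases h3 : s i = c <;>
              by_cases h4 : t i = c <;> by_cases h5 : s i = d <;> by_cases h6 : t i = d <;>
              simp_all

theorem ker_joinS {V₀ V : Type} [DecidableEq V] (π : V₀ → V) (u v : V₀) :
    Setoid.ker (fun x => if π x = π v then π u else π x) = joinS (Setoid.ker π) u v := by
  ext x y
  rw [Setoid.ker_def, joinS_iff, Setoid.ker_def, Setoid.ker_def, Setoid.ker_def, Setoid.ker_def,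
    Setoid.ker_def]
  by_cases h1 : π x = π v <;> by_cases h2 : π y = π v
  · simp [h1, h2]
  · rw [if_pos h1, if_neg h2, h1]
    constructor
    · intro h; exact Or.inr (Or.inr ⟨rfl, h⟩)
    · rintro (h | ⟨_, h⟩ | ⟨_, h⟩)
      · exact absurd h.symm h2
      · exact absurd h.symm h2
      · exact h
  · rw [if_neg h1, if_pos h2, h2]
    constructor
    · intro h; exact Or.inr (Or.inl ⟨h, rfl⟩)
    · rintro (h | ⟨h, _⟩ | ⟨h, _⟩)
      · exact absurd h h1
      · exact h
      · exact absurd h h1
  · rw [if_neg h1, if_neg h2]
    constructor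
    · intro h; exact Or.inl h
    · rintro (h | ⟨_, h⟩ | ⟨h, _⟩)
      · exact h
      · exact absurd h.symm h2
      · exact absurd h h1

end Pool.Agent.Lib.Arb
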