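import Mathlib

/-!
# The random Schrödinger representation of random spanning forests: definitions

For a symmetric nonnegative weight matrix `W` with zero diagonal on a finite set `V` and
`φ : V → ℝ` put `Hm W φ = diag (2 φ) - W` and `Gr W φ = (Hm W φ)⁻¹`.
-/

set_option autoImplicit false

open MeasureTheory
open scoped ENNReal

namespace Pool.Agent.Lib.Arb

variable {V : Type} [Fintype V] [DecidableEq V]

/-- Symmetric nonnegative weights with zero diagonal. -/
structure IsWt (W : Matrix V V ℝ) : Prop where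
  symm : ∀ a b, W a b = W b a
  nonneg : ∀ a b, 0 ≤ W a b
  diag : ∀ a, W a a = 0

/-- The matrix `2 φ - W`. -/
def Hm (W : Matrix V V ℝ) (φ : V → ℝ) : Matrix V V ℝ :=
  Matrix.diagonal (fun a => 2 * φ a) - W

/-- The Green function. -/
noncomputable def Gr (W : Matrix V V ℝ) (φ : V → ℝ) : Matrix V V ℝ := (Hm W φ)⁻¹

open Classical in
/-- The density `exp (-⟨1, H 1⟩ / 2 - ⟨η, G η⟩ / 2 + ⟨1, η⟩) √(det H)` on `{H > 0}`. -/
noncomputable def dens (W : Matrix V V ℝ) (η φ : V → ℝ) : ℝ≥0∞ :=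
  if (Hm W φ).PosDef then
    ENNReal.ofReal (Real.exp (-(∑ a, φ a) + (∑ a, ∑ b, W a b) / 2 -
      (∑ a, ∑ b, η a * Gr W φ a b * η b) / 2 + ∑ a, η a) * Real.sqrt (Hm W φ).det)
  else 0

/-- The partition function. -/
noncomputable def II (W : Matrix V V ℝ) : ℝ≥0∞ := ∫⁻ φ : V → ℝ, dens W 0 φ

/-- Remove all edges at `b`. -/
def iso (b : V) (W : Matrix V V ℝ) : Matrix V V ℝ := fun a c => if a = b ∨ c = b then 0 else W a c

/-- Move all edges at `b` to `a` (the vertex `b` becomes isolated). -/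
def mrg (a b : V) (W : Matrix V V ℝ) : Matrix V V ℝ := fun c d =>
  if c = b ∨ d = b ∨ c = d then 0
  else if c = a then W a d + W b d
  else if d = a then W c a + W c b
  else W c d

/-- `tt W x a = G x a / G x x`, written so that it visibly does not depend on `φ x`. -/
noncomputable def tt (W : Matrix V V ℝ) (x a : V) (φ : V → ℝ) : ℝ :=
  ((Hm W φ).updateRow x (Pi.single a 1)).det / ((Hm W φ).updateRow x (Pi.single x 1)).det

/-- The mass that remains after elimination of the vertex `b`. -/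
noncomputable def QQ (W : Matrix V V ℝ) (η : V → ℝ) (b : V) (φ : V → ℝ) : ℝ :=
  η b + ∑ a, ∑ c, W b a * Gr (iso b W) φ a c * Function.update η b 0 c

/-- Expectation of `Φ` under the chi-square law with three degrees of freedom. -/
noncomputable def mom (Φ : ℝ → ℝ≥0∞) : ℝ≥0∞ :=
  (∫⁻ y in Set.Ioi (0 : ℝ), ENNReal.ofReal (Real.sqrt y * Real.exp (-y / 2)) * Φ y) /
    ∫⁻ y in Set.Ioi (0 : ℝ), ENNReal.ofReal (Real.sqrt y * Real.exp (-y / 2))

/-- `θ` is a flow from `x` to `y` inside `A` of energy at most `E` (conductances `W`). -/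
structure IsFlow (W : Matrix V V ℝ) (A : Finset V) (x y : V) (θ : V → V → ℝ) (E : ℝ) : Prop where
  rep : ∀ v : V → ℝ, ∑ a, ∑ b, θ a b * (v b - v a) = v y - v x
  supp : ∀ a b, θ a b ≠ 0 → a ∈ A ∧ b ∈ A ∧ 0 < W a b
  energy : ∑ a, ∑ b, θ a b ^ 2 / W a b ≤ E

/-- The mass of `{G x a ≤ l}`. -/
noncomputable def NN (W : Matrix V V ℝ) (x a : V) (l : ℝ) : ℝ≥0∞ :=
  ∫⁻ φ in {φ : V → ℝ | Gr W φ x a ≤ l}, dens W 0 φ

end Pool.Agent.Lib.Arb
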