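import Pool.Agent.Lib.Arb.Defs

/-!
# Module B: one-dimensional integrals
-/

set_option autoImplicit false

open MeasureTheory
open scoped ENNReal

namespace Pool.Agent.Lib.Arb

/-- `∫₀^∞ √y e^{-y/2} dy`. -/
noncomputable def c3 : ℝ≥0∞ :=
  ∫⁻ y in Set.Ioi (0 : ℝ), ENNReal.ofReal (Real.sqrt y * Real.exp (-y / 2))

/-! ### Gamma integrals -/

theorem lint_gamma (a : ℝ) (ha : 0 < a) :
    ∫⁻ y in Set.Ioi (0 : ℝ), ENNReal.ofReal (y ^ (a - 1) * Real.exp (-(1 / 2 * y))) =
      ENNReal.ofReal (2 ^ a * Real.Gamma a) := by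
  have h1 := Real.integral_rpow_mul_exp_neg_mul_Ioi (a := a) (r := 1 / 2) ha (by norm_num)
  have h2 : IntegrableOn (fun y : ℝ => y ^ (a - 1) * Real.exp (-(1 / 2 * y))) (Set.Ioi 0) := by
    have := integrableOn_rpow_mul_exp_neg_mul_rpow (p := 1) (s := a - 1) (b := 1 / 2)
      (by linarith) one_pos (by norm_num)
    refine this.congr_fun (fun y _ => ?_) measurableSet_Ioi
    simp only [Real.rpow_one]
    congr 2
    ring
  rw [← ofReal_integral_eq_lintegral_ofReal h2, h1]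
  · norm_num
  · filter_upwards [ae_restrict_mem measurableSet_Ioi] with y hy
    have hy' : (0 : ℝ) < y := hy
    positivity

theorem sqrt_mul_exp_eq (y : ℝ) :
    Real.sqrt y * Real.exp (-y / 2) = y ^ ((3 / 2 : ℝ) - 1) * Real.exp (-(1 / 2 * y)) := by
  rw [Real.sqrt_eq_rpow]
  congr 1
  · norm_num
  · congr 1
    ring

theorem gamma_three_half : Real.Gamma (3 / 2) = Real.sqrt Real.pi / 2 := by
  have h := Real.Gamma_add_one (s := 1 / 2) (by norm_num)
  rw [show (1 / 2 : ℝ) + 1 = 3 / 2 by norm_num, Real.Gamma_one_half_eq] at h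
  rw [h]
  ring

theorem two_rpow_three_half : (2 : ℝ) ^ (3 / 2 : ℝ) = 2 * Real.sqrt 2 := by
  rw [show (3 / 2 : ℝ) = 1 + 1 / 2 by norm_num, Real.rpow_add (by norm_num), Real.rpow_one,
    ← Real.sqrt_eq_rpow]

theorem c3_eq : c3 = ENNReal.ofReal (Real.sqrt (2 * Real.pi)) := by
  unfold c3
  rw [setLIntegral_congr_fun (g := fun y => ENNReal.ofReal (y ^ ((3 / 2 : ℝ) - 1) *
    Real.exp (-(1 / 2 * y)))) measurableSet_Ioi (fun y _ => congrArg ENNReal.ofReal (sqrt_mul_exp_eq y))]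
  rw [lint_gamma _ (by norm_num), gamma_three_half, two_rpow_three_half,
    Real.sqrt_mul (by norm_num)]
  congr 1
  ring

theorem c3_pos : c3 ≠ 0 := by
  rw [c3_eq]
  simp only [ne_eq, ENNReal.ofReal_eq_zero, not_le]
  have := Real.pi_pos
  positivity

theorem c3_lt_top : c3 ≠ ⊤ := by
  rw [c3_eq]
  exact ENNReal.ofReal_ne_top

/-! ### Gaussian integrals -/

theorem gauss_zero :
    ∫⁻ u : ℝ, ENNReal.ofReal (Real.exp (-(1 / 2) * u ^ 2)) = c3 := by
  rw [← ofReal_integral_eq_lintegral_ofReal (integrable_exp_neg_mul_sq (by norm_num)),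
    integral_gaussian, c3_eq]
  · congr 2
    ring
  · exact Filter.Eventually.of_forall (fun u => (Real.exp_pos _).le)

theorem gauss_two :
    ∫⁻ u : ℝ, ENNReal.ofReal (u ^ 2 * Real.exp (-(1 / 2) * u ^ 2)) = c3 := by
  have hi : Integrable (fun u : ℝ => u ^ 2 * Real.exp (-(1 / 2) * u ^ 2)) := by
    have := integrable_rpow_mul_exp_neg_mul_sq (b := 1 / 2) (by norm_num) (s := 2) (by norm_num)
    refine this.congr (Filter.Eventually.of_forall (fun u => ?_))
    simp only [Real.rpow_two]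
  rw [← ofReal_integral_eq_lintegral_ofReal hi, c3_eq]
  · congr 1
    have h1 := integral_comp_abs (f := fun u : ℝ => u ^ (2 : ℝ) * Real.exp (-(1 / 2) * u ^ (2 : ℝ)))
    have h2 := integral_rpow_mul_exp_neg_mul_rpow (p := 2) (q := 2) (b := 1 / 2)
      (by norm_num) (by norm_num) (by norm_num)
    rw [h2] at h1
    simp only [Real.rpow_two, sq_abs] at h1
    rw [h1]
    rw [show ((2 : ℝ) + 1) / 2 = 3 / 2 by norm_num, gamma_three_half,
      show (1 / 2 : ℝ) ^ (-((2 : ℝ) + 1) / 2) = 2 * Real.sqrt 2 by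
        rw [show (-((2 : ℝ) + 1) / 2) = -(3 / 2) by norm_num, Real.rpow_neg (by norm_num),
          one_div, Real.inv_rpow (by norm_num), inv_inv, two_rpow_three_half],
      Real.sqrt_mul (by norm_num)]
    ring
  · exact Filter.Eventually.of_forall (fun u => by positivity)

/-! ### Substitutions -/

theorem sub_sq (f : ℝ → ℝ≥0∞) :
    ∫⁻ y in Set.Ioi (0 : ℝ), f y = ∫⁻ s in Set.Ioi (0 : ℝ), ENNReal.ofReal (2 * s) * f (s ^ 2) := by
  have himg : (fun s : ℝ => s ^ 2) '' Set.Ioi 0 = Set.Ioi 0 := by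
    ext y
    simp only [Set.mem_image, Set.mem_Ioi]
    constructor
    · rintro ⟨s, hs, rfl⟩
      positivity
    · intro hy
      exact ⟨Real.sqrt y, Real.sqrt_pos.2 hy, Real.sq_sqrt hy.le⟩
  have hinj : Set.InjOn (fun s : ℝ => s ^ 2) (Set.Ioi 0) := by
    intro s hs t ht hst
    exact (pow_left_inj₀ (le_of_lt hs) (le_of_lt ht) (by norm_num)).1 hst
  have h := lintegral_image_eq_lintegral_abs_deriv_mul (s := Set.Ioi (0 : ℝ))
    (f := fun s : ℝ => s ^ 2) (f' := fun s => 2 * s) measurableSet_Ioi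
    (fun s _ => by simpa using (hasDerivAt_pow 2 s).hasDerivWithinAt) hinj f
  rw [himg] at h
  rw [h]
  refine setLIntegral_congr_fun measurableSet_Ioi (fun s hs => ?_)
  have hs' : (0 : ℝ) < s := hs
  simp only [abs_of_pos (by positivity : (0 : ℝ) < 2 * s)]

theorem sub_inv (q : ℝ) (hq : 0 < q) (f : ℝ → ℝ≥0∞) :
    ∫⁻ s in Set.Ioi (0 : ℝ), f s =
      ∫⁻ s in Set.Ioi (0 : ℝ), ENNReal.ofReal (q / s ^ 2) * f (q / s) := by
  have himg : (fun s : ℝ => q / s) '' Set.Ioi 0 = Set.Ioi 0 := by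
    ext y
    simp only [Set.mem_image, Set.mem_Ioi]
    constructor
    · rintro ⟨s, hs, rfl⟩
      positivity
    · intro hy
      exact ⟨q / y, by positivity, by field_simp⟩
  have hinj : Set.InjOn (fun s : ℝ => q / s) (Set.Ioi 0) := by
    intro s hs t ht hst
    have hs' : (0 : ℝ) < s := hs
    have ht' : (0 : ℝ) < t := ht
    simp only at hst
    rw [div_eq_div_iff hs'.ne' ht'.ne'] at hst
    exact (mul_left_cancel₀ hq.ne' hst).symm
  have h := lintegral_image_eq_lintegral_abs_deriv_mul (s := Set.Ioi (0 : ℝ))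
    (f := fun s : ℝ => q / s) (f' := fun s => -(q / s ^ 2)) measurableSet_Ioi
    (fun s hs => by
      have hs' : (0 : ℝ) < s := hs
      have := (hasDerivAt_inv hs'.ne').const_mul q
      have h2 : HasDerivAt (fun s : ℝ => q / s) (-(q / s ^ 2)) s := by
        simp only [div_eq_mul_inv, ← mul_neg]
        exact this
      exact h2.hasDerivWithinAt) hinj f
  rw [himg] at h
  rw [h]
  refine setLIntegral_congr_fun measurableSet_Ioi (fun s hs => ?_)
  have hs' : (0 : ℝ) < s := hs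
  simp only [abs_neg, abs_of_pos (by positivity : (0 : ℝ) < q / s ^ 2)]

theorem sub_glasser (q : ℝ) (hq : 0 < q) (f : ℝ → ℝ≥0∞) :
    ∫⁻ u : ℝ, f u =
      ∫⁻ s in Set.Ioi (0 : ℝ), ENNReal.ofReal (1 + q / s ^ 2) * f (s - q / s) := by
  have himg : (fun s : ℝ => s - q / s) '' Set.Ioi 0 = Set.univ := by
    ext y
    simp only [Set.mem_image, Set.mem_Ioi, Set.mem_univ, iff_true]
    have h1 : 0 < Real.sqrt (y ^ 2 + 4 * q) := Real.sqrt_pos.2 (by positivity)
    have h2 : Real.sqrt (y ^ 2 + 4 * q) ^ 2 = y ^ 2 + 4 * q := Real.sq_sqrt (by positivity)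
    have h3 : |y| < Real.sqrt (y ^ 2 + 4 * q) := by
      apply Real.lt_sqrt_of_sq_lt
      rw [sq_abs]
      linarith
    have h4 : 0 < (y + Real.sqrt (y ^ 2 + 4 * q)) / 2 := by
      have := neg_abs_le y
      linarith
    refine ⟨(y + Real.sqrt (y ^ 2 + 4 * q)) / 2, h4, ?_⟩
    rw [sub_eq_iff_eq_add, ← sub_eq_iff_eq_add', eq_div_iff h4.ne']
    nlinarith
  have hinj : Set.InjOn (fun s : ℝ => s - q / s) (Set.Ioi 0) := by
    intro s hs t ht hst
    have hs' : (0 : ℝ) < s := hs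
    have ht' : (0 : ℝ) < t := ht
    simp only at hst
    have h5 : (s - t) * (s * t + q) = 0 := by
      have : (s - t) * (s * t) = q * (t - s) := by
        have h6 : s - t = q / s - q / t := by linarith
        rw [h6]
        field_simp
      linarith
    rcases mul_eq_zero.1 h5 with h | h
    · linarith
    · nlinarith [mul_pos hs' ht']
  have h := lintegral_image_eq_lintegral_abs_deriv_mul (s := Set.Ioi (0 : ℝ))
    (f := fun s : ℝ => s - q / s) (f' := fun s => 1 + q / s ^ 2) measurableSet_Ioi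
    (fun s hs => by
      have hs' : (0 : ℝ) < s := hs
      have := (hasDerivAt_id s).sub ((hasDerivAt_inv hs'.ne').const_mul q)
      have h2 : HasDerivAt (fun s : ℝ => s - q / s) (1 + q / s ^ 2) s := by
        rw [show (1 + q / s ^ 2) = 1 - q * -(s ^ 2)⁻¹ by ring]
        simp only [div_eq_mul_inv]
        exact this
      exact h2.hasDerivWithinAt) hinj f
  rw [himg, Measure.restrict_univ] at h
  rw [h]
  refine setLIntegral_congr_fun measurableSet_Ioi (fun s hs => ?_)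
  have hs' : (0 : ℝ) < s := hs
  simp only [abs_of_pos (by positivity : (0 : ℝ) < 1 + q / s ^ 2)]

/-- The weight in the variable `s = √y`. -/
noncomputable def Es (q s : ℝ) : ℝ := Real.exp (-s ^ 2 / 2 - q ^ 2 / (2 * s ^ 2))

theorem Es_pos (q s : ℝ) : 0 < Es q s := Real.exp_pos _

theorem Es_inv (q s : ℝ) (hq : 0 < q) (hs : 0 < s) : Es q (q / s) = Es q s := by
  unfold Es
  congr 1
  field_simp
  ring

theorem Es_glasser (q s : ℝ) (hs : 0 < s) :
    Es q s = Real.exp (-q) * Real.exp (-(1 / 2) * (s - q / s) ^ 2) := by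
  unfold Es
  rw [← Real.exp_add]
  congr 1
  field_simp
  ring

theorem measurable_Es (q : ℝ) : Measurable (Es q) := by
  unfold Es
  fun_prop

/-- `∫₀^∞ E (1 + q/s²) (h (s - q/s)) ds`. -/
theorem glasser_int (q : ℝ) (hq : 0 < q) (h : ℝ → ℝ) :
    ∫⁻ s in Set.Ioi (0 : ℝ), ENNReal.ofReal ((1 + q / s ^ 2) * h (s - q / s) * Es q s) =
      ENNReal.ofReal (Real.exp (-q)) *
        ∫⁻ u : ℝ, ENNReal.ofReal (h u * Real.exp (-(1 / 2) * u ^ 2)) := by
  rw [← lintegral_const_mul' _ _ ENNReal.ofReal_ne_top, sub_glasser q hq]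
  refine setLIntegral_congr_fun measurableSet_Ioi (fun s hs => ?_)
  have hs' : (0 : ℝ) < s := hs
  rw [← ENNReal.ofReal_mul (Real.exp_pos _).le, ← ENNReal.ofReal_mul (by positivity),
    Es_glasser q s hs']
  congr 1
  ring

/-- `2 ∫₀^∞ E ds = e^{-q} c3`. -/
theorem int_Es (q : ℝ) (hq : 0 < q) :
    2 * ∫⁻ s in Set.Ioi (0 : ℝ), ENNReal.ofReal (Es q s) = ENNReal.ofReal (Real.exp (-q)) * c3 := by
  have h1 := glasser_int q hq (fun _ => 1)
  simp only [mul_one, one_mul] at h1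
  rw [gauss_zero] at h1
  rw [← h1]
  have h2 : ∫⁻ s in Set.Ioi (0 : ℝ), ENNReal.ofReal (Es q s) =
      ∫⁻ s in Set.Ioi (0 : ℝ), ENNReal.ofReal (q / s ^ 2 * Es q s) := by
    rw [sub_inv q hq]
    refine setLIntegral_congr_fun measurableSet_Ioi (fun s hs => ?_)
    have hs' : (0 : ℝ) < s := hs
    rw [← ENNReal.ofReal_mul (by positivity), Es_inv q s hq hs']
  have h3 : ∫⁻ s in Set.Ioi (0 : ℝ), ENNReal.ofReal ((1 + q / s ^ 2) * Es q s) =
      ∫⁻ s in Set.Ioi (0 : ℝ), (ENNReal.ofReal (Es q s) + ENNReal.ofReal (q / s ^ 2 * Es q s)) := by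
    refine setLIntegral_congr_fun measurableSet_Ioi (fun s hs => ?_)
    have hs' : (0 : ℝ) < s := hs
    rw [← ENNReal.ofReal_add (Es_pos q s).le (mul_nonneg (by positivity) (Es_pos q s).le)]
    congr 1
    ring
  rw [h3, lintegral_add_left (measurable_Es q).ennreal_ofReal, ← h2, two_mul]

/-- `2 ∫₀^∞ (q / s²) E ds = e^{-q} c3`. -/
theorem int_Es_inv (q : ℝ) (hq : 0 < q) :
    2 * ∫⁻ s in Set.Ioi (0 : ℝ), ENNReal.ofReal (q / s ^ 2 * Es q s) =
      ENNReal.ofReal (Real.exp (-q)) * c3 := by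
  rw [← int_Es q hq]
  congr 1
  rw [sub_inv q hq (fun s => ENNReal.ofReal (Es q s))]
  refine setLIntegral_congr_fun measurableSet_Ioi (fun s hs => ?_)
  have hs' : (0 : ℝ) < s := hs
  rw [← ENNReal.ofReal_mul (by positivity), Es_inv q s hq hs']

/-- `2 ∫₀^∞ s² E ds = (1 + q) e^{-q} c3`. -/
theorem int_Es_sq (q : ℝ) (hq : 0 < q) :
    2 * ∫⁻ s in Set.Ioi (0 : ℝ), ENNReal.ofReal (s ^ 2 * Es q s) =
      ENNReal.ofReal ((1 + q) * Real.exp (-q)) * c3 := by
  have h1 := glasser_int q hq (fun u => u ^ 2 + q)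
  have h2 : ∫⁻ u : ℝ, ENNReal.ofReal ((u ^ 2 + q) * Real.exp (-(1 / 2) * u ^ 2)) =
      ENNReal.ofReal (1 + q) * c3 := by
    have h3 : ∀ u : ℝ, ENNReal.ofReal ((u ^ 2 + q) * Real.exp (-(1 / 2) * u ^ 2)) =
        ENNReal.ofReal (u ^ 2 * Real.exp (-(1 / 2) * u ^ 2)) +
          ENNReal.ofReal q * ENNReal.ofReal (Real.exp (-(1 / 2) * u ^ 2)) := by
      intro u
      rw [← ENNReal.ofReal_mul hq.le, ← ENNReal.ofReal_add (by positivity) (by positivity)]
      congr 1
      ring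
    simp_rw [h3]
    rw [lintegral_add_left (by fun_prop), lintegral_const_mul' _ _ ENNReal.ofReal_ne_top,
      gauss_two, gauss_zero, ENNReal.ofReal_add zero_le_one hq.le, ENNReal.ofReal_one]
    ring
  rw [h2, ← mul_assoc, ← ENNReal.ofReal_mul (Real.exp_pos _).le, mul_comm (Real.exp (-q))] at h1
  rw [← h1]
  have h4 : ∫⁻ s in Set.Ioi (0 : ℝ), ENNReal.ofReal (s ^ 2 * Es q s) =
      ∫⁻ s in Set.Ioi (0 : ℝ), ENNReal.ofReal (q ^ 3 / s ^ 4 * Es q s) := by
    rw [sub_inv q hq]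
    refine setLIntegral_congr_fun measurableSet_Ioi (fun s hs => ?_)
    have hs' : (0 : ℝ) < s := hs
    rw [← ENNReal.ofReal_mul (by positivity), Es_inv q s hq hs']
    congr 1
    field_simp
  have h3 : ∫⁻ s in Set.Ioi (0 : ℝ), ENNReal.ofReal ((1 + q / s ^ 2) *
        ((s - q / s) ^ 2 + q) * Es q s) =
      ∫⁻ s in Set.Ioi (0 : ℝ),
        (ENNReal.ofReal (s ^ 2 * Es q s) + ENNReal.ofReal (q ^ 3 / s ^ 4 * Es q s)) := by
    refine setLIntegral_congr_fun measurableSet_Ioi (fun s hs => ?_)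
    have hs' : (0 : ℝ) < s := hs
    rw [← ENNReal.ofReal_add (mul_nonneg (by positivity) (Es_pos q s).le)
      (mul_nonneg (by positivity) (Es_pos q s).le)]
    congr 1
    rw [← add_mul]
    congr 1
    field_simp
    ring
  rw [h3, lintegral_add_left (by
    exact ((measurable_id.pow_const 2).mul (measurable_Es q)).ennreal_ofReal), ← h4, two_mul]

theorem Es_sq (q s : ℝ) : Real.exp (-s ^ 2 / 2 - q ^ 2 / (2 * s ^ 2)) = Es q s := rfl

/-- `∫₀^∞ √y e^{-y/2 - q²/(2y)} dy = √(2π) (1 + q) e^{-q}`. -/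
theorem int_half (q : ℝ) (hq : 0 ≤ q) :
    ∫⁻ y in Set.Ioi (0 : ℝ), ENNReal.ofReal (Real.sqrt y * Real.exp (-y / 2 - q ^ 2 / (2 * y))) =
      ENNReal.ofReal ((1 + q) * Real.exp (-q)) * c3 := by
  rcases hq.eq_or_lt with rfl | hq
  · simp [c3]
  · rw [← int_Es_sq q hq, sub_sq, ← lintegral_const_mul' _ _ (by norm_num)]
    refine setLIntegral_congr_fun measurableSet_Ioi (fun s hs => ?_)
    have hs' : (0 : ℝ) < s := hs
    rw [Real.sqrt_sq hs'.le, ← ENNReal.ofReal_mul (by positivity),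
      show (2 : ℝ≥0∞) = ENNReal.ofReal 2 by norm_num, ← ENNReal.ofReal_mul (by norm_num), Es_sq]
    congr 1
    ring

/-- `∫₀^∞ (q / y) √y e^{-y/2 - q²/(2y)} dy = √(2π) q e^{-q}`. -/
theorem int_neg_half (q : ℝ) (hq : 0 ≤ q) :
    ∫⁻ y in Set.Ioi (0 : ℝ), ENNReal.ofReal (q / y) *
      ENNReal.ofReal (Real.sqrt y * Real.exp (-y / 2 - q ^ 2 / (2 * y))) =
      ENNReal.ofReal (q * Real.exp (-q)) * c3 := by
  rcases hq.eq_or_lt with rfl | hq
  · simp
  · rw [ENNReal.ofReal_mul hq.le, mul_assoc, ← int_Es q hq, sub_sq,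
      show (2 : ℝ≥0∞) = ENNReal.ofReal 2 by norm_num, ← mul_assoc, ← ENNReal.ofReal_mul hq.le,
      ← lintegral_const_mul' _ _ ENNReal.ofReal_ne_top]
    refine setLIntegral_congr_fun measurableSet_Ioi (fun s hs => ?_)
    have hs' : (0 : ℝ) < s := hs
    rw [Real.sqrt_sq hs'.le, ← ENNReal.ofReal_mul (by positivity),
      ← ENNReal.ofReal_mul (by positivity), ← ENNReal.ofReal_mul (by positivity), Es_sq]
    congr 1
    field_simp

/-- `∫₀^∞ (q / y)² √y e^{-y/2 - q²/(2y)} dy = √(2π) q e^{-q}`. -/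
theorem int_neg_three_half (q : ℝ) (hq : 0 ≤ q) :
    ∫⁻ y in Set.Ioi (0 : ℝ), ENNReal.ofReal ((q / y) ^ 2) *
      ENNReal.ofReal (Real.sqrt y * Real.exp (-y / 2 - q ^ 2 / (2 * y))) =
      ENNReal.ofReal (q * Real.exp (-q)) * c3 := by
  rcases hq.eq_or_lt with rfl | hq
  · simp
  · rw [ENNReal.ofReal_mul hq.le, mul_assoc, ← int_Es_inv q hq, sub_sq,
      show (2 : ℝ≥0∞) = ENNReal.ofReal 2 by norm_num, ← mul_assoc, ← ENNReal.ofReal_mul hq.le,
      ← lintegral_const_mul' _ _ ENNReal.ofReal_ne_top]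
    refine setLIntegral_congr_fun measurableSet_Ioi (fun s hs => ?_)
    have hs' : (0 : ℝ) < s := hs
    rw [Real.sqrt_sq hs'.le, ← ENNReal.ofReal_mul (by positivity),
      ← ENNReal.ofReal_mul (by positivity), ← ENNReal.ofReal_mul (by positivity), Es_sq]
    congr 1
    field_simp

/-! ### Moments of the chi-square law -/

theorem mom_eq (Φ : ℝ → ℝ≥0∞) :
    mom Φ = (∫⁻ y in Set.Ioi (0 : ℝ), ENNReal.ofReal (Real.sqrt y * Real.exp (-y / 2)) * Φ y) /
      c3 := rfl

theorem mom_one : mom (fun _ => 1) = 1 := by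
  rw [mom_eq]
  simp only [mul_one]
  exact ENNReal.div_self c3_pos c3_lt_top

theorem mom_inv : mom (fun y => ENNReal.ofReal y⁻¹) = 1 := by
  rw [mom_eq]
  have h : ∫⁻ y in Set.Ioi (0 : ℝ), ENNReal.ofReal (Real.sqrt y * Real.exp (-y / 2)) *
      ENNReal.ofReal y⁻¹ = c3 := by
    rw [setLIntegral_congr_fun (g := fun y => ENNReal.ofReal (y ^ ((1 / 2 : ℝ) - 1) *
      Real.exp (-(1 / 2 * y)))) measurableSet_Ioi (fun y hy => ?_)]
    · rw [lint_gamma _ (by norm_num), Real.Gamma_one_half_eq, ← Real.sqrt_eq_rpow, c3_eq,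
        Real.sqrt_mul (by norm_num)]
    · have hy' : (0 : ℝ) < y := hy
      simp only
      rw [← ENNReal.ofReal_mul (by positivity), sqrt_mul_exp_eq y]
      congr 1
      rw [mul_right_comm]
      congr 1
      rw [← Real.rpow_neg_one y, ← Real.rpow_add hy']
      norm_num
  rw [h]
  exact ENNReal.div_self c3_pos c3_lt_top

theorem mom_pow_num (k : ℕ) :
    ∫⁻ y in Set.Ioi (0 : ℝ), ENNReal.ofReal (Real.sqrt y * Real.exp (-y / 2)) *
      ENNReal.ofReal (y ^ k) = ENNReal.ofReal (2 ^ (3 / 2 + k : ℝ) * Real.Gamma (3 / 2 + k)) := by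
  rw [← lint_gamma _ (by positivity)]
  refine setLIntegral_congr_fun measurableSet_Ioi (fun y hy => ?_)
  have hy' : (0 : ℝ) < y := hy
  rw [← ENNReal.ofReal_mul (by positivity), sqrt_mul_exp_eq y, mul_right_comm]
  congr 2
  rw [← Real.rpow_natCast, ← Real.rpow_add hy']
  congr 1
  ring

theorem mom_pow_ne_top (k : ℕ) : mom (fun y => ENNReal.ofReal (y ^ k)) ≠ ⊤ := by
  rw [mom_eq, mom_pow_num]
  exact ENNReal.div_ne_top ENNReal.ofReal_ne_top c3_pos

theorem mom_pow_ne_zero (k : ℕ) : mom (fun y => ENNReal.ofReal (y ^ k)) ≠ 0 := by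
  rw [mom_eq, mom_pow_num]
  refine (ENNReal.div_pos ?_ c3_lt_top).ne'
  simp only [ne_eq, ENNReal.ofReal_eq_zero, not_le]
  have : 0 < Real.Gamma (3 / 2 + k) := Real.Gamma_pos_of_pos (by positivity)
  positivity

/-- Tail bound by the sixth moment. -/
theorem mom_tail (u : ℝ) (hu : 0 < u) :
    mom (fun y => if u ≤ y then 1 else 0) ≤
      mom (fun y => ENNReal.ofReal (y ^ 6)) / ENNReal.ofReal (u ^ 6) := by
  have hu6 : ENNReal.ofReal (u ^ 6) ≠ 0 := by
    simp only [ne_eq, ENNReal.ofReal_eq_zero, not_le]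
    positivity
  rw [ENNReal.le_div_iff_mul_le (Or.inl hu6) (Or.inl ENNReal.ofReal_ne_top), mom_eq, mom_eq,
    ← ENNReal.mul_div_right_comm]
  refine ENNReal.div_le_div_right ?_ _
  rw [← lintegral_mul_const' _ _ ENNReal.ofReal_ne_top]
  refine setLIntegral_mono' measurableSet_Ioi (fun y hy => ?_)
  rw [mul_assoc]
  gcongr
  split_ifs with h
  · rw [one_mul]
    exact ENNReal.ofReal_le_ofReal (pow_le_pow_left₀ hu.le h 6)
  · simp

/-- Affine change of variables `y = 2 s - k`. -/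
theorem lint_affine (k : ℝ) (f : ℝ → ℝ≥0∞) :
    ∫⁻ s : ℝ, f (2 * s - k) = (∫⁻ y : ℝ, f y) / 2 := by
  have himg : (fun s : ℝ => 2 * s - k) '' Set.univ = Set.univ := by
    rw [Set.image_univ, Set.range_eq_univ]
    intro y
    exact ⟨(y + k) / 2, by ring⟩
  have hinj : Set.InjOn (fun s : ℝ => 2 * s - k) Set.univ := by
    intro s _ t _ hst
    simp only at hst
    linarith
  have h := lintegral_image_eq_lintegral_abs_deriv_mul (s := Set.univ)
    (f := fun s : ℝ => 2 * s - k) (f' := fun _ => 2) MeasurableSet.univ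
    (fun s _ => by
      have := ((hasDerivAt_id s).const_mul 2).sub_const k
      rw [mul_one] at this
      exact this.hasDerivWithinAt) hinj f
  rw [himg, Measure.restrict_univ] at h
  rw [h]
  simp only [abs_two, ENNReal.ofReal_ofNat]
  rw [lintegral_const_mul' _ _ (by norm_num), mul_comm, ENNReal.mul_div_cancel_right (by norm_num)
    (by norm_num)]

/-- The isolated vertex integral in the variable `s = y / 2`. -/
theorem int_half_s :
    ∫⁻ s in Set.Ioi (0 : ℝ), ENNReal.ofReal (Real.sqrt (2 * s) * Real.exp (-s)) = c3 / 2 := by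
  have h := lint_affine 0 (Set.indicator (Set.Ioi 0)
    (fun y => ENNReal.ofReal (Real.sqrt y * Real.exp (-y / 2))))
  rw [lintegral_indicator measurableSet_Ioi] at h
  unfold c3
  rw [← h, ← lintegral_indicator measurableSet_Ioi]
  refine lintegral_congr (fun s => ?_)
  by_cases hs : 0 < s
  · rw [Set.indicator_of_mem (Set.mem_Ioi.2 hs), Set.indicator_of_mem (Set.mem_Ioi.2 (by linarith))]
    congr 3
    · ring
    · ring
  · rw [Set.indicator_of_notMem (by simpa using hs), Set.indicator_of_notMem (by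
      simp only [Set.mem_Ioi, not_lt]
      linarith)]

end Pool.Agent.Lib.Arb
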