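import Pool.Agent.Lib.Arb.ElimBlock
import Pool.Agent.Lib.Arb.OneD

/-!
# Module C: elimination of one vertex
-/

set_option autoImplicit false
set_option linter.unusedSectionVars false
set_option linter.unusedVariables false
set_option linter.unusedSimpArgs false

open MeasureTheory Matrix
open scoped ENNReal

namespace Pool.Agent.Lib.Arb

variable {V : Type} [Fintype V] [DecidableEq V] {W : Matrix V V ℝ}

/-! ### measurability of the iso part -/

theorem measurable_QQ (W : Matrix V V ℝ) (η : V → ℝ) (b : V) :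
    Measurable fun φ : V → ℝ => QQ W η b φ := by
  unfold QQ
  refine measurable_const.add ?_
  refine Finset.measurable_sum _ fun a _ => Finset.measurable_sum _ fun c _ => ?_
  exact (measurable_const.mul (measurable_Gr _ _ _)).mul_const _

/-! ### the common factor -/

/-- The part of the density that does not depend on the eliminated variable. -/
noncomputable def AA (W : Matrix V V ℝ) (b : V) (η φ : V → ℝ) : ℝ :=
  Real.exp (-(∑ a ∈ Finset.univ.erase b, φ a) + (∑ a, ∑ c, iso b W a c) / 2 + ∑ a, W b a -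
    (Function.update η b 0 ⬝ᵥ SS W b φ (Function.update η b 0)) / 2 +
      ∑ a, Function.update η b 0 a - kk W b φ / 2) *
    Real.sqrt ((Hm (iso b W) (Function.update φ b 1)).det / 2)

theorem AA_nonneg (W : Matrix V V ℝ) (b : V) (η φ : V → ℝ) : 0 ≤ AA W b η φ := by
  unfold AA; positivity

theorem sum_update (b : V) (φ : V → ℝ) (t : ℝ) :
    ∑ a, Function.update φ b t a = t + ∑ a ∈ Finset.univ.erase b, φ a := by
  rw [← Finset.add_sum_erase _ _ (Finset.mem_univ b), Function.update_self]
  congr 1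
  refine Finset.sum_congr rfl fun a ha => ?_
  rw [Function.update_of_ne (Finset.ne_of_mem_erase ha)]

theorem sum_W (hW : IsWt W) (b : V) :
    ∑ a, ∑ c, W a c = ∑ a, ∑ c, iso b W a c + 2 * ∑ a, W b a := by
  have h : ∀ a c, W a c = iso b W a c + (if a = b then W b c else 0) +
      (if c = b then W b a else 0) := by
    intro a c
    by_cases ha : a = b
    · subst ha
      by_cases hc : c = a
      · subst hc; simp [iso_row, hW.diag]
      · simp [iso_row, hc]
    · by_cases hc : c = b
      · subst hc; simp [iso_col, ha, hW.symm a c]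
      · simp [iso_of_ne b a c ha hc, ha, hc]
  calc ∑ a, ∑ c, W a c = ∑ a, ∑ c, (iso b W a c + (if a = b then W b c else 0) +
      (if c = b then W b a else 0)) :=
        Finset.sum_congr rfl fun a _ => Finset.sum_congr rfl fun c _ => h a c
    _ = _ := by
        simp only [Finset.sum_add_distrib]
        have h1 : ∑ x, ∑ c, (if x = b then W b c else 0) = ∑ a, W b a := by
          rw [Finset.sum_comm]
          simp
        have h2 : ∑ x, ∑ c, (if c = b then W b x else 0) = ∑ a, W b a := by simp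
        rw [h1, h2]
        ring

section main

variable (hW : IsWt W) (b : V) (η φ : V → ℝ)
  (hK : (Hm (iso b W) (Function.update φ b 1)).PosDef)

include hW hK in
theorem dens_update (t : ℝ) :
    dens W η (Function.update φ b t) =
      ENNReal.ofReal (AA W b η φ * Real.exp (η b)) *
        (Set.Ioi (0 : ℝ)).indicator (fun y => ENNReal.ofReal (Real.sqrt y *
          Real.exp (-y / 2 - qq W b η φ ^ 2 / (2 * y)))) (2 * t - kk W b φ) := by
  by_cases ht : 0 < 2 * t - kk W b φ
  · rw [Set.indicator_of_mem (Set.mem_Ioi.mpr ht)]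
    unfold dens
    rw [if_pos ((posDef_update_iff hW b φ hK t).mpr ht), ← ENNReal.ofReal_mul
      (mul_nonneg (AA_nonneg _ _ _ _) (Real.exp_pos _).le)]
    congr 1
    rw [quad_Gr hW b φ hK η t ht, det_Hm_update hW b φ hK t, sum_update, sum_W hW b,
      Real.sqrt_mul ht.le]
    have hη : ∑ a, η a = η b + ∑ a, Function.update η b 0 a := by
      rw [sum_update, zero_add, Finset.add_sum_erase _ _ (Finset.mem_univ b)]
    rw [hη]
    unfold AA
    set y := 2 * t - kk W b φ with hy
    have ht' : t = y / 2 + kk W b φ / 2 := by rw [hy]; ring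
    have hE : -(t + ∑ a ∈ Finset.univ.erase b, φ a) +
          (∑ a, ∑ c, iso b W a c + 2 * ∑ a, W b a) / 2 -
        (Function.update η b 0 ⬝ᵥ SS W b φ (Function.update η b 0) + qq W b η φ ^ 2 / y) / 2 +
        (η b + ∑ a, Function.update η b 0 a) =
      (-(∑ a ∈ Finset.univ.erase b, φ a) + (∑ a, ∑ c, iso b W a c) / 2 + ∑ a, W b a -
        (Function.update η b 0 ⬝ᵥ SS W b φ (Function.update η b 0)) / 2 +
        ∑ a, Function.update η b 0 a - kk W b φ / 2) + η b +
        (-y / 2 - qq W b η φ ^ 2 / (2 * y)) := by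
      have hy0 : y ≠ 0 := ht.ne'
      have h1 : qq W b η φ ^ 2 / (2 * y) = (qq W b η φ ^ 2 / y) / 2 := by field_simp
      rw [h1, ht']
      ring
    rw [hE, Real.exp_add, Real.exp_add]
    ring
  · rw [Set.indicator_of_notMem (by simpa using ht), mul_zero]
    unfold dens
    rw [if_neg]
    rw [posDef_update_iff hW b φ hK t]
    exact ht

include hW hK in
theorem dens_iso_update (s : ℝ) :
    dens (iso b W) (Function.update η b 0 + W b) (Function.update φ b s) =
      ENNReal.ofReal (AA W b η φ * Real.exp (η b - qq W b η φ)) *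
        (Set.Ioi (0 : ℝ)).indicator (fun s => ENNReal.ofReal (Real.sqrt (2 * s) *
          Real.exp (-s))) s := by
  by_cases hs : 0 < s
  · rw [Set.indicator_of_mem (Set.mem_Ioi.mpr hs)]
    unfold dens
    rw [if_pos ((posDef_iso_iff hW b φ s).mpr ⟨hs, hK⟩), ← ENNReal.ofReal_mul
      (mul_nonneg (AA_nonneg _ _ _ _) (Real.exp_pos _).le)]
    congr 1
    set η' := Function.update η b 0 with hη'
    have hη'b : η' b = 0 := by simp [hη']
    have hζb : (η' + W b) b = 0 := by simp [hη'b, hW.diag]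
    have h1 : ∑ a, ∑ c, (η' + W b) a * Gr (iso b W) (Function.update φ b s) a c * (η' + W b) c =
        η' ⬝ᵥ SS W b φ η' + 2 * (W b ⬝ᵥ SS W b φ η') + kk W b φ := by
      have h2 : ∑ a, ∑ c, (η' + W b) a * Gr (iso b W) (Function.update φ b s) a c * (η' + W b) c =
          (η' + W b) ⬝ᵥ (Gr (iso b W) (Function.update φ b s)).mulVec (η' + W b) := by
        simp only [dotProduct, Matrix.mulVec, Finset.mul_sum]
        exact Finset.sum_congr rfl fun a _ => Finset.sum_congr rfl fun c _ => by ring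
      rw [h2, Gr_iso_mulVec b φ hK _ hζb s hs hW]
      have h3 : SS W b φ (η' + W b) = SS W b φ η' + SS W b φ (W b) := by
        unfold SS; rw [Matrix.mulVec_add]
      rw [h3, dotProduct_add, add_dotProduct, add_dotProduct, SS_symm hW b φ hK η' (W b), kk]
      ring
    have h4 : W b ⬝ᵥ SS W b φ η' = qq W b η φ - η b := by rw [qq]; ring
    rw [h1, h4, det_iso_update, sum_update]
    have h5 : ∑ a, (η' + W b) a = ∑ a, η' a + ∑ a, W b a := by
      simp [Finset.sum_add_distrib]
    rw [h5]
    unfold AA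
    have h6 : s * (Hm (iso b W) (Function.update φ b 1)).det =
        (2 * s) * ((Hm (iso b W) (Function.update φ b 1)).det / 2) := by ring
    rw [h6, Real.sqrt_mul (by linarith : (0:ℝ) ≤ 2 * s)]
    rw [show ∀ u v r s p : ℝ, u * v * r * (s * p) = (u * r * p) * (s * v) from
      fun u v r s p => by ring, ← Real.exp_add, ← Real.exp_add]
    congr 2
    rw [← hη']
    ring
  · rw [Set.indicator_of_notMem (by simpa using hs), mul_zero]
    unfold dens
    rw [if_neg]
    rw [posDef_iso_iff hW b φ]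
    exact fun h => hs h.1

include hW hK in
theorem elim_fiber (Ψ : ℝ → ℝ → ℝ≥0∞) (hΨ : Measurable fun p : ℝ × ℝ => Ψ p.1 p.2) :
    ∫⁻ t : ℝ, Ψ (Gr W (Function.update φ b t) b b)⁻¹ (QQ W η b (Function.update φ b t)) *
        dens W η (Function.update φ b t) =
      ∫⁻ s : ℝ, (ENNReal.ofReal (Real.exp (QQ W η b (Function.update φ b s))) *
        (∫⁻ y in Set.Ioi (0 : ℝ), Ψ y (QQ W η b (Function.update φ b s)) *
          ENNReal.ofReal (Real.sqrt y *
            Real.exp (-y / 2 - QQ W η b (Function.update φ b s) ^ 2 / (2 * y)))) / c3) *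
        dens (iso b W) (Function.update η b 0 + W b) (Function.update φ b s) := by
  set q := qq W b η φ with hq
  set J := ∫⁻ y in Set.Ioi (0 : ℝ), Ψ y q *
          ENNReal.ofReal (Real.sqrt y * Real.exp (-y / 2 - q ^ 2 / (2 * y))) with hJ
  have hl : ∀ t : ℝ, Ψ (Gr W (Function.update φ b t) b b)⁻¹ (QQ W η b (Function.update φ b t)) *
        dens W η (Function.update φ b t) =
      ENNReal.ofReal (AA W b η φ * Real.exp (η b)) * (Set.Ioi (0 : ℝ)).indicator (fun y =>
        Ψ y q * ENNReal.ofReal (Real.sqrt y * Real.exp (-y / 2 - q ^ 2 / (2 * y))))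
          (2 * t - kk W b φ) := by
    intro t
    rw [dens_update hW b η φ hK t]
    by_cases ht : 0 < 2 * t - kk W b φ
    · rw [Set.indicator_of_mem (Set.mem_Ioi.mpr ht), Set.indicator_of_mem (Set.mem_Ioi.mpr ht),
        Gr_bb hW b φ hK t ht]
      have ht0 : 0 < t := by
        have := kk_nonneg hW b φ hK
        linarith
      rw [QQ_update b φ hK hW η t ht0, ← hq]
      ring
    · rw [Set.indicator_of_notMem (by simpa using ht), Set.indicator_of_notMem (by simpa using ht)]
      simp
  have hr : ∀ s : ℝ, (ENNReal.ofReal (Real.exp (QQ W η b (Function.update φ b s))) *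
        (∫⁻ y in Set.Ioi (0 : ℝ), Ψ y (QQ W η b (Function.update φ b s)) *
          ENNReal.ofReal (Real.sqrt y *
            Real.exp (-y / 2 - QQ W η b (Function.update φ b s) ^ 2 / (2 * y)))) / c3) *
        dens (iso b W) (Function.update η b 0 + W b) (Function.update φ b s) =
      ENNReal.ofReal (Real.exp q) * J / c3 *
        ENNReal.ofReal (AA W b η φ * Real.exp (η b - q)) *
        (Set.Ioi (0 : ℝ)).indicator (fun s => ENNReal.ofReal (Real.sqrt (2 * s) *
          Real.exp (-s))) s := by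
    intro s
    rw [dens_iso_update hW b η φ hK s]
    by_cases hs : 0 < s
    · rw [QQ_update b φ hK hW η s hs, ← hq, ← hJ]
      ring
    · rw [Set.indicator_of_notMem (by simpa using hs)]
      simp
  simp only [hl, hr]
  have hm1 : Measurable fun y : ℝ => Ψ y q *
      ENNReal.ofReal (Real.sqrt y * Real.exp (-y / 2 - q ^ 2 / (2 * y))) := by
    refine (hΨ.comp (measurable_id.prodMk measurable_const)).mul ?_
    exact ENNReal.measurable_ofReal.comp (by fun_prop)
  have hm2 : Measurable fun s : ℝ => ENNReal.ofReal (Real.sqrt (2 * s) * Real.exp (-s)) :=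
    ENNReal.measurable_ofReal.comp (by fun_prop)
  rw [lintegral_const_mul _ (by
    exact (hm1.indicator measurableSet_Ioi).comp (by fun_prop : Measurable fun t : ℝ => 2 * t - kk W b φ)),
    lintegral_const_mul _ (hm2.indicator measurableSet_Ioi), lintegral_indicator measurableSet_Ioi,
    int_half_s]
  have h1 := lint_affine (kk W b φ) ((Set.Ioi (0 : ℝ)).indicator (fun y =>
        Ψ y q * ENNReal.ofReal (Real.sqrt y * Real.exp (-y / 2 - q ^ 2 / (2 * y)))))
  rw [h1, lintegral_indicator measurableSet_Ioi, ← hJ]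
  have h2 : ENNReal.ofReal (AA W b η φ * Real.exp (η b)) =
      ENNReal.ofReal (Real.exp q) * ENNReal.ofReal (AA W b η φ * Real.exp (η b - q)) := by
    rw [← ENNReal.ofReal_mul (Real.exp_pos _).le]
    congr 1
    rw [show Real.exp q * (AA W b η φ * Real.exp (η b - q)) =
      AA W b η φ * (Real.exp q * Real.exp (η b - q)) by ring, ← Real.exp_add]
    congr 2
    ring
  rw [h2]
  have h3 : c3 / c3 = 1 := ENNReal.div_self c3_pos c3_lt_top
  calc _ = ENNReal.ofReal (Real.exp q) * J * ENNReal.ofReal (AA W b η φ * Real.exp (η b - q)) / 2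
        * (c3 / c3) := by rw [h3]; simp only [div_eq_mul_inv]; ring
    _ = _ := by simp only [div_eq_mul_inv]; ring

end main

/-- General elimination formula. -/
theorem lint_elim_gen (hW : IsWt W) (b : V) (η : V → ℝ)
    (F : (V → ℝ) → ℝ≥0∞) (hF : Measurable F) (hFb : ∀ φ s, F (Function.update φ b s) = F φ)
    (Ψ : ℝ → ℝ → ℝ≥0∞) (hΨ : Measurable fun p : ℝ × ℝ => Ψ p.1 p.2) :
    ∫⁻ φ : V → ℝ, F φ * Ψ (Gr W φ b b)⁻¹ (QQ W η b φ) * dens W η φ =
      ∫⁻ φ : V → ℝ, F φ * (ENNReal.ofReal (Real.exp (QQ W η b φ)) *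
        (∫⁻ y in Set.Ioi (0 : ℝ), Ψ y (QQ W η b φ) *
          ENNReal.ofReal (Real.sqrt y * Real.exp (-y / 2 - QQ W η b φ ^ 2 / (2 * y)))) / c3) *
        dens (iso b W) (Function.update η b 0 + W b) φ := by
  have hmQ := measurable_QQ W η b
  have hm1 : Measurable fun φ : V → ℝ =>
      F φ * Ψ (Gr W φ b b)⁻¹ (QQ W η b φ) * dens W η φ := by
    refine (hF.mul ?_).mul (measurable_dens W η)
    exact hΨ.comp ((measurable_Gr W b b).inv.prodMk hmQ)
  have hinner : Measurable fun q : ℝ => ∫⁻ y in Set.Ioi (0 : ℝ), Ψ y q *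
          ENNReal.ofReal (Real.sqrt y * Real.exp (-y / 2 - q ^ 2 / (2 * y))) := by
    refine Measurable.lintegral_prod_left' (f := fun p : ℝ × ℝ => Ψ p.1 p.2 *
      ENNReal.ofReal (Real.sqrt p.1 * Real.exp (-p.1 / 2 - p.2 ^ 2 / (2 * p.1)))) ?_
    refine hΨ.mul ?_
    exact ENNReal.measurable_ofReal.comp (by fun_prop)
  have hm2 : Measurable fun φ : V → ℝ => F φ * (ENNReal.ofReal (Real.exp (QQ W η b φ)) *
        (∫⁻ y in Set.Ioi (0 : ℝ), Ψ y (QQ W η b φ) *
          ENNReal.ofReal (Real.sqrt y * Real.exp (-y / 2 - QQ W η b φ ^ 2 / (2 * y)))) / c3) *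
        dens (iso b W) (Function.update η b 0 + W b) φ := by
    refine (hF.mul ?_).mul (measurable_dens _ _)
    refine Measurable.div_const (Measurable.mul ?_ (hinner.comp hmQ)) _
    exact ENNReal.measurable_ofReal.comp (Real.measurable_exp.comp hmQ)
  refine lintegral_eq_of_lmarginal_eq (μ := fun _ => volume) {b} hm1 hm2 ?_
  rw [lmarginal_singleton, lmarginal_singleton]
  ext φ
  simp only [hFb]
  by_cases hK : (Hm (iso b W) (Function.update φ b 1)).PosDef
  · have hmu : Measurable fun t : ℝ => Function.update φ b t := measurable_update φ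
    have e1 : ∀ t : ℝ, F φ * Ψ (Gr W (Function.update φ b t) b b)⁻¹
        (QQ W η b (Function.update φ b t)) * dens W η (Function.update φ b t) =
        F φ * (Ψ (Gr W (Function.update φ b t) b b)⁻¹
        (QQ W η b (Function.update φ b t)) * dens W η (Function.update φ b t)) := fun t => by ring
    have e2 : ∀ s : ℝ, F φ * (ENNReal.ofReal (Real.exp (QQ W η b (Function.update φ b s))) *
        (∫⁻ y in Set.Ioi (0 : ℝ), Ψ y (QQ W η b (Function.update φ b s)) *
          ENNReal.ofReal (Real.sqrt y *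
            Real.exp (-y / 2 - QQ W η b (Function.update φ b s) ^ 2 / (2 * y)))) / c3) *
        dens (iso b W) (Function.update η b 0 + W b) (Function.update φ b s) =
        F φ * ((ENNReal.ofReal (Real.exp (QQ W η b (Function.update φ b s))) *
        (∫⁻ y in Set.Ioi (0 : ℝ), Ψ y (QQ W η b (Function.update φ b s)) *
          ENNReal.ofReal (Real.sqrt y *
            Real.exp (-y / 2 - QQ W η b (Function.update φ b s) ^ 2 / (2 * y)))) / c3) *
        dens (iso b W) (Function.update η b 0 + W b) (Function.update φ b s)) :=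
      fun s => by ring
    simp only [e1, e2]
    rw [lintegral_const_mul, lintegral_const_mul]
    · exact congrArg _ (elim_fiber hW b η φ hK Ψ hΨ)
    · refine Measurable.mul ?_ ((measurable_dens _ _).comp hmu)
      refine Measurable.div_const (Measurable.mul ?_ (hinner.comp (hmQ.comp hmu))) _
      exact ENNReal.measurable_ofReal.comp (Real.measurable_exp.comp (hmQ.comp hmu))
    · refine Measurable.mul ?_ ((measurable_dens _ _).comp hmu)
      exact hΨ.comp (((measurable_Gr W b b).comp hmu).inv.prodMk (hmQ.comp hmu))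
  · have e1 : ∀ t : ℝ, dens W η (Function.update φ b t) = 0 := by
      intro t
      unfold dens
      rw [if_neg]
      exact fun h => hK (posDef_iso_of_posDef hW b φ 1 t one_pos h)
    have e2 : ∀ s : ℝ, dens (iso b W) (Function.update η b 0 + W b) (Function.update φ b s) = 0 := by
      intro s
      unfold dens
      rw [if_neg]
      exact fun h => hK ((posDef_iso_iff hW b φ s).mp h).2
    simp [e1, e2]

/-- `QQ ≥ 0`. -/
theorem QQ_nonneg (hW : IsWt W) (b : V) (η : V → ℝ) (hη : ∀ a, 0 ≤ η a) (φ : V → ℝ)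
    (hφ : (Hm (iso b W) φ).PosDef) : 0 ≤ QQ W η b φ := by
  unfold QQ
  refine add_nonneg (hη b) (Finset.sum_nonneg fun a _ => Finset.sum_nonneg fun c _ => ?_)
  refine mul_nonneg (mul_nonneg (hW.nonneg _ _) (Gr_nonneg (hW.iso b) hφ a c)) ?_
  by_cases hc : c = b
  · subst hc; simp
  · rw [Function.update_of_ne hc]; exact hη c

/-- The vector `G η` at `b`. -/
theorem Gr_eta (hW : IsWt W) (b : V) (η φ : V → ℝ) (hφ : (Hm W φ).PosDef) :
    ∑ c, Gr W φ b c * η c = QQ W η b φ * Gr W φ b b := by
  have hupd : Function.update φ b (φ b) = φ := Function.update_eq_self b φ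
  have hK : (Hm (iso b W) (Function.update φ b 1)).PosDef :=
    posDef_iso_of_posDef hW b φ 1 (φ b) one_pos (by rw [hupd]; exact hφ)
  have ht : 0 < 2 * φ b - kk W b φ := by
    rw [← posDef_update_iff hW b φ hK (φ b), hupd]; exact hφ
  have h := congrFun (Gr_mulVec hW b φ hK η (φ b) ht) b
  have h2 := Gr_bb hW b φ hK (φ b) ht
  rw [hupd] at h h2
  have hz : SS W b φ (W b) b = 0 := SS_b b φ hK (W b) (hW.diag b)
  have hz2 : SS W b φ (Function.update η b 0) b = 0 := SS_b b φ hK _ (by simp)
  have hq : QQ W η b φ = qq W b η φ := by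
    have hpos : 0 < φ b := by
      have := kk_nonneg hW b φ hK
      linarith
    have := QQ_update b φ hK hW η (φ b) hpos
    rwa [hupd] at this
  have h3 : Gr W φ b b = (2 * φ b - kk W b φ)⁻¹ := by rw [← h2, inv_inv]
  rw [hq, h3]
  simp only [Pi.add_apply, Pi.smul_apply, hz, hz2, smul_eq_mul, Pi.single_eq_same, zero_add,
    mul_one] at h
  rw [← div_eq_mul_inv, ← h]
  rfl

theorem mul_dens_congr (W : Matrix V V ℝ) (η φ : V → ℝ) {x y : ℝ≥0∞}
    (h : (Hm W φ).PosDef → x = y) : x * dens W η φ = y * dens W η φ := by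
  by_cases hφ : (Hm W φ).PosDef
  · rw [h hφ]
  · unfold dens
    rw [if_neg hφ, mul_zero, mul_zero]

theorem lint_elim (hW : IsWt W) (b : V) (η : V → ℝ) (hη : ∀ a, 0 ≤ η a)
    (F : (V → ℝ) → ℝ≥0∞) (hF : Measurable F) (hFb : ∀ φ s, F (Function.update φ b s) = F φ) :
    ∫⁻ φ : V → ℝ, F φ * dens W η φ =
      ∫⁻ φ : V → ℝ, F φ * ENNReal.ofReal (1 + QQ W η b φ) *
        dens (iso b W) (Function.update η b 0 + W b) φ := by
  have h := lint_elim_gen hW b η F hF hFb (fun _ _ => 1) measurable_const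
  simp only [mul_one, one_mul] at h
  rw [h]
  refine lintegral_congr fun φ => ?_
  refine mul_dens_congr _ _ _ fun hφ => ?_
  congr 1
  have hq := QQ_nonneg hW b η hη φ hφ
  rw [int_half _ hq, ← mul_assoc, ← ENNReal.ofReal_mul (Real.exp_pos _).le, mul_div_assoc,
    ENNReal.div_self c3_pos c3_lt_top, mul_one]
  congr 1
  rw [show Real.exp (QQ W η b φ) * ((1 + QQ W η b φ) * Real.exp (-QQ W η b φ)) =
    (1 + QQ W η b φ) * (Real.exp (QQ W η b φ) * Real.exp (-QQ W η b φ)) by ring, ← Real.exp_add]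
  simp

theorem lint_elim2 (hW : IsWt W) (b : V) (η : V → ℝ) (hη : ∀ a, 0 ≤ η a)
    (F : (V → ℝ) → ℝ≥0∞) (hF : Measurable F) (hFb : ∀ φ s, F (Function.update φ b s) = F φ) :
    ∫⁻ φ : V → ℝ, F φ * ENNReal.ofReal (∑ c, Gr W φ b c * η c) * dens W η φ =
      ∫⁻ φ : V → ℝ, F φ * ENNReal.ofReal (QQ W η b φ) *
        dens (iso b W) (Function.update η b 0 + W b) φ := by
  have h := lint_elim_gen hW b η F hF hFb (fun y q => ENNReal.ofReal (q / y))
    (ENNReal.measurable_ofReal.comp (measurable_snd.div measurable_fst))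
  have h1 : ∫⁻ φ : V → ℝ, F φ * ENNReal.ofReal (∑ c, Gr W φ b c * η c) * dens W η φ =
      ∫⁻ φ : V → ℝ, F φ * ENNReal.ofReal (QQ W η b φ / (Gr W φ b b)⁻¹) * dens W η φ := by
    refine lintegral_congr fun φ => ?_
    refine mul_dens_congr _ _ _ fun hφ => ?_
    rw [Gr_eta hW b η φ hφ, div_inv_eq_mul]
  rw [h1, h]
  refine lintegral_congr fun φ => ?_
  refine mul_dens_congr _ _ _ fun hφ => ?_
  congr 1
  have hq := QQ_nonneg hW b η hη φ hφ
  rw [int_neg_half _ hq, ← mul_assoc, ← ENNReal.ofReal_mul (Real.exp_pos _).le, mul_div_assoc,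
    ENNReal.div_self c3_pos c3_lt_top, mul_one]
  congr 1
  rw [show Real.exp (QQ W η b φ) * (QQ W η b φ * Real.exp (-QQ W η b φ)) =
    QQ W η b φ * (Real.exp (QQ W η b φ) * Real.exp (-QQ W η b φ)) by ring, ← Real.exp_add]
  simp

theorem lint_elim3 (hW : IsWt W) (b : V) (η : V → ℝ) (hη : ∀ a, 0 ≤ η a)
    (F : (V → ℝ) → ℝ≥0∞) (hF : Measurable F) (hFb : ∀ φ s, F (Function.update φ b s) = F φ) :
    ∫⁻ φ : V → ℝ, F φ * ENNReal.ofReal ((∑ c, Gr W φ b c * η c) ^ 2) * dens W η φ =
      ∫⁻ φ : V → ℝ, F φ * ENNReal.ofReal (QQ W η b φ) *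
        dens (iso b W) (Function.update η b 0 + W b) φ := by
  have h := lint_elim_gen hW b η F hF hFb (fun y q => ENNReal.ofReal ((q / y) ^ 2))
    (ENNReal.measurable_ofReal.comp ((measurable_snd.div measurable_fst).pow_const 2))
  have h1 : ∫⁻ φ : V → ℝ, F φ * ENNReal.ofReal ((∑ c, Gr W φ b c * η c) ^ 2) * dens W η φ =
      ∫⁻ φ : V → ℝ, F φ * ENNReal.ofReal ((QQ W η b φ / (Gr W φ b b)⁻¹) ^ 2) * dens W η φ := by
    refine lintegral_congr fun φ => ?_
    refine mul_dens_congr _ _ _ fun hφ => ?_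
    rw [Gr_eta hW b η φ hφ, div_inv_eq_mul]
  rw [h1, h]
  refine lintegral_congr fun φ => ?_
  refine mul_dens_congr _ _ _ fun hφ => ?_
  congr 1
  have hq := QQ_nonneg hW b η hη φ hφ
  rw [int_neg_three_half _ hq, ← mul_assoc, ← ENNReal.ofReal_mul (Real.exp_pos _).le,
    mul_div_assoc, ENNReal.div_self c3_pos c3_lt_top, mul_one]
  congr 1
  rw [show Real.exp (QQ W η b φ) * (QQ W η b φ * Real.exp (-QQ W η b φ)) =
    QQ W η b φ * (Real.exp (QQ W η b φ) * Real.exp (-QQ W η b φ)) by ring, ← Real.exp_add]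
  simp

/-- `1 / G b b` is chi-square with three degrees of freedom and independent of everything that
does not depend on `φ b`. -/
theorem lint_indep (hW : IsWt W) (b : V) (F : (V → ℝ) → ℝ≥0∞) (hF : Measurable F)
    (hFb : ∀ φ s, F (Function.update φ b s) = F φ) (Φ : ℝ → ℝ≥0∞) (hΦ : Measurable Φ) :
    ∫⁻ φ : V → ℝ, F φ * Φ (Gr W φ b b)⁻¹ * dens W 0 φ =
      mom Φ * ∫⁻ φ : V → ℝ, F φ * dens W 0 φ := by
  have h0 : ∀ φ : V → ℝ, QQ W 0 b φ = 0 := by
    intro φ
    have : Function.update (0 : V → ℝ) b 0 = 0 := by simp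
    unfold QQ
    rw [this]
    simp
  have h := lint_elim_gen hW b 0 F hF hFb (fun y _ => Φ y) (hΦ.comp measurable_fst)
  have h2 := lint_elim hW b 0 (fun _ => le_rfl) F hF hFb
  rw [h, h2]
  rw [← lintegral_const_mul _ (by
    refine (hF.mul ?_).mul (measurable_dens _ _)
    exact ENNReal.measurable_ofReal.comp (measurable_const.add (measurable_QQ W 0 b)))]
  refine lintegral_congr fun φ => ?_
  rw [h0]
  have h3 : (∫⁻ y in Set.Ioi (0 : ℝ), Φ y *
      ENNReal.ofReal (Real.sqrt y * Real.exp (-y / 2 - 0 ^ 2 / (2 * y)))) / c3 = mom Φ := by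
    unfold mom c3
    congr 1
    refine setLIntegral_congr_fun measurableSet_Ioi fun y hy => ?_
    rw [mul_comm]
    simp
  simp only [Real.exp_zero, ENNReal.ofReal_one, one_mul, h3, add_zero, mul_one]
  ring

end Pool.Agent.Lib.Arb
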