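import Pool.Agent.Lib.Arb.LinAlg

/-!
# Module C, part 1: block structure after isolating one vertex
-/

set_option autoImplicit false
set_option linter.unusedSectionVars false
set_option linter.unusedVariables false
set_option linter.unusedSimpArgs false

open MeasureTheory Matrix
open scoped ENNReal

namespace Pool.Agent.Lib.Arb

variable {V : Type} [Fintype V] [DecidableEq V] {W : Matrix V V ℝ}

theorem Hm_apply (W : Matrix V V ℝ) (φ : V → ℝ) (a c : V) :
    Hm W φ a c = (if a = c then 2 * φ a else 0) - W a c := by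
  simp [Hm, Matrix.diagonal_apply]

theorem IsWt.iso (hW : IsWt W) (b : V) : IsWt (iso b W) where
  symm a c := by
    unfold Arb.iso
    by_cases ha : a = b <;> by_cases hc : c = b <;> simp [ha, hc, hW.symm a c]
  nonneg a c := by
    unfold Arb.iso
    split_ifs
    · exact le_rfl
    · exact hW.nonneg a c
  diag a := by
    unfold Arb.iso
    split_ifs
    · rfl
    · exact hW.diag a

theorem Hm_isHermitian (hW : IsWt W) (φ : V → ℝ) : (Hm W φ).IsHermitian := by
  ext a c
  simp only [Matrix.conjTranspose_apply, Hm_apply, star_trivial]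
  rw [hW.symm a c]
  by_cases h : a = c
  · subst h; rfl
  · rw [if_neg h, if_neg (Ne.symm h)]

theorem iso_row (b : V) (c : V) : iso b W b c = 0 := by simp [iso]

theorem iso_col (b : V) (a : V) : iso b W a b = 0 := by simp [iso]

theorem iso_of_ne (b a c : V) (ha : a ≠ b) (hc : c ≠ b) : iso b W a c = W a c := by
  simp [iso, ha, hc]

/-- The quadratic form. -/
theorem quad_Hm (φ u : V → ℝ) :
    u ⬝ᵥ (Hm W φ).mulVec u = ∑ a, 2 * φ a * u a ^ 2 - ∑ a, ∑ c, W a c * u a * u c := by
  simp only [dotProduct, Hm_mulVec, mul_sub, Finset.sum_sub_distrib, Finset.mul_sum]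
  congr 1
  · exact Finset.sum_congr rfl fun a _ => by ring
  · exact Finset.sum_congr rfl fun a _ => Finset.sum_congr rfl fun c _ => by ring

theorem posDef_iff_quad (hW : IsWt W) (φ : V → ℝ) :
    (Hm W φ).PosDef ↔ ∀ u : V → ℝ, u ≠ 0 → 0 < u ⬝ᵥ (Hm W φ).mulVec u := by
  rw [Matrix.posDef_iff_dotProduct_mulVec]
  simp only [star_trivial]
  exact ⟨fun h u hu => h.2 hu, fun h => ⟨Hm_isHermitian hW φ, fun u hu => h u hu⟩⟩

/-- Quadratic form of the isolated matrix. -/
theorem quad_iso (hW : IsWt W) (b : V) (φ u : V → ℝ) (s t : ℝ) :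
    u ⬝ᵥ (Hm (iso b W) (Function.update φ b s)).mulVec u =
      2 * s * u b ^ 2 + Function.update u b 0 ⬝ᵥ
        (Hm W (Function.update φ b t)).mulVec (Function.update u b 0) := by
  rw [quad_Hm, quad_Hm]
  have h1 : ∑ a, 2 * Function.update φ b s a * u a ^ 2 =
      2 * s * u b ^ 2 + ∑ a, 2 * Function.update φ b t a * Function.update u b 0 a ^ 2 := by
    rw [← Finset.add_sum_erase _ _ (Finset.mem_univ b),
      ← Finset.add_sum_erase (f := fun a => 2 * Function.update φ b t a * Function.update u b 0 a ^ 2)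
        _ (Finset.mem_univ b)]
    simp only [Function.update_self]
    have : ∀ a ∈ Finset.univ.erase b, 2 * Function.update φ b s a * u a ^ 2 =
        2 * Function.update φ b t a * Function.update u b 0 a ^ 2 := by
      intro a ha
      have ha' : a ≠ b := Finset.ne_of_mem_erase ha
      simp [Function.update_of_ne ha']
    rw [Finset.sum_congr rfl this]
    ring
  have h2 : ∀ a c, iso b W a c * u a * u c =
      W a c * Function.update u b 0 a * Function.update u b 0 c := by
    intro a c
    by_cases ha : a = b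
    · subst ha; simp [iso_row]
    by_cases hc : c = b
    · subst hc; simp [iso_col]
    simp [iso_of_ne b a c ha hc, Function.update_of_ne ha, Function.update_of_ne hc]
  simp only [h1, h2]
  ring

theorem posDef_iso_of_posDef (hW : IsWt W) (b : V) (φ : V → ℝ) (s t : ℝ) (hs : 0 < s)
    (h : (Hm W (Function.update φ b t)).PosDef) :
    (Hm (iso b W) (Function.update φ b s)).PosDef := by
  rw [posDef_iff_quad (hW.iso b)]
  intro u hu
  rw [quad_iso hW b φ u s t]
  rw [posDef_iff_quad hW] at h
  by_cases hub : u b = 0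
  · have : Function.update u b 0 = u := by
      ext a
      by_cases ha : a = b
      · subst ha; simp [hub]
      · simp [Function.update_of_ne ha]
    rw [this, hub]
    have := h u hu
    simpa using this
  · have h1 : 0 < 2 * s * u b ^ 2 := by positivity
    have h2 : 0 ≤ Function.update u b 0 ⬝ᵥ
        (Hm W (Function.update φ b t)).mulVec (Function.update u b 0) := by
      by_cases h0 : Function.update u b 0 = 0
      · rw [h0]; simp
      · exact (h _ h0).le
    linarith

theorem iso_iso (b : V) : iso b (iso b W) = iso b W := by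
  ext a c
  unfold iso
  split_ifs <;> rfl

theorem posDef_iso_iff (hW : IsWt W) (b : V) (φ : V → ℝ) (s : ℝ) :
    (Hm (iso b W) (Function.update φ b s)).PosDef ↔
      0 < s ∧ (Hm (iso b W) (Function.update φ b 1)).PosDef := by
  constructor
  · intro h
    refine ⟨?_, ?_⟩
    · have h1 := h.diag_pos (i := b)
      rw [Hm_apply, iso_row] at h1
      simpa using h1
    · have := posDef_iso_of_posDef (hW.iso b) b φ 1 s one_pos h
      rwa [iso_iso] at this
  · rintro ⟨hs, h⟩
    have := posDef_iso_of_posDef (hW.iso b) b φ s 1 hs h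
    rwa [iso_iso] at this

/-- Vectors vanishing at `b` do not see the value of `φ b`. -/
theorem iso_mulVec_update (b : V) (φ u : V → ℝ) (s t : ℝ) (hu : u b = 0) :
    (Hm (iso b W) (Function.update φ b s)).mulVec u =
      (Hm (iso b W) (Function.update φ b t)).mulVec u := by
  ext a
  rw [Hm_mulVec, Hm_mulVec]
  by_cases ha : a = b
  · subst ha; simp [hu]
  · simp [Function.update_of_ne ha]

theorem det_one_sub_vecMulVec (u v : V → ℝ) :
    (1 - Matrix.vecMulVec u v).det = 1 - v ⬝ᵥ u := by
  rw [sub_eq_add_neg, ← Matrix.neg_vecMulVec, Matrix.vecMulVec_eq Unit,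
    Matrix.det_one_add_replicateCol_mul_replicateRow, dotProduct_neg, sub_eq_add_neg]

section main

variable (hW : IsWt W) (b : V) (φ : V → ℝ)
  (hK : (Hm (iso b W) (Function.update φ b 1)).PosDef)

/-- Solution operator of the isolated matrix. -/
noncomputable def SS (W : Matrix V V ℝ) (b : V) (φ ζ : V → ℝ) : V → ℝ :=
  (Hm (iso b W) (Function.update φ b 1))⁻¹.mulVec ζ

include hK in
theorem mulVec_SS (ζ : V → ℝ) :
    (Hm (iso b W) (Function.update φ b 1)).mulVec (SS W b φ ζ) = ζ := by
  unfold SS
  rw [Matrix.mulVec_mulVec, Matrix.mul_nonsing_inv _ ((Matrix.isUnit_iff_isUnit_det _).mp hK.isUnit),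
    Matrix.one_mulVec]

include hK in
theorem SS_b (ζ : V → ℝ) (hζ : ζ b = 0) : SS W b φ ζ b = 0 := by
  have h := congrFun (mulVec_SS b φ hK ζ) b
  rw [Hm_mulVec, hζ] at h
  simp [iso_row] at h
  exact h

include hK in
theorem mulVec_SS' (ζ : V → ℝ) (hζ : ζ b = 0) (s : ℝ) :
    (Hm (iso b W) (Function.update φ b s)).mulVec (SS W b φ ζ) = ζ := by
  rw [iso_mulVec_update b φ _ s 1 (SS_b b φ hK ζ hζ)]
  exact mulVec_SS b φ hK ζ

/-- The effective killing. -/
noncomputable def kk (W : Matrix V V ℝ) (b : V) (φ : V → ℝ) : ℝ := W b ⬝ᵥ SS W b φ (W b)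

include hW hK in
/-- Factorization. -/
theorem Hm_fact (t : ℝ) :
    Hm W (Function.update φ b t) =
      (1 - Matrix.vecMulVec (Pi.single b 1) (SS W b φ (W b))) *
        Hm (iso b W) (Function.update φ b (t - kk W b φ / 2)) *
        (1 - Matrix.vecMulVec (SS W b φ (W b)) (Pi.single b 1)) := by
  set z := SS W b φ (W b) with hz
  have hzb : z b = 0 := SS_b b φ hK (W b) (hW.diag b)
  set D := Hm (iso b W) (Function.update φ b (t - kk W b φ / 2)) with hD
  have hDz : D.mulVec z = W b := mulVec_SS' b φ hK (W b) (hW.diag b) _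
  have hDsymm : Dᵀ = D := by
    have := (Hm_isHermitian (hW.iso b) (Function.update φ b (t - kk W b φ / 2))).eq
    rwa [← hD, Matrix.conjTranspose_eq_transpose_of_trivial] at this
  have hzD : Matrix.vecMul z D = W b := by
    rw [← hDz, ← Matrix.mulVec_transpose, hDsymm]
  have h1 : D * (1 - Matrix.vecMulVec z (Pi.single b 1)) =
      D - Matrix.vecMulVec (W b) (Pi.single b 1) := by
    rw [mul_sub, mul_one, Matrix.mul_vecMulVec, hDz]
  rw [mul_assoc, h1, sub_mul, one_mul, mul_sub, Matrix.vecMulVec_mul, hzD,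
    Matrix.vecMulVec_mul_vecMulVec]
  ext a c
  have hk : z ⬝ᵥ W b = kk W b φ := by rw [kk, ← hz, dotProduct_comm]
  simp only [hk, Matrix.sub_apply, Matrix.vecMulVec_apply, Matrix.smul_apply, hD, Hm_apply,
    smul_eq_mul, Pi.smul_apply]
  by_cases ha : a = b
  · subst ha
    by_cases hc : c = a
    · subst hc
      simp [hW.diag, iso_row]
      ring
    · simp [Ne.symm hc, hc, iso_row, Pi.single_eq_of_ne hc]
  · by_cases hc : c = b
    · subst hc
      simp [ha, iso_col, Pi.single_eq_of_ne ha, hW.symm a c]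
    · simp [Pi.single_eq_of_ne ha, Pi.single_eq_of_ne hc, iso_of_ne b a c ha hc,
        Function.update_of_ne ha]

theorem det_iso_update (s : ℝ) :
    (Hm (iso b W) (Function.update φ b s)).det =
      s * (Hm (iso b W) (Function.update φ b 1)).det := by
  have h : Hm (iso b W) (Function.update φ b s) =
      (Hm (iso b W) (Function.update φ b 1)).updateRow b
        (s • Hm (iso b W) (Function.update φ b 1) b) := by
    ext a c
    by_cases ha : a = b
    · subst ha
      simp [Hm_apply, iso_row]
      split_ifs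
      · ring
      · rfl
    · rw [Matrix.updateRow_ne ha]
      simp [Hm_apply, Function.update_of_ne ha]
  rw [h, Matrix.det_updateRow_smul, Matrix.updateRow_eq_self]

include hW hK in
theorem det_Hm_update (t : ℝ) :
    (Hm W (Function.update φ b t)).det =
      (2 * t - kk W b φ) * ((Hm (iso b W) (Function.update φ b 1)).det / 2) := by
  have hzb : SS W b φ (W b) b = 0 := SS_b b φ hK (W b) (hW.diag b)
  have h1 : (1 - Matrix.vecMulVec (Pi.single b 1) (SS W b φ (W b))).det = 1 := by
    rw [det_one_sub_vecMulVec]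
    simp [hzb]
  have h2 : (1 - Matrix.vecMulVec (SS W b φ (W b)) (Pi.single b 1)).det = 1 := by
    rw [det_one_sub_vecMulVec]
    simp [hzb]
  rw [Hm_fact hW b φ hK t, Matrix.det_mul, Matrix.det_mul, h1, h2, det_iso_update]
  ring

include hW hK in
theorem posDef_update_iff (t : ℝ) :
    (Hm W (Function.update φ b t)).PosDef ↔ 0 < 2 * t - kk W b φ := by
  have hzb : SS W b φ (W b) b = 0 := SS_b b φ hK (W b) (hW.diag b)
  have h2 : IsUnit (1 - Matrix.vecMulVec (SS W b φ (W b)) (Pi.single b 1)) := by
    rw [Matrix.isUnit_iff_isUnit_det]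
    rw [det_one_sub_vecMulVec]
    simp [hzb]
  have h3 : (1 - Matrix.vecMulVec (Pi.single b 1) (SS W b φ (W b)) : Matrix V V ℝ) =
      star (1 - Matrix.vecMulVec (SS W b φ (W b)) (Pi.single b 1)) := by
    rw [Matrix.star_eq_conjTranspose, Matrix.conjTranspose_eq_transpose_of_trivial,
      Matrix.transpose_sub, Matrix.transpose_one, Matrix.transpose_vecMulVec]
  rw [Hm_fact hW b φ hK t, h3, Matrix.IsUnit.posDef_star_left_conjugate_iff h2, posDef_iso_iff hW]
  constructor
  · rintro ⟨h, _⟩; linarith
  · intro h; exact ⟨by linarith, hK⟩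

include hW hK in
theorem kk_nonneg : 0 ≤ kk W b φ := by
  have h := (posDef_iff_quad (hW.iso b) _).mp hK
  have h1 : kk W b φ = SS W b φ (W b) ⬝ᵥ
      (Hm (iso b W) (Function.update φ b 1)).mulVec (SS W b φ (W b)) := by
    rw [mulVec_SS b φ hK, kk, dotProduct_comm]
  rw [h1]
  by_cases h0 : SS W b φ (W b) = 0
  · rw [h0]; simp
  · exact (h _ h0).le

include hK in
/-- Inverse of the isolated matrix on vectors vanishing at `b`. -/
theorem Gr_iso_mulVec (ζ : V → ℝ) (hζ : ζ b = 0) (s : ℝ) (hs : 0 < s) (hW : IsWt W) :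
    (Gr (iso b W) (Function.update φ b s)).mulVec ζ = SS W b φ ζ := by
  have hpd : (Hm (iso b W) (Function.update φ b s)).PosDef := (posDef_iso_iff hW b φ s).mpr ⟨hs, hK⟩
  have hu : IsUnit (Hm (iso b W) (Function.update φ b s)).det :=
    (Matrix.isUnit_iff_isUnit_det _).mp hpd.isUnit
  have h := mulVec_SS' b φ hK ζ hζ s
  calc (Gr (iso b W) (Function.update φ b s)).mulVec ζ
      = (Gr (iso b W) (Function.update φ b s)).mulVec
          ((Hm (iso b W) (Function.update φ b s)).mulVec (SS W b φ ζ)) := by rw [h]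
    _ = SS W b φ ζ := by
        rw [Matrix.mulVec_mulVec, Gr, Matrix.nonsing_inv_mul _ hu, Matrix.one_mulVec]

theorem update_zero_eq (η : V → ℝ) : Function.update η b 0 b = 0 := by simp

/-- The mass of the eliminated vertex in terms of the solution operator. -/
noncomputable def qq (W : Matrix V V ℝ) (b : V) (η φ : V → ℝ) : ℝ :=
  η b + W b ⬝ᵥ SS W b φ (Function.update η b 0)

include hK in
theorem QQ_update (hW : IsWt W) (η : V → ℝ) (s : ℝ) (hs : 0 < s) :
    QQ W η b (Function.update φ b s) = qq W b η φ := by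
  unfold QQ qq
  rw [← Gr_iso_mulVec b φ hK _ (update_zero_eq b η) s hs hW]
  simp only [dotProduct, Matrix.mulVec, Finset.mul_sum]
  congr 1
  exact Finset.sum_congr rfl fun a _ => Finset.sum_congr rfl fun c _ => by ring

include hW hK in
theorem SS_symm (ζ ξ : V → ℝ) : ζ ⬝ᵥ SS W b φ ξ = ξ ⬝ᵥ SS W b φ ζ := by
  have hs : (Hm (iso b W) (Function.update φ b 1))ᵀ = Hm (iso b W) (Function.update φ b 1) := by
    have := (Hm_isHermitian (hW.iso b) (Function.update φ b 1)).eq
    rwa [Matrix.conjTranspose_eq_transpose_of_trivial] at this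
  unfold SS
  rw [Matrix.dotProduct_mulVec, ← Matrix.mulVec_transpose, Matrix.transpose_nonsing_inv, hs,
    dotProduct_comm]

include hW hK in
/-- The solution of `H u = η`. -/
theorem Gr_mulVec (η : V → ℝ) (t : ℝ) (ht : 0 < 2 * t - kk W b φ) :
    (Gr W (Function.update φ b t)).mulVec η =
      SS W b φ (Function.update η b 0) +
        (qq W b η φ / (2 * t - kk W b φ)) • (SS W b φ (W b) + Pi.single b 1) := by
  set y := 2 * t - kk W b φ with hy
  have hpd : (Hm W (Function.update φ b t)).PosDef := (posDef_update_iff hW b φ hK t).mpr ht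
  have hu : IsUnit (Hm W (Function.update φ b t)).det :=
    (Matrix.isUnit_iff_isUnit_det _).mp hpd.isUnit
  set η' := Function.update η b 0 with hη'
  have hη'b : η' b = 0 := by simp [hη']
  have hzb : SS W b φ (W b) b = 0 := SS_b b φ hK (W b) (hW.diag b)
  -- action of `H` on a vector of the form `u` with `u b = 0`
  have hact : ∀ u : V → ℝ, u b = 0 → (Hm W (Function.update φ b t)).mulVec u =
      (Hm (iso b W) (Function.update φ b 1)).mulVec u - (W b ⬝ᵥ u) • Pi.single b 1 := by
    intro u hu
    ext a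
    simp only [Pi.sub_apply, Pi.smul_apply, smul_eq_mul, Hm_mulVec]
    by_cases ha : a = b
    · subst ha
      simp [hu, iso_row, dotProduct]
    · have : ∑ c, W a c * u c = ∑ c, iso b W a c * u c := by
        refine Finset.sum_congr rfl fun c _ => ?_
        by_cases hc : c = b
        · subst hc; simp [hu]
        · rw [iso_of_ne b a c ha hc]
      rw [this]
      simp [Function.update_of_ne ha, Pi.single_eq_of_ne ha]
  have hb : (Hm W (Function.update φ b t)).mulVec (Pi.single b 1) =
      (2 * t) • Pi.single b 1 - W b := by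
    ext a
    simp only [Pi.sub_apply, Pi.smul_apply, smul_eq_mul, Hm_mulVec]
    by_cases ha : a = b
    · subst ha
      simp [hW.diag, Finset.sum_ite_eq, Pi.single_apply]
    · simp [Pi.single_eq_of_ne ha, Pi.single_apply, hW.symm a b]
  have key : (Hm W (Function.update φ b t)).mulVec (SS W b φ η' +
      (qq W b η φ / y) • (SS W b φ (W b) + Pi.single b 1)) = η := by
    rw [Matrix.mulVec_add, Matrix.mulVec_smul, Matrix.mulVec_add, hb,
      hact _ (SS_b b φ hK η' hη'b), hact _ hzb, mulVec_SS b φ hK, mulVec_SS b φ hK]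
    ext a
    simp only [Pi.add_apply, Pi.sub_apply, Pi.smul_apply, smul_eq_mul]
    by_cases ha : a = b
    · subst ha
      simp only [Pi.single_eq_same, hη'b]
      have h1 : W a ⬝ᵥ SS W a φ (W a) = 2 * t - y := by rw [hy, kk]; ring
      have h2 : W a ⬝ᵥ SS W a φ η' = qq W a η φ - η a := by rw [qq]; ring
      rw [h1, h2]
      have hy0 : y ≠ 0 := ht.ne'
      field_simp
      ring
    · simp only [Pi.single_eq_of_ne ha, hη', Function.update_of_ne ha]
      ring
  calc (Gr W (Function.update φ b t)).mulVec η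
      = (Gr W (Function.update φ b t)).mulVec ((Hm W (Function.update φ b t)).mulVec
          (SS W b φ η' + (qq W b η φ / y) • (SS W b φ (W b) + Pi.single b 1))) := by rw [key]
    _ = _ := by rw [Matrix.mulVec_mulVec, Gr, Matrix.nonsing_inv_mul _ hu, Matrix.one_mulVec]

include hW hK in
theorem Gr_bb (t : ℝ) (ht : 0 < 2 * t - kk W b φ) :
    (Gr W (Function.update φ b t) b b)⁻¹ = 2 * t - kk W b φ := by
  have h := congrFun (Gr_mulVec hW b φ hK (Pi.single b 1) t ht) b
  have h0 : Function.update (Pi.single b (1 : ℝ) : V → ℝ) b 0 = 0 := by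
    ext a
    by_cases ha : a = b
    · subst ha; simp
    · simp [Function.update_of_ne ha, Pi.single_eq_of_ne ha]
  have hS0 : SS W b φ 0 = 0 := by unfold SS; simp
  have hq : qq W b (Pi.single b 1) φ = 1 := by
    unfold qq
    rw [h0, hS0]
    simp
  rw [Matrix.mulVec_single_one] at h
  rw [h0, hq, hS0] at h
  have hzb : SS W b φ (W b) b = 0 := SS_b b φ hK (W b) (hW.diag b)
  simp [hzb] at h
  have h' : Gr W (Function.update φ b t) b b = (2 * t - kk W b φ)⁻¹ := h
  rw [h', inv_inv]

include hW hK in
theorem quad_Gr (η : V → ℝ) (t : ℝ) (ht : 0 < 2 * t - kk W b φ) :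
    ∑ a, ∑ c, η a * Gr W (Function.update φ b t) a c * η c =
      Function.update η b 0 ⬝ᵥ SS W b φ (Function.update η b 0) +
        qq W b η φ ^ 2 / (2 * t - kk W b φ) := by
  have h1 : ∑ a, ∑ c, η a * Gr W (Function.update φ b t) a c * η c =
      η ⬝ᵥ (Gr W (Function.update φ b t)).mulVec η := by
    simp only [dotProduct, Matrix.mulVec, Finset.mul_sum]
    exact Finset.sum_congr rfl fun a _ => Finset.sum_congr rfl fun c _ => by ring
  rw [h1, Gr_mulVec hW b φ hK η t ht, dotProduct_add, dotProduct_smul, dotProduct_add]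
  have hη : ∀ u : V → ℝ, u b = 0 → η ⬝ᵥ u = Function.update η b 0 ⬝ᵥ u := by
    intro u hu
    refine Finset.sum_congr rfl fun a _ => ?_
    by_cases ha : a = b
    · subst ha; simp [hu]
    · simp [Function.update_of_ne ha]
  have hη'b : Function.update η b 0 b = 0 := by simp
  rw [hη _ (SS_b b φ hK _ hη'b), hη _ (SS_b b φ hK _ (hW.diag b)), SS_symm hW b φ hK _ (W b)]
  have : W b ⬝ᵥ SS W b φ (Function.update η b 0) = qq W b η φ - η b := by rw [qq]; ring
  rw [this]
  simp only [dotProduct_single, mul_one, smul_eq_mul]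
  ring

end main

end Pool.Agent.Lib.Arb
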