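import Pool.Agent.Lib.Arb.Torus

/-!
# Module L: consequences for the torus
-/

set_option autoImplicit false
set_option linter.unusedSectionVars false
set_option linter.unusedVariables false
set_option linter.unusedSimpArgs false

namespace Pool.Agent.Lib.Arb

section general

variable {V : Type} [Fintype V] (G : SimpleGraph V) {β : ℝ}

theorem connProb_eq (β : ℝ) (i j : V) : connProb G β i j = NG G β i j / ZG G β := by
  unfold connProb gasProb NG ZG InSameTree
  congr!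

theorem empty_mem_forests : (∅ : Finset (Sym2 V)) ∈ forests G := by
  classical
  unfold forests
  rw [Finset.mem_filter]
  refine ⟨by simp, ?_⟩
  simp only [Finset.coe_empty, SimpleGraph.fromEdgeSet_empty]
  exact SimpleGraph.isAcyclic_bot

theorem ZG_pos (hβ : 0 < β) : 0 < ZG G β := by
  unfold ZG
  refine lt_of_lt_of_le ?_ (Finset.single_le_sum (f := fun F : Finset (Sym2 V) => β ^ F.card)
    (fun F _ => by positivity) (empty_mem_forests G))
  positivity

theorem NG_self (β : ℝ) (i : V) : NG G β i i = ZG G β := by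
  classical
  unfold NG ZG
  congr 1
  refine Finset.filter_true_of_mem fun F _ => ?_
  exact SimpleGraph.Reachable.refl i

theorem NG_comm (β : ℝ) (i j : V) : NG G β i j = NG G β j i := by
  classical
  unfold NG
  congr 1
  refine Finset.filter_congr fun F _ => ?_
  exact SimpleGraph.reachable_comm

theorem NG_nonneg (hβ : 0 < β) (i j : V) : 0 ≤ NG G β i j :=
  Finset.sum_nonneg fun F _ => by positivity

theorem meanTreeSize_eq (β : ℝ) (i : V) :
    meanTreeSize G β i = ∑ j, connProb G β i j := by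
  classical
  unfold meanTreeSize
  simp only [connProb_eq]
  rw [← Finset.sum_div]
  congr 1
  unfold NG
  simp only [Finset.sum_filter]
  rw [Finset.sum_comm]
  refine Finset.sum_congr rfl fun F _ => ?_
  rw [← Finset.sum_filter, Finset.sum_const, nsmul_eq_mul, mul_comm]
  unfold InSameTree
  congr!

end general

/-- Iterating the comparison along the first axis. -/
theorem chain {C₀ : ℝ} (hC : ∀ (β : ℝ) (n L : ℕ), 0 < β → 1 ≤ n → 2 * n + 1 ≤ L →
    ∀ [NeZero L] (x : ZMod L × ZMod L) (z : ℤ × ℤ), z ∈ box n →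
    ∀ q : ZMod L × ZMod L,
      (1 - C₀ * (1 + Real.log n) / β) *
        NG (torus L) β q (x + ((z.1 : ZMod L), (z.2 : ZMod L))) ≤ NG (torus L) β q x)
    {β : ℝ} (hβ : 0 < β) {n : ℕ} (hn : 1 ≤ n) (hnβ : C₀ * (1 + Real.log n) / β ≤ 1 / 4)
    {L : ℕ} (hL : 2 * n + 1 ≤ L) [NeZero L] (k : ℕ) :
    (3 / 4) ^ k * ZG (torus L) β ≤ NG (torus L) β (0, 0) (((k * n : ℕ) : ZMod L), 0) := by
  induction k with
  | zero =>
    simp only [pow_zero, one_mul, zero_mul, Nat.cast_zero]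
    rw [NG_self]
  | succ k ih =>
    have hz : ((-(n : ℤ), 0) : ℤ × ℤ) ∈ box n := by
      rw [mem_box]; simp
    have h := hC β n L hβ hn hL ((((k + 1) * n : ℕ) : ZMod L), (0 : ZMod L)) (-(n : ℤ), 0) hz (0, 0)
    have e : ((((k + 1) * n : ℕ) : ZMod L), (0 : ZMod L)) +
        ((((-(n : ℤ), 0) : ℤ × ℤ).1 : ZMod L), (((-(n : ℤ), 0) : ℤ × ℤ).2 : ZMod L)) =
        (((k * n : ℕ) : ZMod L), 0) := by
      ext
      · simp
        ring
      · simp
    rw [e] at h
    have h2 : (3 / 4 : ℝ) ≤ 1 - C₀ * (1 + Real.log n) / β := by linarith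
    have h3 := NG_nonneg (torus L) hβ (0, 0) (((k * n : ℕ) : ZMod L), 0)
    calc (3 / 4 : ℝ) ^ (k + 1) * ZG (torus L) β = 3 / 4 * ((3 / 4) ^ k * ZG (torus L) β) := by ring
      _ ≤ 3 / 4 * NG (torus L) β (0, 0) (((k * n : ℕ) : ZMod L), 0) := by linarith
      _ ≤ (1 - C₀ * (1 + Real.log n) / β) * NG (torus L) β (0, 0) (((k * n : ℕ) : ZMod L), 0) :=
        mul_le_mul_of_nonneg_right h2 h3
      _ ≤ _ := h

theorem decay_le {C₀ : ℝ} (hC : ∀ (β : ℝ) (n L : ℕ), 0 < β → 1 ≤ n → 2 * n + 1 ≤ L →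
    ∀ [NeZero L] (x : ZMod L × ZMod L) (z : ℤ × ℤ), z ∈ box n →
    ∀ q : ZMod L × ZMod L,
      (1 - C₀ * (1 + Real.log n) / β) *
        NG (torus L) β q (x + ((z.1 : ZMod L), (z.2 : ZMod L))) ≤ NG (torus L) β q x)
    {β : ℝ} (hβ : 0 < β) {n : ℕ} (hn : 1 ≤ n) (hnβ : C₀ * (1 + Real.log n) / β ≤ 1 / 4)
    {c : ℝ} (hc : c ∈ decayRates β) : c * n ≤ 1 := by
  obtain ⟨hc0, C, hC'⟩ := hc
  by_contra hcon
  push Not at hcon
  have key : ∀ k : ℕ, (3 / 4 * Real.exp (c * n)) ^ k ≤ C := by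
    intro k
    have : NeZero (2 * (k * n) + 2 * n + 1) := ⟨by omega⟩
    have h1 := chain hC hβ hn hnβ (L := 2 * (k * n) + 2 * n + 1) (by omega) k
    have h2 := hC' (2 * (k * n) + 2 * n + 1) (0, 0) (((k * n : ℕ) : ZMod _), 0)
    have h3 := torus_dist_ge (2 * (k * n) + 2 * n + 1) (k * n) (by omega)
    have hZ := ZG_pos (torus (2 * (k * n) + 2 * n + 1)) hβ
    rw [connProb_eq, div_le_iff₀ hZ] at h2
    have h4 : (3 / 4 : ℝ) ^ k * ZG (torus (2 * (k * n) + 2 * n + 1)) β ≤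
        C * Real.exp (-(c * (torus (2 * (k * n) + 2 * n + 1)).dist (0, 0)
          (((k * n : ℕ) : ZMod (2 * (k * n) + 2 * n + 1)), 0))) *
            ZG (torus (2 * (k * n) + 2 * n + 1)) β := h1.trans h2
    have h5 := le_of_mul_le_mul_right h4 hZ
    have hC0 : 0 < C := by
      by_contra hneg
      push Not at hneg
      have h6 : (0 : ℝ) < (3 / 4) ^ k := by positivity
      have h7 := mul_nonneg (neg_nonneg.mpr hneg)
        (Real.exp_pos (-(c * (torus (2 * (k * n) + 2 * n + 1)).dist (0, 0)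
          (((k * n : ℕ) : ZMod (2 * (k * n) + 2 * n + 1)), 0)))).le
      linarith
    have h6 : Real.exp (-(c * (torus (2 * (k * n) + 2 * n + 1)).dist (0, 0)
          (((k * n : ℕ) : ZMod (2 * (k * n) + 2 * n + 1)), 0))) ≤ Real.exp (-(c * n)) ^ k := by
      rw [← Real.exp_nat_mul]
      refine Real.exp_le_exp.mpr ?_
      have h7 := (Nat.cast_le (α := ℝ)).mpr h3
      rw [Nat.cast_mul (α := ℝ)] at h7
      have h8 := mul_le_mul_of_nonneg_left h7 hc0.le
      linarith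
    have h7 : (3 / 4 : ℝ) ^ k ≤ C * Real.exp (-(c * n)) ^ k :=
      h5.trans (mul_le_mul_of_nonneg_left h6 hC0.le)
    calc (3 / 4 * Real.exp (c * n)) ^ k = (3 / 4) ^ k * Real.exp (c * n) ^ k := mul_pow _ _ _
      _ ≤ C * Real.exp (-(c * n)) ^ k * Real.exp (c * n) ^ k :=
        mul_le_mul_of_nonneg_right h7 (by positivity)
      _ = C := by
        rw [mul_assoc, ← mul_pow, ← Real.exp_add]
        simp
  have hbig : 1 < 3 / 4 * Real.exp (c * n) := by
    have h1 : Real.exp 1 < Real.exp (c * n) := Real.exp_lt_exp.mpr hcon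
    have h2 := Real.exp_one_gt_d9
    linarith
  obtain ⟨k, hk⟩ := pow_unbounded_of_one_lt C hbig
  exact absurd (key k) (not_le.mpr hk)

/-- The scale `n = ⌈exp (a β)⌉`. -/
theorem scale {C₀ : ℝ} (hC₀ : 0 < C₀) {β : ℝ} (hβ : 32 * C₀ ≤ β) :
    1 ≤ ⌈Real.exp (β / (8 * C₀))⌉₊ ∧
    C₀ * (1 + Real.log (⌈Real.exp (β / (8 * C₀))⌉₊ : ℝ)) / β ≤ 1 / 4 ∧
    Real.exp (β / (8 * C₀)) ≤ (⌈Real.exp (β / (8 * C₀))⌉₊ : ℝ) ∧
    2 * (⌈Real.exp (β / (8 * C₀))⌉₊ : ℝ) + 1 ≤ Real.exp (β / (4 * C₀)) := by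
  have hβ0 : 0 < β := lt_of_lt_of_le (by positivity) hβ
  set x := Real.exp (β / (8 * C₀)) with hx
  have hx4 : 4 ≤ β / (8 * C₀) := by
    rw [le_div_iff₀ (by positivity)]
    linarith
  have hx5 : 5 ≤ x := by
    have := Real.add_one_le_exp (β / (8 * C₀))
    linarith
  have hle : x ≤ (⌈x⌉₊ : ℝ) := Nat.le_ceil x
  have hlt : (⌈x⌉₊ : ℝ) < x + 1 := Nat.ceil_lt_add_one (by linarith)
  have hn1 : 1 ≤ ⌈x⌉₊ := by
    rw [Nat.one_le_ceil_iff]
    linarith
  have hn0 : (0 : ℝ) < (⌈x⌉₊ : ℝ) := by linarith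
  refine ⟨hn1, ?_, hle, ?_⟩
  · have h1 : Real.log (⌈x⌉₊ : ℝ) ≤ 1 + β / (8 * C₀) := by
      have h2 : (⌈x⌉₊ : ℝ) ≤ Real.exp 1 * x := by
        have := Real.exp_one_gt_d9
        nlinarith
      calc Real.log (⌈x⌉₊ : ℝ) ≤ Real.log (Real.exp 1 * x) := Real.log_le_log hn0 h2
        _ = 1 + β / (8 * C₀) := by
          rw [hx, ← Real.exp_add, Real.log_exp]
    rw [div_le_iff₀ hβ0]
    have h3 : C₀ * (1 + Real.log (⌈x⌉₊ : ℝ)) ≤ C₀ * (1 + (1 + β / (8 * C₀))) :=
      mul_le_mul_of_nonneg_left (by linarith) hC₀.le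
    have h4 : C₀ * (1 + (1 + β / (8 * C₀))) = 2 * C₀ + β / 8 := by
      field_simp
      ring
    linarith
  · have h1 : Real.exp (β / (4 * C₀)) = x * x := by
      rw [hx, ← Real.exp_add]
      congr 1
      field_simp
      ring
    rw [h1]
    nlinarith

/-- Upper bound for the mass. -/
theorem mass_upper : ∃ a : ℝ, 0 < a ∧ ∃ β₀ : ℝ, 0 < β₀ ∧ ∀ β : ℝ, β₀ ≤ β →
    (∀ c ∈ decayRates β, c ≤ Real.exp (-(a * β))) ∧ mass β ≤ Real.exp (-(a * β)) := by
  obtain ⟨C₀, hC₀, hC⟩ := torus_step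
  refine ⟨1 / (8 * C₀), by positivity, 32 * C₀, by positivity, ?_⟩
  intro β hβ
  have hβ0 : 0 < β := lt_of_lt_of_le (by positivity) hβ
  obtain ⟨h1, h2, h3, h4⟩ := scale hC₀ hβ
  have hexp : Real.exp (-(1 / (8 * C₀) * β)) = (Real.exp (β / (8 * C₀)))⁻¹ := by
    rw [← Real.exp_neg]
    congr 1
    ring
  have hmain : ∀ c ∈ decayRates β, c ≤ Real.exp (-(1 / (8 * C₀) * β)) := by
    intro c hc
    have h5 := decay_le hC hβ0 h1 h2 hc
    have hx0 := Real.exp_pos (β / (8 * C₀))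
    have hn0 : (0 : ℝ) < (⌈Real.exp (β / (8 * C₀))⌉₊ : ℝ) := lt_of_lt_of_le hx0 h3
    rw [hexp]
    calc c ≤ (⌈Real.exp (β / (8 * C₀))⌉₊ : ℝ)⁻¹ := by
          rw [le_inv_comm₀ hc.1 hn0]
          rw [← one_div, le_div_iff₀ hc.1, mul_comm]
          exact h5
      _ ≤ (Real.exp (β / (8 * C₀)))⁻¹ := inv_anti₀ hx0 h3
  refine ⟨hmain, ?_⟩
  unfold mass
  rcases (decayRates β).eq_empty_or_nonempty with h | h
  · rw [h, Real.sSup_empty]
    exact (Real.exp_pos _).le
  · exact csSup_le h hmain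

/-- Points at a distance `n` are connected. -/
theorem near {C₀ : ℝ} (hC : ∀ (β : ℝ) (n L : ℕ), 0 < β → 1 ≤ n → 2 * n + 1 ≤ L →
    ∀ [NeZero L] (x : ZMod L × ZMod L) (z : ℤ × ℤ), z ∈ box n →
    ∀ q : ZMod L × ZMod L,
      (1 - C₀ * (1 + Real.log n) / β) *
        NG (torus L) β q (x + ((z.1 : ZMod L), (z.2 : ZMod L))) ≤ NG (torus L) β q x)
    {β : ℝ} (hβ : 0 < β) {n : ℕ} (hn : 1 ≤ n)
    {L : ℕ} (hL : 2 * n + 1 ≤ L) [NeZero L] (x : ZMod L × ZMod L) (z : ℤ × ℤ) (hz : z ∈ box n) :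
    1 - C₀ * (1 + Real.log n) / β ≤ connProb (torus L) β x (emb L x z) := by
  have h := hC β n L hβ hn hL x z hz (emb L x z)
  have hZ := ZG_pos (torus L) hβ
  have e : x + ((z.1 : ZMod L), (z.2 : ZMod L)) = emb L x z := rfl
  rw [e, NG_self, NG_comm] at h
  rw [connProb_eq, le_div_iff₀ hZ]
  exact h

/-- Lower bound for the expected size of a tree. -/
theorem tree_lower : ∃ a : ℝ, 0 < a ∧ ∃ β₀ : ℝ, 0 < β₀ ∧ ∀ β : ℝ, β₀ ≤ β →
    ∀ (L : ℕ) [NeZero L], Real.exp (a * β) ≤ L →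
      ∀ i : ZMod L × ZMod L, Real.exp (a * β) ≤ meanTreeSize (torus L) β i := by
  classical
  obtain ⟨C₀, hC₀, hC⟩ := torus_step
  refine ⟨1 / (4 * C₀), by positivity, 32 * C₀, by positivity, ?_⟩
  intro β hβ L _ hL i
  have hβ0 : 0 < β := lt_of_lt_of_le (by positivity) hβ
  obtain ⟨h1, h2, h3, h4⟩ := scale hC₀ hβ
  have hexp : Real.exp (1 / (4 * C₀) * β) = Real.exp (β / (8 * C₀)) ^ 2 := by
    rw [← Real.exp_nat_mul]
    congr 1
    field_simp
    norm_num
  have hexp' : Real.exp (1 / (4 * C₀) * β) = Real.exp (β / (4 * C₀)) := by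
    congr 1
    ring
  set n := ⌈Real.exp (β / (8 * C₀))⌉₊ with hn
  have hnL : 2 * n + 1 ≤ L := by
    rw [hexp'] at hL
    have : (2 * (n : ℝ) + 1) ≤ L := h4.trans hL
    exact_mod_cast this
  rw [meanTreeSize_eq]
  have hZ := ZG_pos (torus L) hβ0
  have hnn : ∀ j, 0 ≤ connProb (torus L) β i j := fun j => by
    rw [connProb_eq]
    exact div_nonneg (NG_nonneg _ hβ0 i j) hZ.le
  have hinj := emb_injOn L n hnL i
  calc Real.exp (1 / (4 * C₀) * β) ≤ ((box n).card : ℝ) * (3 / 4) := by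
        rw [hexp]
        have hcard : (box n).card = (2 * n + 1) * (2 * n + 1) := by
          unfold box
          rw [Finset.card_product, Int.card_Icc]
          congr 1 <;> omega
        rw [hcard]
        push_cast
        have hx0 := Real.exp_pos (β / (8 * C₀))
        nlinarith
    _ = ∑ z ∈ box n, (3 / 4 : ℝ) := by rw [Finset.sum_const, nsmul_eq_mul]
    _ ≤ ∑ z ∈ box n, connProb (torus L) β i (emb L i z) := by
        refine Finset.sum_le_sum fun z hz => ?_
        have := near hC hβ0 h1 hnL i z hz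
        linarith
    _ = ∑ j ∈ (box n).image (emb L i), connProb (torus L) β i j := by
        rw [Finset.sum_image hinj]
    _ ≤ ∑ j, connProb (torus L) β i j :=
        Finset.sum_le_sum_of_subset_of_nonneg (Finset.subset_univ _) fun j _ _ => hnn j

theorem torus_connected (L : ℕ) [NeZero L] : (torus L).Connected := by
  have hstep1 : ∀ (x : ZMod L × ZMod L), (torus L).Reachable x (x.1 + 1, x.2) := by
    intro x
    by_cases h : x = (x.1 + 1, x.2)
    · rw [← h]
    · refine SimpleGraph.Adj.reachable ?_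
      unfold torus
      rw [SimpleGraph.fromRel_adj]
      exact ⟨h, Or.inl (Or.inl ⟨rfl, rfl⟩)⟩
  have hstep2 : ∀ (x : ZMod L × ZMod L), (torus L).Reachable x (x.1, x.2 + 1) := by
    intro x
    by_cases h : x = (x.1, x.2 + 1)
    · rw [← h]
    · refine SimpleGraph.Adj.reachable ?_
      unfold torus
      rw [SimpleGraph.fromRel_adj]
      exact ⟨h, Or.inl (Or.inr ⟨rfl, rfl⟩)⟩
  have h1 : ∀ (m : ℕ) (x : ZMod L × ZMod L), (torus L).Reachable x (x.1 + m, x.2) := by
    intro m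
    induction m with
    | zero => intro x; simp
    | succ m ih =>
      intro x
      refine (ih x).trans ?_
      have := hstep1 (x.1 + m, x.2)
      simp only at this
      convert this using 2
      push_cast
      ring
  have h2 : ∀ (m : ℕ) (x : ZMod L × ZMod L), (torus L).Reachable x (x.1, x.2 + m) := by
    intro m
    induction m with
    | zero => intro x; simp
    | succ m ih =>
      intro x
      refine (ih x).trans ?_
      have := hstep2 (x.1, x.2 + m)
      simp only at this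
      convert this using 2
      push_cast
      ring
  have : Nonempty (ZMod L × ZMod L) := ⟨(0, 0)⟩
  refine ⟨fun x y => ?_⟩
  have h3 := h1 (y.1 - x.1).val x
  have h4 := h2 (y.2 - x.2).val (x.1 + ((y.1 - x.1).val : ZMod L), x.2)
  refine h3.trans ?_
  convert h4 using 1
  rw [ZMod.natCast_zmod_val, ZMod.natCast_zmod_val]
  ext <;> simp

/-- Pointwise lower bound for the connection probabilities. -/
theorem pair_lower : ∃ C : ℝ, 0 < C ∧ ∀ β : ℝ, 0 < β → ∀ (L : ℕ) [NeZero L], 3 ≤ L →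
    ∀ i j : ZMod L × ZMod L, i ≠ j →
      1 - C * (1 + Real.log ((torus L).dist i j)) / β ≤ connProb (torus L) β i j := by
  obtain ⟨C₀, hC₀, hC⟩ := torus_step
  refine ⟨2 * C₀, by positivity, ?_⟩
  intro β hβ L _ hL i j hij
  -- minimal representatives
  obtain ⟨p, hp⟩ := (torus_connected L).exists_walk_length_eq_dist i j
  obtain ⟨z', hz', hj⟩ := walk_bound L i j p
  set d := (torus L).dist i j with hd
  rw [hp] at hz'
  have hmin : ∀ a : ℤ, ∃ b : ℤ, (b : ZMod L) = (a : ZMod L) ∧ b.natAbs ≤ a.natAbs ∧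
      2 * b.natAbs ≤ L := by
    intro a
    have hL0 : (0 : ℤ) < L := by
      have : 0 < L := by omega
      exact_mod_cast this
    refine ⟨(a : ZMod L).valMinAbs, ZMod.coe_valMinAbs _, ?_, ?_⟩
    · by_contra hcon
      push Not at hcon
      have h1 := ZMod.valMinAbs_mem_Ioc (a : ZMod L)
      rw [Set.mem_Ioc] at h1
      have h2 : ((a : ZMod L).valMinAbs : ZMod L) = (a : ZMod L) := ZMod.coe_valMinAbs _
      rw [ZMod.intCast_eq_intCast_iff_dvd_sub] at h2
      have h3 : |a - (a : ZMod L).valMinAbs| < (L : ℤ) := by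
        rw [abs_lt]
        omega
      have h4 := Int.eq_zero_of_abs_lt_dvd h2 h3
      omega
    · have h1 := ZMod.valMinAbs_mem_Ioc (a : ZMod L)
      rw [Set.mem_Ioc] at h1
      omega
  obtain ⟨b₁, hb₁, hb₁', hb₁L⟩ := hmin z'.1
  obtain ⟨b₂, hb₂, hb₂', hb₂L⟩ := hmin z'.2
  have hj' : j = emb L i (b₁, b₂) := by
    rw [hj]
    unfold emb
    simp only [hb₁, hb₂]
  set m : ℕ := max b₁.natAbs b₂.natAbs with hm
  have hm1 : b₁.natAbs ≤ m := le_max_left _ _
  have hm2 : b₂.natAbs ≤ m := le_max_right _ _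
  have hmL : 2 * m ≤ L := by
    rcases le_total b₁.natAbs b₂.natAbs with h | h
    · rw [hm, max_eq_right h]; exact hb₂L
    · rw [hm, max_eq_left h]; exact hb₁L
  have hmd : m ≤ d := by
    rcases le_total b₁.natAbs b₂.natAbs with h | h
    · rw [hm, max_eq_right h]; omega
    · rw [hm, max_eq_left h]; omega
  have hm0 : 1 ≤ m := by
    by_contra hcon
    have h1 : b₁ = 0 := by omega
    have h2 : b₂ = 0 := by omega
    apply hij
    rw [hj', h1, h2]
    simp [emb]
  set n : ℕ := (m + 1) / 2 with hn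
  have hn1 : 1 ≤ n := by omega
  have hnL : 2 * n + 1 ≤ L := by omega
  have hnd : n ≤ d := by omega
  have hd1 : 1 ≤ d := by omega
  -- midpoint
  set u : ℤ × ℤ := (b₁ / 2, b₂ / 2) with hu
  set w : ℤ × ℤ := (b₁ - b₁ / 2, b₂ - b₂ / 2) with hw
  have hubox : u ∈ box n := by
    rw [mem_box]; simp only [hu]; omega
  have hwbox : w ∈ box n := by
    rw [mem_box]; simp only [hw]; omega
  have hmid : emb L (emb L i u) w = j := by
    rw [hj']
    unfold emb
    ext
    · simp only [Prod.fst_add, hu, hw]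
      push_cast
      ring
    · simp only [Prod.snd_add, hu, hw]
      push_cast
      ring
  set ε := C₀ * (1 + Real.log n) / β with hε
  have hlogn : 0 ≤ Real.log n := Real.log_nonneg (by exact_mod_cast hn1)
  have hε0 : 0 ≤ ε := by positivity
  have hZ := ZG_pos (torus L) hβ
  have hnn := NG_nonneg (torus L) hβ i j
  have hεd : 1 - 2 * C₀ * (1 + Real.log d) / β ≤ 1 - 2 * ε := by
    have h1 : Real.log n ≤ Real.log d :=
      Real.log_le_log (by exact_mod_cast hn1) (by exact_mod_cast hnd)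
    have h2 : 2 * ε ≤ 2 * C₀ * (1 + Real.log d) / β := by
      rw [hε]
      have h3 : C₀ * (1 + Real.log n) / β ≤ C₀ * (1 + Real.log d) / β := by gcongr
      have h4 : 2 * C₀ * (1 + Real.log d) / β = 2 * (C₀ * (1 + Real.log d) / β) := by ring
      rw [h4]
      linarith
    linarith
  refine hεd.trans ?_
  rw [connProb_eq, le_div_iff₀ hZ]
  by_cases hε1 : 1 < ε
  · have h5 : (1 - 2 * ε) * ZG (torus L) β ≤ 0 :=
      mul_nonpos_of_nonpos_of_nonneg (by linarith) hZ.le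
    linarith
  push Not at hε1
  -- from `i` to the midpoint
  have h5 := hC β n L hβ hn1 hnL i u hubox (emb L i u)
  have e5 : i + ((u.1 : ZMod L), (u.2 : ZMod L)) = emb L i u := rfl
  rw [e5, NG_self, NG_comm _ β (emb L i u) i] at h5
  have hwbox' : ((-w.1, -w.2) : ℤ × ℤ) ∈ box n := by
    rw [mem_box] at hwbox ⊢; simp only; omega
  have h6 := hC β n L hβ hn1 hnL j (-w.1, -w.2) hwbox' i
  have e6 : j + ((((-w.1, -w.2) : ℤ × ℤ).1 : ZMod L), (((-w.1, -w.2) : ℤ × ℤ).2 : ZMod L)) =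
      emb L i u := by
    rw [← hmid]
    unfold emb
    ext
    · simp only [Prod.fst_add]
      push_cast
      ring
    · simp only [Prod.snd_add]
      push_cast
      ring
  rw [e6] at h6
  calc (1 - 2 * ε) * ZG (torus L) β ≤ (1 - ε) * ((1 - ε) * ZG (torus L) β) := by
        nlinarith [mul_nonneg (sq_nonneg ε) hZ.le]
    _ ≤ (1 - ε) * NG (torus L) β i (emb L i u) :=
        mul_le_mul_of_nonneg_left h5 (by linarith)
    _ ≤ NG (torus L) β i j := h6

end Pool.Agent.Lib.Arb
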