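import Mathlib

/-!
# Module G: flows of logarithmic energy in a square box of `ℤ²`
-/

set_option autoImplicit false
set_option linter.unusedSectionVars false
set_option linter.unusedVariables false
set_option linter.unusedSimpArgs false

namespace Pool.Agent.Lib.Arb

/-- The box `[-n, n]²`. -/
noncomputable def box (n : ℕ) : Finset (ℤ × ℤ) :=
  Finset.Icc (-(n : ℤ)) n ×ˢ Finset.Icc (-(n : ℤ)) n

/-- Nearest neighbours in `ℤ²`. -/
def Adj4 (z w : ℤ × ℤ) : Prop := (w.1 - z.1).natAbs + (w.2 - z.2).natAbs = 1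

/-- There is a flow inside `D` representing the functional `T` with energy at most `E`. -/
def HasFlow (D : Finset (ℤ × ℤ)) (T : (ℤ × ℤ → ℝ) → ℝ) (E : ℝ) : Prop :=
  ∃ θ : ℤ × ℤ → ℤ × ℤ → ℝ,
    (∀ a b, θ a b ≠ 0 → a ∈ D ∧ b ∈ D ∧ Adj4 a b) ∧
    (∀ v : ℤ × ℤ → ℝ, ∑ a ∈ D, ∑ b ∈ D, θ a b * (v b - v a) = T v) ∧
    ∑ a ∈ D, ∑ b ∈ D, θ a b ^ 2 ≤ E

theorem HasFlow.add {D : Finset (ℤ × ℤ)} {T₁ T₂ : (ℤ × ℤ → ℝ) → ℝ} {E₁ E₂ : ℝ}
    (h₁ : HasFlow D T₁ E₁) (h₂ : HasFlow D T₂ E₂) :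
    HasFlow D (fun v => T₁ v + T₂ v) (2 * E₁ + 2 * E₂) := by
  obtain ⟨θ₁, s₁, r₁, e₁⟩ := h₁
  obtain ⟨θ₂, s₂, r₂, e₂⟩ := h₂
  refine ⟨fun a b => θ₁ a b + θ₂ a b, ?_, ?_, ?_⟩
  · intro a b h
    by_cases h1 : θ₁ a b = 0
    · have h2 : θ₂ a b ≠ 0 := by
        intro h2
        apply h
        simp [h1, h2]
      exact s₂ a b h2
    · exact s₁ a b h1
  · intro v
    beta_reduce
    rw [← r₁ v, ← r₂ v, ← Finset.sum_add_distrib]
    refine Finset.sum_congr rfl fun a _ => ?_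
    rw [← Finset.sum_add_distrib]
    exact Finset.sum_congr rfl fun b _ => by ring
  · calc ∑ a ∈ D, ∑ b ∈ D, (θ₁ a b + θ₂ a b) ^ 2
        ≤ ∑ a ∈ D, ∑ b ∈ D, (2 * θ₁ a b ^ 2 + 2 * θ₂ a b ^ 2) :=
          Finset.sum_le_sum fun a _ => Finset.sum_le_sum fun b _ => by
            nlinarith [sq_nonneg (θ₁ a b - θ₂ a b)]
      _ = 2 * (∑ a ∈ D, ∑ b ∈ D, θ₁ a b ^ 2) + 2 * ∑ a ∈ D, ∑ b ∈ D, θ₂ a b ^ 2 := by
          simp only [Finset.sum_add_distrib, Finset.mul_sum]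
      _ ≤ 2 * E₁ + 2 * E₂ := by linarith

theorem HasFlow.neg {D : Finset (ℤ × ℤ)} {T : (ℤ × ℤ → ℝ) → ℝ} {E : ℝ}
    (h : HasFlow D T E) : HasFlow D (fun v => -T v) E := by
  obtain ⟨θ, s, r, e⟩ := h
  refine ⟨fun a b => -θ a b, fun a b h => s a b (by simpa using h), fun v => ?_, ?_⟩
  · beta_reduce
    rw [← r v]
    simp only [neg_mul, Finset.sum_neg_distrib]
  · simpa using e

theorem HasFlow.congr {D : Finset (ℤ × ℤ)} {T T' : (ℤ × ℤ → ℝ) → ℝ} {E E' : ℝ}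
    (h : HasFlow D T E) (hT : ∀ v, T v = T' v) (hE : E ≤ E') : HasFlow D T' E' := by
  obtain ⟨θ, s, r, e⟩ := h
  exact ⟨θ, s, fun v => (r v).trans (hT v), e.trans hE⟩

/-- Flow from a family of directed edges. -/
theorem of_family {ι : Type} (D : Finset (ℤ × ℤ)) (I : Finset ι) (s t : ι → ℤ × ℤ) (c : ι → ℝ)
    (hinj : ∀ e ∈ I, ∀ e' ∈ I, s e = s e' → t e = t e' → e = e')
    (hmem : ∀ e ∈ I, s e ∈ D ∧ t e ∈ D ∧ Adj4 (s e) (t e)) (E : ℝ) (hE : ∑ e ∈ I, c e ^ 2 ≤ E) :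
    HasFlow D (fun v => ∑ e ∈ I, c e * (v (t e) - v (s e))) E := by
  classical
  set θ : ℤ × ℤ → ℤ × ℤ → ℝ := fun a b => ∑ e ∈ I, if s e = a ∧ t e = b then c e else 0 with hθ
  have key : ∀ F : ℤ × ℤ → ℤ × ℤ → ℝ → ℝ, (∀ a b, F a b 0 = 0) →
      ∑ a ∈ D, ∑ b ∈ D, F a b (θ a b) = ∑ e ∈ I, F (s e) (t e) (c e) := by
    intro F hF
    have h1 : ∀ a b, F a b (θ a b) = ∑ e ∈ I, if s e = a ∧ t e = b then F a b (c e) else 0 := by
      intro a b
      by_cases h : ∃ e ∈ I, s e = a ∧ t e = b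
      · obtain ⟨e, he, hs, ht⟩ := h
        have h2 : ∀ f : ι → ℝ, ∑ e' ∈ I, (if s e' = a ∧ t e' = b then f e' else 0) = f e := by
          intro f
          rw [Finset.sum_eq_single e]
          · rw [if_pos ⟨hs, ht⟩]
          · intro e' he' hne
            rw [if_neg]
            rintro ⟨hs', ht'⟩
            exact hne (hinj e' he' e he (hs'.trans hs.symm) (ht'.trans ht.symm))
          · exact fun h => absurd he h
        simp only [hθ]
        rw [h2, h2 (fun e => F a b (c e))]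
      · push Not at h
        have h2 : ∀ f : ι → ℝ, ∑ e' ∈ I, (if s e' = a ∧ t e' = b then f e' else 0) = 0 := by
          intro f
          refine Finset.sum_eq_zero fun e' he' => ?_
          rw [if_neg]
          rintro ⟨hs', ht'⟩
          exact h e' he' hs' ht'
        simp only [hθ]
        rw [h2, h2 (fun e => F a b (c e)), hF]
    simp only [h1]
    have h3 : ∀ a, ∑ b ∈ D, ∑ e ∈ I, (if s e = a ∧ t e = b then F a b (c e) else 0) =
        ∑ e ∈ I, ∑ b ∈ D, (if s e = a ∧ t e = b then F a b (c e) else 0) := fun a =>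
      Finset.sum_comm
    simp only [h3]
    rw [Finset.sum_comm]
    refine Finset.sum_congr rfl fun e he => ?_
    obtain ⟨hs, ht, _⟩ := hmem e he
    rw [Finset.sum_eq_single (s e), Finset.sum_eq_single (t e)]
    · rw [if_pos ⟨rfl, rfl⟩]
    · intro b _ hb
      rw [if_neg]
      exact fun h => hb h.2.symm
    · exact fun h => absurd ht h
    · intro a _ ha
      refine Finset.sum_eq_zero fun b _ => ?_
      rw [if_neg]
      exact fun h => ha h.1.symm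
    · exact fun h => absurd hs h
  refine ⟨θ, ?_, ?_, ?_⟩
  · intro a b h
    obtain ⟨e, he, hne⟩ := Finset.exists_ne_zero_of_sum_ne_zero h
    by_cases h' : s e = a ∧ t e = b
    · obtain ⟨rfl, rfl⟩ := h'
      exact hmem e he
    · rw [if_neg h'] at hne
      exact absurd rfl hne
  · intro v
    exact key (fun a b x => x * (v b - v a)) (fun a b => by simp)
  · rw [key (fun a b x => x ^ 2) (fun a b => by simp)]
    exact hE

section polya

variable (o : ℤ × ℤ) (e₁ e₂ : ℤ)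

/-- Points of the quadrant with corner `o`. -/
def pt (i j : ℕ) : ℤ × ℤ := (o.1 + e₁ * i, o.2 + e₂ * j)

theorem pt_inj {e₁ e₂ : ℤ} (h₁ : e₁ = 1 ∨ e₁ = -1) (h₂ : e₂ = 1 ∨ e₂ = -1) {i j i' j' : ℕ}
    (h : pt o e₁ e₂ i j = pt o e₁ e₂ i' j') : i = i' ∧ j = j' := by
  unfold pt at h
  rw [Prod.ext_iff] at h
  obtain ⟨h3, h4⟩ := h
  simp only at h3 h4
  rcases h₁ with rfl | rfl <;> rcases h₂ with rfl | rfl <;> constructor <;> omega

theorem adj_pt_right {e₁ e₂ : ℤ} (h₁ : e₁ = 1 ∨ e₁ = -1) (i j : ℕ) :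
    Adj4 (pt o e₁ e₂ i j) (pt o e₁ e₂ (i + 1) j) := by
  unfold Adj4 pt
  simp only
  push_cast
  rcases h₁ with rfl | rfl <;> omega

theorem adj_pt_up {e₁ e₂ : ℤ} (h₂ : e₂ = 1 ∨ e₂ = -1) (i j : ℕ) :
    Adj4 (pt o e₁ e₂ i j) (pt o e₁ e₂ i (j + 1)) := by
  unfold Adj4 pt
  simp only
  push_cast
  rcases h₂ with rfl | rfl <;> omega

/-- Average over the antidiagonal. -/
noncomputable def avg (v : ℕ → ℕ → ℝ) (k : ℕ) : ℝ :=
  (∑ i ∈ Finset.range (k + 1), v i (k - i)) / (k + 1)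

theorem avg_step (v : ℕ → ℕ → ℝ) (k : ℕ) :
    (∑ i ∈ Finset.range (k + 1), ((i + 1 : ℝ) / ((k + 1) * (k + 2))) *
        (v (i + 1) (k - i) - v i (k - i))) +
      ∑ i ∈ Finset.range (k + 1), (((k - i : ℕ) + 1 : ℝ) / ((k + 1) * (k + 2))) *
        (v i (k - i + 1) - v i (k - i)) = avg v (k + 1) - avg v k := by
  have hk : (k + 1 : ℝ) ≠ 0 := by positivity
  have hk2 : (k + 2 : ℝ) ≠ 0 := by positivity
  have h1 : ∑ i ∈ Finset.range (k + 1), (i + 1 : ℝ) * v (i + 1) (k - i) =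
      ∑ i ∈ Finset.range (k + 2), (i : ℝ) * v i (k + 1 - i) := by
    rw [Finset.sum_range_succ' (fun i : ℕ => (i : ℝ) * v i (k + 1 - i)) (k + 1)]
    simp only [Nat.cast_zero, zero_mul, add_zero]
    refine Finset.sum_congr rfl fun i hi => ?_
    have : k + 1 - (i + 1) = k - i := by omega
    rw [this]
    push_cast
    ring
  have h2 : ∑ i ∈ Finset.range (k + 1), ((k - i : ℕ) + 1 : ℝ) * v i (k - i + 1) =
      ∑ i ∈ Finset.range (k + 2), ((k + 1 - i : ℕ) : ℝ) * v i (k + 1 - i) := by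
    rw [Finset.sum_range_succ (fun i : ℕ => ((k + 1 - i : ℕ) : ℝ) * v i (k + 1 - i)) (k + 1)]
    have h0 : k + 1 - (k + 1) = 0 := by omega
    rw [h0]
    simp only [Nat.cast_zero, zero_mul, add_zero]
    refine Finset.sum_congr rfl fun i hi => ?_
    rw [Finset.mem_range] at hi
    have : k + 1 - i = k - i + 1 := by omega
    rw [this]
    push_cast
    ring
  have h3 : ∑ i ∈ Finset.range (k + 2), (i : ℝ) * v i (k + 1 - i) +
      ∑ i ∈ Finset.range (k + 2), ((k + 1 - i : ℕ) : ℝ) * v i (k + 1 - i) =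
      (k + 1) * ∑ i ∈ Finset.range (k + 2), v i (k + 1 - i) := by
    rw [← Finset.sum_add_distrib, Finset.mul_sum]
    refine Finset.sum_congr rfl fun i hi => ?_
    rw [Finset.mem_range] at hi
    have h4 : (i : ℝ) + ((k + 1 - i : ℕ) : ℝ) = k + 1 := by
      have : i + (k + 1 - i) = k + 1 := by omega
      exact_mod_cast this
    rw [← add_mul, h4]
  have h5 : ∑ i ∈ Finset.range (k + 1), ((i + 1 : ℝ) * v i (k - i) +
      ((k - i : ℕ) + 1 : ℝ) * v i (k - i)) = (k + 2) * ∑ i ∈ Finset.range (k + 1), v i (k - i) := by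
    rw [Finset.mul_sum]
    refine Finset.sum_congr rfl fun i hi => ?_
    rw [Finset.mem_range] at hi
    have h4 : (i : ℝ) + ((k - i : ℕ) : ℝ) = k := by
      have : i + (k - i) = k := by omega
      exact_mod_cast this
    rw [← add_mul]
    congr 1
    linarith
  have h6 : (∑ i ∈ Finset.range (k + 1), ((i + 1 : ℝ) / ((k + 1) * (k + 2))) *
        (v (i + 1) (k - i) - v i (k - i))) +
      ∑ i ∈ Finset.range (k + 1), (((k - i : ℕ) + 1 : ℝ) / ((k + 1) * (k + 2))) *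
        (v i (k - i + 1) - v i (k - i)) =
      ((∑ i ∈ Finset.range (k + 1), (i + 1 : ℝ) * v (i + 1) (k - i)) +
        (∑ i ∈ Finset.range (k + 1), ((k - i : ℕ) + 1 : ℝ) * v i (k - i + 1)) -
        ∑ i ∈ Finset.range (k + 1), ((i + 1 : ℝ) * v i (k - i) +
      ((k - i : ℕ) + 1 : ℝ) * v i (k - i))) / ((k + 1) * (k + 2)) := by
    rw [← Finset.sum_add_distrib, ← Finset.sum_add_distrib, ← Finset.sum_sub_distrib,
      Finset.sum_div]
    refine Finset.sum_congr rfl fun i _ => ?_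
    ring
  rw [h6, h1, h2, h3, h5]
  unfold avg
  push_cast
  field_simp
  ring

theorem avg_zero (v : ℕ → ℕ → ℝ) : avg v 0 = v 0 0 := by simp [avg]

theorem sum_one_div_le (n : ℕ) (hn : 1 ≤ n) :
    ∑ k ∈ Finset.range n, 1 / ((k : ℝ) + 1) ≤ 1 + Real.log n := by
  have h := harmonic_le_one_add_log n
  rw [harmonic] at h
  push_cast at h
  simpa [one_div] using h

/-- The Polya urn flow from the corner to the uniform measure on the `n`-th antidiagonal. -/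
theorem polya_flow {e₁ e₂ : ℤ} (h₁ : e₁ = 1 ∨ e₁ = -1) (h₂ : e₂ = 1 ∨ e₂ = -1) (n : ℕ)
    (hn : 1 ≤ n) (D : Finset (ℤ × ℤ)) (hD : ∀ i j : ℕ, i + j ≤ n → pt o e₁ e₂ i j ∈ D) :
    HasFlow D (fun v => avg (fun i j => v (pt o e₁ e₂ i j)) n - v (pt o e₁ e₂ 0 0))
      (4 * (1 + Real.log n)) := by
  set I : Finset (Σ _ : ℕ, ℕ) := (Finset.range n).sigma fun k => Finset.range (k + 1) with hI
  have hIm : ∀ e ∈ I, e.1 < n ∧ e.2 ≤ e.1 := by
    intro e he
    simp only [hI, Finset.mem_sigma, Finset.mem_range] at he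
    exact ⟨he.1, Nat.lt_succ_iff.mp he.2⟩
  have hsum : ∀ c : ℕ → ℕ → ℝ, (∀ k i, i ≤ k → 0 ≤ c k i ∧ c k i ≤ 1 / (k + 2)) →
      ∑ e ∈ I, c e.1 e.2 ^ 2 ≤ 1 + Real.log n := by
    intro c hc
    rw [hI, Finset.sum_sigma]
    refine le_trans (Finset.sum_le_sum fun k hk => ?_) (sum_one_div_le n hn)
    calc ∑ i ∈ Finset.range (k + 1), c k i ^ 2
        ≤ ∑ i ∈ Finset.range (k + 1), (1 / ((k : ℝ) + 2)) ^ 2 := by
          refine Finset.sum_le_sum fun i hi => ?_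
          rw [Finset.mem_range] at hi
          obtain ⟨h3, h4⟩ := hc k i (by omega)
          exact pow_le_pow_left₀ h3 h4 2
      _ = ((k : ℝ) + 1) * (1 / ((k : ℝ) + 2)) ^ 2 := by simp
      _ ≤ 1 / ((k : ℝ) + 1) := by
          rw [div_pow, one_pow, mul_one_div, div_le_div_iff₀ (by positivity) (by positivity)]
          nlinarith
  have hH : HasFlow D (fun v => ∑ e ∈ I, ((e.2 + 1 : ℝ) / ((e.1 + 1) * (e.1 + 2))) *
      (v (pt o e₁ e₂ (e.2 + 1) (e.1 - e.2)) - v (pt o e₁ e₂ e.2 (e.1 - e.2))))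
      (1 + Real.log n) := by
    refine of_family D I (fun e => pt o e₁ e₂ e.2 (e.1 - e.2))
      (fun e => pt o e₁ e₂ (e.2 + 1) (e.1 - e.2)) (fun e => (e.2 + 1 : ℝ) / ((e.1 + 1) * (e.1 + 2)))
      ?_ ?_ _ ?_
    · intro e he e' he' hs ht
      obtain ⟨h3, h4⟩ := pt_inj o h₁ h₂ hs
      have h5 := hIm e he
      have h6 := hIm e' he'
      have h7 : e.1 = e'.1 := by omega
      exact Sigma.ext h7 (heq_of_eq h3)
    · intro e he
      have h5 := hIm e he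
      exact ⟨hD _ _ (by omega), hD _ _ (by omega), adj_pt_right o h₁ _ _⟩
    · refine hsum (fun k i => (i + 1 : ℝ) / ((k + 1) * (k + 2))) fun k i hik => ⟨by positivity, ?_⟩
      have : (i : ℝ) ≤ k := by exact_mod_cast hik
      rw [div_le_div_iff₀ (by positivity) (by positivity)]
      nlinarith
  have hV : HasFlow D (fun v => ∑ e ∈ I, (((e.1 - e.2 : ℕ) + 1 : ℝ) / ((e.1 + 1) * (e.1 + 2))) *
      (v (pt o e₁ e₂ e.2 (e.1 - e.2 + 1)) - v (pt o e₁ e₂ e.2 (e.1 - e.2))))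
      (1 + Real.log n) := by
    refine of_family D I (fun e => pt o e₁ e₂ e.2 (e.1 - e.2))
      (fun e => pt o e₁ e₂ e.2 (e.1 - e.2 + 1))
      (fun e => ((e.1 - e.2 : ℕ) + 1 : ℝ) / ((e.1 + 1) * (e.1 + 2))) ?_ ?_ _ ?_
    · intro e he e' he' hs ht
      obtain ⟨h3, h4⟩ := pt_inj o h₁ h₂ hs
      have h5 := hIm e he
      have h6 := hIm e' he'
      have h7 : e.1 = e'.1 := by omega
      exact Sigma.ext h7 (heq_of_eq h3)
    · intro e he
      have h5 := hIm e he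
      exact ⟨hD _ _ (by omega), hD _ _ (by omega), adj_pt_up o h₂ _ _⟩
    · refine hsum (fun k i => ((k - i : ℕ) + 1 : ℝ) / ((k + 1) * (k + 2))) fun k i hik =>
        ⟨by positivity, ?_⟩
      have : ((k - i : ℕ) : ℝ) ≤ k := by exact_mod_cast Nat.sub_le k i
      rw [div_le_div_iff₀ (by positivity) (by positivity)]
      nlinarith
  refine (hH.add hV).congr (fun v => ?_) (by linarith)
  rw [hI, Finset.sum_sigma, Finset.sum_sigma, ← Finset.sum_add_distrib]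
  have h3 : ∀ k ∈ Finset.range n, (∑ i ∈ Finset.range (k + 1), ((i + 1 : ℝ) /
      ((k + 1) * (k + 2))) * (v (pt o e₁ e₂ (i + 1) (k - i)) - v (pt o e₁ e₂ i (k - i)))) +
      (∑ i ∈ Finset.range (k + 1), (((k - i : ℕ) + 1 : ℝ) / ((k + 1) * (k + 2))) *
      (v (pt o e₁ e₂ i (k - i + 1)) - v (pt o e₁ e₂ i (k - i)))) =
      avg (fun i j => v (pt o e₁ e₂ i j)) (k + 1) - avg (fun i j => v (pt o e₁ e₂ i j)) k :=
    fun k _ => avg_step (fun i j => v (pt o e₁ e₂ i j)) k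
  rw [Finset.sum_congr rfl h3, Finset.sum_range_sub, avg_zero]

end polya

/-- Moving the antidiagonal. -/
theorem shift_flow {e₁ e₂ : ℤ} (h₁ : e₁ = 1 ∨ e₁ = -1) (h₂ : e₂ = 1 ∨ e₂ = -1) (n d₁ d₂ : ℕ)
    (hn : 1 ≤ n) (hd₁ : d₁ ≤ n) (hd₂ : d₂ ≤ n) :
    HasFlow (box n) (fun v =>
      (∑ i ∈ Finset.range (n + 1), v (e₁ * ((i : ℤ) - d₁), e₂ * (((n - i : ℕ) : ℤ) - d₂))) / (n + 1) -
      (∑ i ∈ Finset.range (n + 1), v (e₁ * (i : ℤ), e₂ * ((n - i : ℕ) : ℤ))) / (n + 1)) 4 := by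
  have hbox : ∀ a b : ℤ, -(n : ℤ) ≤ a → a ≤ n → -(n : ℤ) ≤ b → b ≤ n → (e₁ * a, e₂ * b) ∈ box n := by
    intro a b h3 h4 h5 h6
    simp only [box, Finset.mem_product, Finset.mem_Icc]
    rcases h₁ with rfl | rfl <;> rcases h₂ with rfl | rfl <;> constructor <;> constructor <;> omega
  have hen : ∀ d : ℕ, d ≤ n → ∑ e ∈ Finset.range (n + 1) ×ˢ Finset.range d,
      (1 / ((n : ℝ) + 1)) ^ 2 ≤ 1 := by
    intro d hd
    rw [Finset.sum_const, Finset.card_product, Finset.card_range, Finset.card_range, nsmul_eq_mul,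
      div_pow, one_pow, mul_one_div, div_le_one (by positivity)]
    have : (d : ℝ) ≤ n := by exact_mod_cast hd
    push_cast
    nlinarith
  have hH : HasFlow (box n) (fun v => ∑ e ∈ Finset.range (n + 1) ×ˢ Finset.range d₁,
      (1 / ((n : ℝ) + 1)) * (v (e₁ * ((e.1 : ℤ) - (e.2 + 1 : ℕ)), e₂ * ((n - e.1 : ℕ) : ℤ)) -
        v (e₁ * ((e.1 : ℤ) - (e.2 : ℕ)), e₂ * ((n - e.1 : ℕ) : ℤ)))) 1 := by
    refine of_family (box n) (Finset.range (n + 1) ×ˢ Finset.range d₁)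
      (fun e => (e₁ * ((e.1 : ℤ) - (e.2 : ℕ)), e₂ * ((n - e.1 : ℕ) : ℤ)))
      (fun e => (e₁ * ((e.1 : ℤ) - (e.2 + 1 : ℕ)), e₂ * ((n - e.1 : ℕ) : ℤ)))
      (fun _ => 1 / ((n : ℝ) + 1)) ?_ ?_ 1 (hen d₁ hd₁)
    · rintro ⟨i, r⟩ he ⟨i', r'⟩ he' hs _
      simp only [Finset.mem_product, Finset.mem_range] at he he'
      simp only [Prod.mk.injEq] at hs ⊢
      obtain ⟨h3, h4⟩ := hs
      rcases h₁ with rfl | rfl <;> rcases h₂ with rfl | rfl <;> constructor <;> omega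
    · rintro ⟨i, r⟩ he
      simp only [Finset.mem_product, Finset.mem_range] at he
      refine ⟨hbox _ _ ?_ ?_ ?_ ?_, hbox _ _ ?_ ?_ ?_ ?_, ?_⟩
      · push_cast; omega
      · push_cast; omega
      · push_cast; omega
      · omega
      · push_cast; omega
      · push_cast; omega
      · push_cast; omega
      · omega
      · unfold Adj4
        simp only
        push_cast
        rcases h₁ with rfl | rfl <;> omega
  have hV : HasFlow (box n) (fun v => ∑ e ∈ Finset.range (n + 1) ×ˢ Finset.range d₂,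
      (1 / ((n : ℝ) + 1)) *
        (v (e₁ * ((e.1 : ℤ) - d₁), e₂ * (((n - e.1 : ℕ) : ℤ) - (e.2 + 1 : ℕ))) -
        v (e₁ * ((e.1 : ℤ) - d₁), e₂ * (((n - e.1 : ℕ) : ℤ) - (e.2 : ℕ))))) 1 := by
    refine of_family (box n) (Finset.range (n + 1) ×ˢ Finset.range d₂)
      (fun e => (e₁ * ((e.1 : ℤ) - d₁), e₂ * (((n - e.1 : ℕ) : ℤ) - (e.2 : ℕ))))
      (fun e => (e₁ * ((e.1 : ℤ) - d₁), e₂ * (((n - e.1 : ℕ) : ℤ) - (e.2 + 1 : ℕ))))
      (fun _ => 1 / ((n : ℝ) + 1)) ?_ ?_ 1 (hen d₂ hd₂)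
    · rintro ⟨i, r⟩ he ⟨i', r'⟩ he' hs _
      simp only [Finset.mem_product, Finset.mem_range] at he he'
      simp only [Prod.mk.injEq] at hs ⊢
      obtain ⟨h3, h4⟩ := hs
      rcases h₁ with rfl | rfl <;> rcases h₂ with rfl | rfl <;> constructor <;> omega
    · rintro ⟨i, r⟩ he
      simp only [Finset.mem_product, Finset.mem_range] at he
      refine ⟨hbox _ _ ?_ ?_ ?_ ?_, hbox _ _ ?_ ?_ ?_ ?_, ?_⟩
      · omega
      · omega
      · push_cast; omega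
      · push_cast; omega
      · omega
      · omega
      · push_cast; omega
      · push_cast; omega
      · unfold Adj4
        simp only
        push_cast
        rcases h₂ with rfl | rfl <;> omega
  refine (hH.add hV).congr (fun v => ?_) (by norm_num)
  rw [Finset.sum_product, Finset.sum_product]
  simp only [← Finset.mul_sum]
  have h3 : ∀ i : ℕ, ∑ r ∈ Finset.range d₁, (v (e₁ * ((i : ℤ) - (r + 1 : ℕ)),
      e₂ * ((n - i : ℕ) : ℤ)) - v (e₁ * ((i : ℤ) - (r : ℕ)), e₂ * ((n - i : ℕ) : ℤ))) =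
      v (e₁ * ((i : ℤ) - d₁), e₂ * ((n - i : ℕ) : ℤ)) - v (e₁ * (i : ℤ), e₂ * ((n - i : ℕ) : ℤ)) := by
    intro i
    rw [Finset.sum_range_sub (fun r : ℕ => v (e₁ * ((i : ℤ) - r), e₂ * ((n - i : ℕ) : ℤ)))]
    simp
  have h4 : ∀ i : ℕ, ∑ r ∈ Finset.range d₂, (v (e₁ * ((i : ℤ) - d₁),
      e₂ * (((n - i : ℕ) : ℤ) - (r + 1 : ℕ))) -
        v (e₁ * ((i : ℤ) - d₁), e₂ * (((n - i : ℕ) : ℤ) - (r : ℕ)))) =
      v (e₁ * ((i : ℤ) - d₁), e₂ * (((n - i : ℕ) : ℤ) - d₂)) -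
        v (e₁ * ((i : ℤ) - d₁), e₂ * ((n - i : ℕ) : ℤ)) := by
    intro i
    rw [Finset.sum_range_sub (fun r : ℕ => v (e₁ * ((i : ℤ) - d₁), e₂ * (((n - i : ℕ) : ℤ) - r)))]
    simp
  simp only [h3, h4, Finset.sum_sub_distrib]
  ring

/-- From the centre of the box to any point of it there is a unit flow of energy `O(log n)`. -/
theorem exists_box_flow : ∃ C : ℝ, 0 < C ∧ ∀ n : ℕ, 1 ≤ n → ∀ y ∈ box n,
    ∃ θ : ℤ × ℤ → ℤ × ℤ → ℝ,
      (∀ a b, θ a b ≠ 0 → a ∈ box n ∧ b ∈ box n ∧ Adj4 a b) ∧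
      (∀ v : ℤ × ℤ → ℝ, ∑ a ∈ box n, ∑ b ∈ box n, θ a b * (v b - v a) = v y - v 0) ∧
      ∑ a ∈ box n, ∑ b ∈ box n, θ a b ^ 2 ≤ C * (1 + Real.log n) := by
  refine ⟨40, by norm_num, ?_⟩
  intro n hn y hy
  have hlog : 0 ≤ Real.log n := Real.log_nonneg (by exact_mod_cast hn)
  -- signs and absolute values
  have hsign : ∀ a : ℤ, -(n : ℤ) ≤ a → a ≤ n → ∃ (e : ℤ) (p : ℕ), (e = 1 ∨ e = -1) ∧ p ≤ n ∧
      a = e * p := by
    intro a h1 h2
    rcases le_total 0 a with h | h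
    · exact ⟨1, a.toNat, Or.inl rfl, by omega, by omega⟩
    · exact ⟨-1, (-a).toNat, Or.inr rfl, by omega, by omega⟩
  simp only [box, Finset.mem_product, Finset.mem_Icc] at hy
  obtain ⟨e₁, p, h₁, hp, hy1⟩ := hsign y.1 hy.1.1 hy.1.2
  obtain ⟨e₂, q, h₂, hq, hy2⟩ := hsign y.2 hy.2.1 hy.2.2
  have F1 := polya_flow (0 : ℤ × ℤ) h₁ h₂ n hn (box n) (by
    intro i j hij
    simp only [pt, box, Finset.mem_product, Finset.mem_Icc, Prod.fst_zero, Prod.snd_zero, zero_add]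
    rcases h₁ with rfl | rfl <;> rcases h₂ with rfl | rfl <;> constructor <;> constructor <;> omega)
  have F2 := shift_flow h₁ h₂ n (n - p) (n - q) hn (by omega) (by omega)
  have h₁' : -e₁ = 1 ∨ -e₁ = -1 := by rcases h₁ with rfl | rfl <;> simp
  have h₂' : -e₂ = 1 ∨ -e₂ = -1 := by rcases h₂ with rfl | rfl <;> simp
  have F3 := (polya_flow y h₁' h₂' n hn (box n) (by
    intro i j hij
    simp only [pt, box, Finset.mem_product, Finset.mem_Icc]
    rw [hy1, hy2]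
    rcases h₁ with rfl | rfl <;> rcases h₂ with rfl | rfl <;> constructor <;> constructor <;>
      omega)).neg
  refine ((F1.add F2).add F3).congr (fun v => ?_) (by linarith)
  have g1 : avg (fun i j => v (pt 0 e₁ e₂ i j)) n =
      (∑ i ∈ Finset.range (n + 1), v (e₁ * (i : ℤ), e₂ * ((n - i : ℕ) : ℤ))) / (n + 1) := by
    unfold avg pt
    simp
  have g2 : avg (fun i j => v (pt y (-e₁) (-e₂) i j)) n =
      (∑ i ∈ Finset.range (n + 1), v (e₁ * ((i : ℤ) - (n - p : ℕ)),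
        e₂ * (((n - i : ℕ) : ℤ) - (n - q : ℕ)))) / (n + 1) := by
    unfold avg
    congr 1
    rw [← Finset.sum_range_reflect]
    refine Finset.sum_congr rfl fun i hi => ?_
    rw [Finset.mem_range] at hi
    unfold pt
    have e3 : n + 1 - 1 - i = n - i := by omega
    have e4 : n - (n - i) = i := by omega
    rw [e3, e4, hy1, hy2]
    have c1 : ((n - i : ℕ) : ℤ) = n - i := by omega
    have c2 : ((n - p : ℕ) : ℤ) = n - p := by omega
    have c3 : ((n - q : ℕ) : ℤ) = n - q := by omega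
    refine congrArg v (Prod.ext ?_ ?_)
    · simp only [c1, c2]
      ring
    · simp only [c1, c3]
      ring
  have g3 : pt 0 e₁ e₂ 0 0 = 0 := by simp [pt]
  have g4 : pt y (-e₁) (-e₂) 0 0 = y := by simp [pt]
  rw [g1, g2, g3, g4]
  ring

end Pool.Agent.Lib.Arb
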