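import Mathlib

/-!
# The arboreal gas on the two-dimensional torus: definitions
-/

set_option autoImplicit false

namespace Pool.Agent.Lib.Arb

variable {V : Type} [Fintype V]

open Classical in
/-- The spanning forests of `G`, as sets of edges. -/
noncomputable def forests (G : SimpleGraph V) : Finset (Finset (Sym2 V)) :=
  G.edgeFinset.powerset.filter fun F =>
    (SimpleGraph.fromEdgeSet (F : Set (Sym2 V))).IsAcyclic

/-- The vertices `i` and `j` lie in the same tree of the spanning forest `F`. -/
def InSameTree (F : Finset (Sym2 V)) (i j : V) : Prop :=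
  (SimpleGraph.fromEdgeSet (F : Set (Sym2 V))).Reachable i j

open Classical in
/-- The probability of the event `p` under the arboreal gas on `G` with parameter `β`. -/
noncomputable def gasProb (G : SimpleGraph V) (β : ℝ) (p : Finset (Sym2 V) → Prop) : ℝ :=
  (∑ F ∈ (forests G).filter p, β ^ F.card) / ∑ F ∈ forests G, β ^ F.card

/-- The connection probability `ℙ_{β,G}[i ↔ j]`. -/
noncomputable def connProb (G : SimpleGraph V) (β : ℝ) (i j : V) : ℝ :=
  gasProb G β fun F => InSameTree F i j

open Classical in
/-- The expected number of vertices of the tree which contains `i`. -/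
noncomputable def meanTreeSize (G : SimpleGraph V) (β : ℝ) (i : V) : ℝ :=
  (∑ F ∈ forests G, β ^ F.card * ((Finset.univ.filter fun j => InSameTree F i j).card : ℝ)) /
    ∑ F ∈ forests G, β ^ F.card

/-- The torus `(ℤ / L)²` with nearest neighbour edges. -/
def torus (L : ℕ) : SimpleGraph (ZMod L × ZMod L) :=
  SimpleGraph.fromRel fun x y => (y.1 = x.1 + 1 ∧ y.2 = x.2) ∨ (y.1 = x.1 ∧ y.2 = x.2 + 1)

/-- The rates `c > 0` of exponential decay of `ℙ_{β,Λ_L}[i ↔ j]`, uniform in `L`, `i` and `j`. -/
def decayRates (β : ℝ) : Set ℝ :=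
  {c | 0 < c ∧ ∃ C : ℝ, ∀ (L : ℕ) [NeZero L] (i j : ZMod L × ZMod L),
    connProb (torus L) β i j ≤ C * Real.exp (-(c * (torus L).dist i j))}

/-- The mass `m(β)`: the supremum of the rates of exponential decay (`0` if there is none). -/
noncomputable def mass (β : ℝ) : ℝ := sSup (decayRates β)

end Pool.Agent.Lib.Arb
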