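import Pool.Agent.Lib.Arb.Comb
import Pool.Agent.Lib.Arb.Gas

/-!
# Module I: spanning forests of a simple graph and the list recursion
-/

set_option autoImplicit false

namespace Pool.Agent.Lib.Arb

variable {V : Type} [Fintype V]

/-- The partition function of the arboreal gas. -/
noncomputable def ZG (G : SimpleGraph V) (β : ℝ) : ℝ := ∑ F ∈ forests G, β ^ F.card

open Classical in
/-- The weight of the forests which connect `i` and `j`. -/
noncomputable def NG (G : SimpleGraph V) (β : ℝ) (i j : V) : ℝ :=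
  ∑ F ∈ (forests G).filter (fun F : Finset (Sym2 V) =>
    (SimpleGraph.fromEdgeSet (F : Set (Sym2 V))).Reachable i j), β ^ F.card

/-! ### adding an edge to a forest -/

section aux

omit [Fintype V]

/-- The graph of a finite set of edges. -/
def fg (F : Finset (Sym2 V)) : SimpleGraph V := SimpleGraph.fromEdgeSet (F : Set (Sym2 V))

/-- The connection relation of a finite set of edges. -/
def rS (F : Finset (Sym2 V)) : Setoid V := (fg F).reachableSetoid

theorem rS_iff (F : Finset (Sym2 V)) (a b : V) : rS F a b ↔ (fg F).Reachable a b := Iff.rfl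

theorem fg_insert [DecidableEq (Sym2 V)] (F : Finset (Sym2 V)) (a b : V) :
    fg (insert s(a, b) F) = fg F ⊔ SimpleGraph.edge a b := by
  unfold fg SimpleGraph.edge
  rw [← SimpleGraph.fromEdgeSet_union, Finset.coe_insert, Set.insert_eq, Set.union_comm]

theorem rS_insert [DecidableEq (Sym2 V)] (F : Finset (Sym2 V)) {a b : V} (hab : a ≠ b) :
    rS (insert s(a, b) F) = joinS (rS F) a b := by
  apply le_antisymm
  · intro x y h
    change (fg (insert s(a, b) F)).Reachable x y at h
    rw [SimpleGraph.reachable_iff_reflTransGen] at h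
    induction h with
    | refl => exact (joinS (rS F) a b).refl x
    | tail _ h2 ih =>
      refine (joinS (rS F) a b).trans ih ?_
      rw [fg_insert, SimpleGraph.sup_adj, SimpleGraph.edge_adj] at h2
      rcases h2 with h2 | ⟨(⟨rfl, rfl⟩ | ⟨rfl, rfl⟩), _⟩
      · exact le_joinS _ _ _ (SimpleGraph.Adj.reachable h2)
      · exact joinS_self _ _ _
      · exact (joinS _ _ _).symm (joinS_self _ _ _)
  · rw [joinS_le_iff]
    constructor
    · intro x y h
      change (fg F).Reachable x y at h
      change (fg (insert s(a, b) F)).Reachable x y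
      rw [fg_insert]
      exact h.mono le_sup_left
    · change (fg (insert s(a, b) F)).Reachable a b
      rw [fg_insert]
      refine SimpleGraph.Adj.reachable ?_
      rw [SimpleGraph.sup_adj, SimpleGraph.edge_adj]
      exact Or.inr ⟨Or.inl ⟨rfl, rfl⟩, hab⟩

theorem acyclic_insert [DecidableEq (Sym2 V)] {F : Finset (Sym2 V)} {a b : V} (hab : a ≠ b)
    (hF : s(a, b) ∉ F) (h : (fg F).IsAcyclic) :
    (fg (insert s(a, b) F)).IsAcyclic ↔ ¬ rS F a b := by
  rw [fg_insert, SimpleGraph.isAcyclic_sup_fromEdgeSet_iff, rS_iff]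
  have h1 : ¬ (fg F).Adj a b := by
    unfold fg
    rw [SimpleGraph.fromEdgeSet_adj]
    rintro ⟨h1, _⟩
    exact hF (by exact_mod_cast h1)
  tauto

theorem fg_mono {F F' : Finset (Sym2 V)} (h : F ⊆ F') : fg F ≤ fg F' := by
  unfold fg
  exact SimpleGraph.fromEdgeSet_mono (by exact_mod_cast h)

open Classical in
/-- The list recursion computes sums over forests. -/
theorem list_rec (β : ℝ) (φ : Setoid V → ℝ) (f : List (Sym2 V) → Setoid V → ℝ)
    (h1 : ∀ r, f [] r = φ r)
    (h2 : ∀ e L r, f (e :: L) r = f L r + if r (Quot.out e).1 (Quot.out e).2 then 0 else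
      β * f L (joinS r (Quot.out e).1 (Quot.out e).2)) (l : List (Sym2 V)) :
    ∀ F₀ : Finset (Sym2 V), l.Nodup → (∀ e ∈ l, ¬ e.IsDiag) → (∀ e ∈ l, e ∉ F₀) →
      (fg F₀).IsAcyclic →
      f l (rS F₀) = ∑ F ∈ l.toFinset.powerset,
        if (fg (F ∪ F₀)).IsAcyclic then β ^ F.card * φ (rS (F ∪ F₀)) else 0 := by
  induction l with
  | nil =>
    intro F₀ _ _ _ hF
    simp [h1, hF]
  | cons e l ih =>
    intro F₀ hl hd hdis hF
    rw [List.nodup_cons] at hl
    have hd' : ∀ e ∈ l, ¬ e.IsDiag := fun e he => hd e (List.mem_cons_of_mem _ he)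
    have hdis' : ∀ e ∈ l, e ∉ F₀ := fun e he => hdis e (List.mem_cons_of_mem _ he)
    have he : e ∉ l.toFinset := by rw [List.mem_toFinset]; exact hl.1
    rw [h2, List.toFinset_cons, Finset.sum_powerset_insert he, ih F₀ hl.2 hd' hdis' hF]
    congr 1
    obtain ⟨a, b, hab, hout⟩ : ∃ a b, e = s(a, b) ∧ Quot.out e = (a, b) :=
      ⟨(Quot.out e).1, (Quot.out e).2, (Quot.out_eq e).symm, rfl⟩
    rw [hout]
    have hne : a ≠ b := by
      have := hd e List.mem_cons_self
      rwa [hab, Sym2.mk_isDiag_iff] at this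
    have hF₀ : s(a, b) ∉ F₀ := by rw [← hab]; exact hdis e List.mem_cons_self
    have key : ∀ t ∈ l.toFinset.powerset, insert e t ∪ F₀ = t ∪ insert s(a, b) F₀ := by
      intro t _
      rw [← hab, Finset.insert_union, Finset.union_insert]
    have hac := acyclic_insert hne hF₀ hF
    by_cases hr : rS F₀ a b
    · rw [if_pos hr]
      symm
      refine Finset.sum_eq_zero fun t ht => ?_
      rw [key t ht, if_neg]
      intro h
      exact (hac.1 (h.anti (fg_mono Finset.subset_union_right))) hr
    · rw [if_neg hr, ← rS_insert F₀ hne, ih (insert s(a, b) F₀) hl.2 hd' ?_ (hac.2 hr),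
        Finset.mul_sum]
      · refine Finset.sum_congr rfl fun t ht => ?_
        rw [key t ht]
        have hc : (insert e t).card = t.card + 1 := by
          apply Finset.card_insert_of_notMem
          intro h
          exact he (Finset.mem_powerset.1 ht h)
        rw [hc, pow_succ]
        split_ifs <;> ring
      · intro e' he' h
        rw [Finset.mem_insert] at h
        rcases h with h | h
        · rw [← hab] at h
          rw [h] at he'
          exact hl.1 he'
        · exact hdis' e' he' h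

theorem fg_empty : fg (∅ : Finset (Sym2 V)) = ⊥ := by
  unfold fg; simp

theorem rS_empty : rS (∅ : Finset (Sym2 V)) = ⊥ := by
  ext x y
  rw [rS_iff, fg_empty, SimpleGraph.reachable_bot]
  rfl

end aux

theorem ZG_eq (G : SimpleGraph V) (β : ℝ) (l : List (Sym2 V)) (hl : l.Nodup)
    (hl' : ∀ e, e ∈ l ↔ e ∈ G.edgeSet) :
    ZG G β = Zl (fun e => (Quot.out e).1) (fun e => (Quot.out e).2) (fun _ => β) l ⊥ := by
  classical
  have h := list_rec β (fun _ : Setoid V => (1 : ℝ))
    (Zl (fun e => (Quot.out e).1) (fun e => (Quot.out e).2) (fun _ => β))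
    (fun r => rfl) (fun e L r => rfl) l ∅ hl
    (fun e he => SimpleGraph.not_isDiag_of_mem_edgeSet G ((hl' e).1 he)) (fun e _ => by simp)
    (by rw [fg_empty]; exact SimpleGraph.isAcyclic_bot)
  rw [rS_empty] at h
  rw [h]
  unfold ZG forests
  have h3 : l.toFinset = G.edgeFinset := by
    ext e
    rw [List.mem_toFinset, hl', SimpleGraph.mem_edgeFinset]
  rw [Finset.sum_filter, h3]
  refine Finset.sum_congr rfl fun F _ => ?_
  rw [Finset.union_empty, mul_one]
  rfl

theorem NG_eq (G : SimpleGraph V) (β : ℝ) (l : List (Sym2 V)) (hl : l.Nodup)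
    (hl' : ∀ e, e ∈ l ↔ e ∈ G.edgeSet) (i j : V) :
    NG G β i j = Nl (fun e => (Quot.out e).1) (fun e => (Quot.out e).2) (fun _ => β) i j l ⊥ := by
  classical
  have h := list_rec β (fun r : Setoid V => if r i j then (1 : ℝ) else 0)
    (Nl (fun e => (Quot.out e).1) (fun e => (Quot.out e).2) (fun _ => β) i j)
    (fun r => by unfold Nl; congr) (fun e L r => rfl) l ∅ hl
    (fun e he => SimpleGraph.not_isDiag_of_mem_edgeSet G ((hl' e).1 he)) (fun e _ => by simp)
    (by rw [fg_empty]; exact SimpleGraph.isAcyclic_bot)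
  rw [rS_empty] at h
  rw [h]
  unfold NG forests
  have h3 : l.toFinset = G.edgeFinset := by
    ext e
    rw [List.mem_toFinset, hl', SimpleGraph.mem_edgeFinset]
  rw [Finset.sum_filter, Finset.sum_filter, h3]
  refine Finset.sum_congr rfl fun F _ => ?_
  rw [Finset.union_empty]
  by_cases h4 : (SimpleGraph.fromEdgeSet (F : Set (Sym2 V))).IsAcyclic
  · rw [if_pos h4, if_pos (show (fg F).IsAcyclic from h4)]
    by_cases h5 : (SimpleGraph.fromEdgeSet (F : Set (Sym2 V))).Reachable i j
    · rw [if_pos h5, if_pos (show rS F i j from h5), mul_one]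
    · rw [if_neg h5, if_neg (show ¬ rS F i j from h5), mul_zero]
  · rw [if_neg h4, if_neg (show ¬ (fg F).IsAcyclic from h4)]

/-- Sum over the ordered pairs of an edge. -/
theorem sum_fiber [DecidableEq V] (f : V × V → ℝ) (e : Sym2 V) (a b : V) (he : e = s(a, b))
    (hab : a ≠ b) : ∑ p : V × V with s(p.1, p.2) = e, f p = f (a, b) + f (b, a) := by
  have h : (Finset.univ.filter fun p : V × V => s(p.1, p.2) = e) = {(a, b), (b, a)} := by
    ext ⟨c, d⟩
    rw [Finset.mem_filter, he]
    simp only [Finset.mem_univ, true_and, Finset.mem_insert, Finset.mem_singleton, Sym2.eq_iff,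
      Prod.mk.injEq]
  rw [h, Finset.sum_pair]
  intro h'
  exact hab (Prod.mk.injEq _ _ _ _ ▸ h').1

/-- Flows on ordered pairs become flows on edges. -/
theorem flow_edges (G : SimpleGraph V) (l : List (Sym2 V)) (hl : l.Nodup)
    (Θ : V → V → ℝ) (hΘ : ∀ a b, Θ a b ≠ 0 → s(a, b) ∈ l ∧ a ≠ b) :
    ∃ θ : Sym2 V → ℝ,
      (∀ v : V → ℝ, (l.map fun e => θ e * (v (Quot.out e).2 - v (Quot.out e).1)).sum =
        ∑ a, ∑ b, Θ a b * (v b - v a)) ∧
      (l.map fun e => θ e ^ 2).sum ≤ 2 * ∑ a, ∑ b, Θ a b ^ 2 := by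
  classical
  have hout : ∀ e : Sym2 V, e = s((Quot.out e).1, (Quot.out e).2) := fun e => (Quot.out_eq e).symm
  refine ⟨fun e => Θ (Quot.out e).1 (Quot.out e).2 - Θ (Quot.out e).2 (Quot.out e).1,
    fun v => ?_, ?_⟩
  · rw [← List.sum_toFinset _ hl]
    have h1 : ∑ a, ∑ b, Θ a b * (v b - v a) = ∑ p : V × V, Θ p.1 p.2 * (v p.2 - v p.1) := by
      rw [Fintype.sum_prod_type]
    rw [h1, ← Finset.sum_fiberwise Finset.univ (fun p : V × V => s(p.1, p.2))]
    have h2 : ∀ e : Sym2 V, e ∉ l.toFinset →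
        ∑ p : V × V with s(p.1, p.2) = e, Θ p.1 p.2 * (v p.2 - v p.1) = 0 := by
      intro e he
      refine Finset.sum_eq_zero fun p hp => ?_
      rw [Finset.mem_filter] at hp
      have : Θ p.1 p.2 = 0 := by
        by_contra h
        apply he
        rw [List.mem_toFinset, ← hp.2]
        exact (hΘ _ _ h).1
      rw [this, zero_mul]
    rw [← Finset.sum_subset (Finset.subset_univ l.toFinset) fun e _ he => h2 e he]
    refine Finset.sum_congr rfl fun e _ => ?_
    by_cases hab : (Quot.out e).1 = (Quot.out e).2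
    · rw [hab, sub_self, mul_zero]
      symm
      refine Finset.sum_eq_zero fun p hp => ?_
      rw [Finset.mem_filter, hout e, Sym2.eq_iff] at hp
      have : p.1 = p.2 := by
        rcases hp.2 with ⟨h3, h4⟩ | ⟨h3, h4⟩
        · rw [h3, h4, hab]
        · rw [h3, h4, hab]
      rw [this, sub_self, mul_zero]
    · rw [sum_fiber (fun p : V × V => Θ p.1 p.2 * (v p.2 - v p.1)) e _ _ (hout e) hab]
      ring
  · rw [← List.sum_toFinset _ hl]
    have h1 : ∑ a, ∑ b, Θ a b ^ 2 = ∑ p : V × V, Θ p.1 p.2 ^ 2 := by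
      rw [Fintype.sum_prod_type]
    rw [h1, ← Finset.sum_fiberwise Finset.univ (fun p : V × V => s(p.1, p.2)), Finset.mul_sum]
    calc ∑ e ∈ l.toFinset, (Θ (Quot.out e).1 (Quot.out e).2 - Θ (Quot.out e).2 (Quot.out e).1) ^ 2
        ≤ ∑ e ∈ l.toFinset, 2 * ∑ p : V × V with s(p.1, p.2) = e, Θ p.1 p.2 ^ 2 := by
          refine Finset.sum_le_sum fun e _ => ?_
          by_cases hab : (Quot.out e).1 = (Quot.out e).2
          · rw [hab, sub_self]
            have : 0 ≤ ∑ p : V × V with s(p.1, p.2) = e, Θ p.1 p.2 ^ 2 :=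
              Finset.sum_nonneg fun p _ => sq_nonneg _
            nlinarith
          · rw [sum_fiber (fun p : V × V => Θ p.1 p.2 ^ 2) e _ _ (hout e) hab]
            nlinarith [sq_nonneg (Θ (Quot.out e).1 (Quot.out e).2 +
              Θ (Quot.out e).2 (Quot.out e).1)]
      _ ≤ _ := by
          refine Finset.sum_le_sum_of_subset_of_nonneg (Finset.subset_univ _) fun e _ _ => ?_
          have : 0 ≤ ∑ p : V × V with s(p.1, p.2) = e, Θ p.1 p.2 ^ 2 :=
            Finset.sum_nonneg fun p _ => sq_nonneg _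
          linarith

end Pool.Agent.Lib.Arb
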