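import Pool.Agent.Lib.Arb.Push
import Pool.Agent.Lib.Arb.Forest

/-!
# Module J: the main theorem for simple graphs
-/

set_option autoImplicit false
set_option linter.unusedSectionVars false
set_option linter.unusedVariables false
set_option linter.unusedSimpArgs false

namespace Pool.Agent.Lib.Arb

/-- If inside `S` there are unit flows of energy at most `E` from `x` to all points of `S`, then
`ℙ[q ↔ x] ≥ (1 - K E / β) ℙ[q ↔ y]` for all `y ∈ S` and all `q`. -/
theorem general_graph : ∃ K : ℝ, 0 < K ∧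
    ∀ (V : Type) [Fintype V] (G : SimpleGraph V) (β : ℝ), 0 < β →
    ∀ (x : V) (S : Finset V) (E : ℝ),
    (∀ y ∈ S, ∃ Θ : V → V → ℝ,
      (∀ a b, Θ a b ≠ 0 → a ∈ S ∧ b ∈ S ∧ G.Adj a b) ∧
      (∀ v : V → ℝ, ∑ a, ∑ b, Θ a b * (v b - v a) = v y - v x) ∧
      ∑ a, ∑ b, Θ a b ^ 2 ≤ E) →
    ∀ (q : V), ∀ y ∈ S, (1 - K * E / β) * NG G β q y ≤ NG G β q x := by
  classical
  obtain ⟨K, hK, hmain⟩ := main_list'
  refine ⟨2 * K, by positivity, ?_⟩
  intro V _ G β hβ x S E hΘ q y hy
  set inn : Finset (Sym2 V) := G.edgeFinset.filter (fun e => (Quot.out e).1 ∈ S ∧ (Quot.out e).2 ∈ S)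
    with hinn
  set out : Finset (Sym2 V) :=
    G.edgeFinset.filter (fun e => ¬ ((Quot.out e).1 ∈ S ∧ (Quot.out e).2 ∈ S)) with hout
  have hmem : ∀ e, e ∈ out.toList ++ inn.toList ↔ e ∈ G.edgeSet := by
    intro e
    simp only [List.mem_append, Finset.mem_toList, hinn, hout, Finset.mem_filter,
      SimpleGraph.mem_edgeFinset]
    tauto
  have hnd : (out.toList ++ inn.toList).Nodup := by
    rw [List.nodup_append']
    refine ⟨Finset.nodup_toList _, Finset.nodup_toList _, ?_⟩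
    intro e h1 h2
    simp only [Finset.mem_toList, hinn, hout, Finset.mem_filter] at h1 h2
    exact h1.2 h2.2
  rw [NG_eq G β _ hnd hmem q y, NG_eq G β _ hnd hmem q x]
  have hKE : 2 * K * E / β = K * (2 * E / β) := by ring
  rw [hKE]
  refine Nl_append_le (fun _ => hβ.le) _ q y q x _ _ (fun r => ?_) ⊥
  refine hmain V (Sym2 V) (fun e => (Quot.out e).1) (fun e => (Quot.out e).2) (fun _ => β)
    (fun _ => hβ) inn.toList x S (2 * E / β) ?_ ?_ q y hy r
  · intro e he
    simp only [Finset.mem_toList, hinn, Finset.mem_filter] at he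
    exact he.2
  · intro y' hy'
    obtain ⟨Θ, h1, h2, h3⟩ := hΘ y' hy'
    obtain ⟨θ, h4, h5⟩ := flow_edges G inn.toList (Finset.nodup_toList _) Θ (by
      intro a b hab
      obtain ⟨ha, hb, hadj⟩ := h1 a b hab
      refine ⟨?_, hadj.ne⟩
      simp only [Finset.mem_toList, hinn, Finset.mem_filter, SimpleGraph.mem_edgeFinset,
        SimpleGraph.mem_edgeSet]
      refine ⟨hadj, ?_⟩
      have h6 : s((Quot.out s(a, b)).1, (Quot.out s(a, b)).2) = s(a, b) :=
        Quot.out_eq (s(a, b) : Sym2 V)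
      rcases Sym2.eq_iff.mp h6 with h | h
      · rw [h.1, h.2]; exact ⟨ha, hb⟩
      · rw [h.1, h.2]; exact ⟨hb, ha⟩)
    refine ⟨θ, fun v => by rw [h4 v, h2 v], ?_⟩
    have h7 : (inn.toList.map fun e => θ e ^ 2 / β).sum = (inn.toList.map fun e => θ e ^ 2).sum / β := by
      rw [div_eq_mul_inv, ← List.sum_map_mul_right]
      simp only [div_eq_mul_inv]
    rw [h7]
    exact div_le_div_of_nonneg_right (h5.trans (mul_le_mul_of_nonneg_left h3 (by norm_num))) hβ.le

end Pool.Agent.Lib.Arb
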