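import Pool.Agent.Lib.Arb.Defs

/-!
# Module A: linear algebra of the matrices `Hm W φ`
-/

set_option autoImplicit false

open MeasureTheory
open scoped ENNReal

namespace Pool.Agent.Lib.Arb

variable {V : Type} [Fintype V] [DecidableEq V] {W : Matrix V V ℝ} {φ ψ : V → ℝ}

theorem Hm_mulVec (W : Matrix V V ℝ) (φ u : V → ℝ) (a : V) :
    (Hm W φ).mulVec u a = 2 * φ a * u a - ∑ b, W a b * u b := by
  unfold Hm
  rw [Matrix.sub_mulVec, Pi.sub_apply, Matrix.mulVec_diagonal]
  rfl

theorem Hm_mul_Gr (hφ : (Hm W φ).PosDef) : Hm W φ * Gr W φ = 1 :=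
  Matrix.mul_nonsing_inv _ ((Matrix.isUnit_iff_isUnit_det _).mp hφ.isUnit)

/-- The column `x` of `G` solves `H g = δ_x`. -/
theorem Hm_mulVec_Gr (hφ : (Hm W φ).PosDef) (a x : V) :
    2 * φ a * Gr W φ a x - ∑ b, W a b * Gr W φ b x = if a = x then 1 else 0 := by
  have h := congrFun (congrFun (Hm_mul_Gr hφ) a) x
  rw [Matrix.one_apply] at h
  rw [← h, ← Hm_mulVec W φ (fun c => Gr W φ c x) a]
  rfl

theorem Gr_symm (hW : IsWt W) (φ : V → ℝ) (a b : V) : Gr W φ a b = Gr W φ b a := by
  have hT : (Hm W φ).transpose = Hm W φ := by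
    unfold Hm
    rw [Matrix.transpose_sub, Matrix.diagonal_transpose]
    congr 1
    ext i j
    exact hW.symm j i
  have h2 : (Gr W φ).transpose = Gr W φ := by
    unfold Gr
    rw [Matrix.transpose_nonsing_inv, hT]
  exact congrFun (congrFun h2 b) a

/-- M-matrix property: if `H u ≥ 0` then `u ≥ 0`. -/
theorem nonneg_of_Hm_mulVec (hW : IsWt W) (hφ : (Hm W φ).PosDef) (u : V → ℝ)
    (hu : ∀ a, 0 ≤ (Hm W φ).mulVec u a) (a : V) : 0 ≤ u a := by
  by_contra hneg
  push Not at hneg
  set m : V → ℝ := fun c => max (-(u c)) 0 with hm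
  set p : V → ℝ := fun c => max (u c) 0 with hp
  have hm0 : m ≠ 0 := by
    intro h
    have := congrFun h a
    simp only [hm, Pi.zero_apply] at this
    have h2 := le_max_left (-(u a)) 0
    linarith
  have hpos := hφ.dotProduct_mulVec_pos hm0
  have hmn : ∀ c, 0 ≤ m c := fun c => le_max_right _ _
  have hpn : ∀ c, 0 ≤ p c := fun c => le_max_right _ _
  have hmp : ∀ c, m c * p c = 0 := by
    intro c
    rcases le_total 0 (u c) with h | h
    · simp [hm, max_eq_right (neg_nonpos.mpr h)]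
    · simp [hp, max_eq_right h]
  have hupm : ∀ c, u c = p c - m c := by
    intro c
    rcases le_total 0 (u c) with h | h
    · simp [hm, hp, max_eq_right (neg_nonpos.mpr h), max_eq_left h]
    · simp [hm, hp, max_eq_right h, max_eq_left (neg_nonneg.mpr h)]
  have key : ∀ c, m c * (Hm W φ).mulVec m c ≤ 0 := by
    intro c
    have h1 : (Hm W φ).mulVec u c = (Hm W φ).mulVec p c - (Hm W φ).mulVec m c := by
      have : u = p - m := by
        funext d
        exact hupm d
      rw [this, Matrix.mulVec_sub]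
      rfl
    have h2 : m c * (Hm W φ).mulVec p c ≤ 0 := by
      rw [Hm_mulVec, mul_sub]
      have h3 : m c * (2 * φ c * p c) = 0 := by
        have := hmp c
        calc m c * (2 * φ c * p c) = 2 * φ c * (m c * p c) := by ring
          _ = 0 := by rw [this, mul_zero]
      rw [h3]
      have h4 : 0 ≤ ∑ b, W c b * p b :=
        Finset.sum_nonneg fun b _ => mul_nonneg (hW.nonneg _ _) (hpn b)
      have := mul_nonneg (hmn c) h4
      linarith
    have h5 := mul_nonneg (hmn c) (hu c)
    rw [h1, mul_sub] at h5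
    linarith
  have h6 : star m ⬝ᵥ ((Hm W φ).mulVec m) ≤ 0 :=
    Finset.sum_nonpos fun c _ => key c
  exact absurd hpos (not_lt.mpr h6)

theorem Gr_nonneg (hW : IsWt W) (hφ : (Hm W φ).PosDef) (a b : V) : 0 ≤ Gr W φ a b := by
  refine nonneg_of_Hm_mulVec hW hφ (fun c => Gr W φ c b) ?_ a
  intro c
  rw [Hm_mulVec, Hm_mulVec_Gr hφ]
  split_ifs <;> norm_num

theorem Gr_diag_pos (hφ : (Hm W φ).PosDef) (a : V) : 0 < Gr W φ a a :=
  hφ.inv.diag_pos

theorem Gr_pos (hW : IsWt W) (hφ : (Hm W φ).PosDef) (x : V) (hx : ∀ a, a ≠ x → 0 < W x a)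
    (a : V) : 0 < Gr W φ x a := by
  rcases eq_or_ne a x with rfl | hax
  · exact Gr_diag_pos hφ a
  by_contra hneg
  have h0 : Gr W φ x a = 0 := le_antisymm (not_lt.mp hneg) (Gr_nonneg hW hφ x a)
  have h1 := Hm_mulVec_Gr hφ a x
  rw [if_neg hax, Gr_symm hW φ a x, h0, mul_zero] at h1
  have h2 : 0 < ∑ b, W a b * Gr W φ b x := by
    refine Finset.sum_pos' (fun b _ => mul_nonneg (hW.nonneg _ _) (Gr_nonneg hW hφ _ _))
      ⟨x, Finset.mem_univ _, ?_⟩
    refine mul_pos ?_ (Gr_diag_pos hφ x)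
    rw [hW.symm]
    exact hx a hax
  linarith

theorem Gr_sq_le (hφ : (Hm W φ).PosDef) (a b : V) :
    Gr W φ a b ^ 2 ≤ Gr W φ a a * Gr W φ b b := by
  have hG : (Gr W φ).PosDef := hφ.inv
  have hs : Gr W φ b a = Gr W φ a b := by
    have := hG.isHermitian.apply a b
    simpa using this
  have h := hG.posSemidef.dotProduct_mulVec_nonneg
    (Gr W φ b b • (Pi.single a 1 : V → ℝ) - Gr W φ a b • (Pi.single b 1 : V → ℝ))
  have hb := Gr_diag_pos hφ b
  simp only [Matrix.mulVec_sub, Matrix.mulVec_smul, star_trivial, sub_dotProduct,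
    dotProduct_sub, smul_dotProduct, dotProduct_smul, Matrix.mulVec_single_one,
    single_dotProduct, Matrix.col_apply, smul_eq_mul, one_mul, hs] at h
  have h2 : 0 ≤ Gr W φ b b * (Gr W φ a a * Gr W φ b b - Gr W φ a b ^ 2) := by
    linarith
  have h3 := nonneg_of_mul_nonneg_right h2 hb
  linarith

omit [Fintype V] in
theorem continuous_Hm (W : Matrix V V ℝ) : Continuous fun φ : V → ℝ => Hm W φ := by
  unfold Hm
  refine Continuous.sub ?_ continuous_const
  refine Continuous.matrix_diagonal ?_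
  fun_prop

theorem measurableSet_posDef (W : Matrix V V ℝ) : MeasurableSet {φ : V → ℝ | (Hm W φ).PosDef} := by
  have h1 : {φ : V → ℝ | (Hm W φ).PosDef} =
      {φ : V → ℝ | (Hm W φ).PosSemidef} ∩ {φ : V → ℝ | (Hm W φ).det ≠ 0} := by
    ext φ
    constructor
    · intro h
      exact ⟨Matrix.PosDef.posSemidef h, h.det_pos.ne'⟩
    · rintro ⟨h, h'⟩
      exact (Matrix.PosSemidef.posDef_iff_det_ne_zero h).mpr h'
  have hc := continuous_Hm W
  have h2 : IsClosed {φ : V → ℝ | (Hm W φ).PosSemidef} := by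
    have h3 : {φ : V → ℝ | (Hm W φ).PosSemidef} =
        {φ : V → ℝ | (Hm W φ).conjTranspose = Hm W φ} ∩
          ⋂ u : V → ℝ, {φ : V → ℝ | 0 ≤ star u ⬝ᵥ ((Hm W φ).mulVec u)} := by
      ext φ
      simp only [Set.mem_ofPred_eq, Set.mem_inter_iff, Set.mem_iInter,
        Matrix.posSemidef_iff_dotProduct_mulVec]
      rfl
    rw [h3]
    refine IsClosed.inter (isClosed_eq hc.matrix_conjTranspose hc) (isClosed_iInter fun u => ?_)
    refine isClosed_le continuous_const ?_
    exact Continuous.dotProduct continuous_const (hc.matrix_mulVec continuous_const)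
  rw [h1]
  refine h2.measurableSet.inter ?_
  exact (hc.matrix_det.measurable (measurableSet_singleton (0 : ℝ)).compl)

theorem Gr_eq (W : Matrix V V ℝ) (φ : V → ℝ) (a b : V) :
    Gr W φ a b = ((Hm W φ).det)⁻¹ * (Hm W φ).adjugate a b := by
  unfold Gr
  rw [Matrix.inv_def, Ring.inverse_eq_inv', Matrix.smul_apply, smul_eq_mul]

theorem measurable_Gr (W : Matrix V V ℝ) (a b : V) : Measurable fun φ : V → ℝ => Gr W φ a b := by
  simp only [Gr_eq]
  have hc := continuous_Hm W
  refine Measurable.mul (hc.matrix_det.measurable.inv) ?_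
  exact (hc.matrix_adjugate.matrix_elem a b).measurable

theorem measurable_dens (W : Matrix V V ℝ) (η : V → ℝ) : Measurable (dens W η) := by
  unfold dens
  refine Measurable.ite (measurableSet_posDef W) ?_ measurable_const
  refine ENNReal.measurable_ofReal.comp ?_
  refine Measurable.mul (Real.measurable_exp.comp ?_)
    ((continuous_Hm W).matrix_det.measurable.sqrt)
  have hG := measurable_Gr W
  refine Measurable.add (Measurable.sub (Measurable.add (Measurable.neg ?_) measurable_const)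
    (Measurable.div_const ?_ 2)) measurable_const
  · exact Finset.measurable_sum _ fun a _ => measurable_pi_apply a
  · refine Finset.measurable_sum _ fun a _ => Finset.measurable_sum _ fun b _ => ?_
    exact ((hG a b).const_mul (η a)).mul_const (η b)

theorem continuous_updateRow_det (W : Matrix V V ℝ) (x : V) (r : V → ℝ) :
    Continuous fun φ : V → ℝ => ((Hm W φ).updateRow x r).det :=
  ((continuous_Hm W).matrix_updateRow x continuous_const).matrix_det

theorem measurable_tt (W : Matrix V V ℝ) (x a : V) : Measurable (tt W x a) := by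
  unfold tt
  exact (continuous_updateRow_det W x _).measurable.div (continuous_updateRow_det W x _).measurable

theorem tt_update (W : Matrix V V ℝ) (x a : V) (φ : V → ℝ) (s : ℝ) :
    tt W x a (Function.update φ x s) = tt W x a φ := by
  have h : ∀ r : V → ℝ, (Hm W (Function.update φ x s)).updateRow x r =
      (Hm W φ).updateRow x r := by
    intro r
    ext i j
    rcases eq_or_ne i x with rfl | hix
    · simp
    · rw [Matrix.updateRow_ne hix, Matrix.updateRow_ne hix]
      unfold Hm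
      rw [Matrix.sub_apply, Matrix.sub_apply]
      congr 1
      rcases eq_or_ne i j with rfl | hij
      · rw [Matrix.diagonal_apply_eq, Matrix.diagonal_apply_eq, Function.update_of_ne hix]
      · rw [Matrix.diagonal_apply_ne _ hij, Matrix.diagonal_apply_ne _ hij]
  unfold tt
  rw [h, h]

theorem tt_eq (hW : IsWt W) (hφ : (Hm W φ).PosDef) (x a : V) :
    tt W x a φ = Gr W φ x a / Gr W φ x x := by
  have hd := hφ.det_pos
  rw [Gr_symm hW φ x a, Gr_eq, Gr_eq, Matrix.adjugate_apply, Matrix.adjugate_apply]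
  unfold tt
  rw [mul_div_mul_left _ _ (inv_ne_zero hd.ne')]

/-- Thomson principle in the ground state representation: with `g = G_x`, `k = G_y`, `v = k / g`,
`𝓔 := ½ ∑ W_ab g_a g_b (v_a - v_b)² = G_yy - G_xy² / G_xx` and `v_y - v_x = 𝓔 / G_xy`. -/
theorem flow_ineq (hW : IsWt W) (hφ : (Hm W φ).PosDef) (x y : V) (hpos : ∀ a, 0 < Gr W φ x a)
    (θ : V → V → ℝ) (hθ : ∀ v : V → ℝ, ∑ a, ∑ b, θ a b * (v b - v a) = v y - v x)
    (hs : ∀ a b, θ a b ≠ 0 → 0 < W a b) :
    Gr W φ x x * Gr W φ y y / Gr W φ x y ^ 2 - 1 ≤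
      2 * ∑ a, ∑ b, θ a b ^ 2 / W a b * (Gr W φ x x / (Gr W φ x a * Gr W φ x b)) := by
  set g : V → ℝ := fun a => Gr W φ x a with hg
  set k : V → ℝ := fun a => Gr W φ y a with hk
  set v : V → ℝ := fun a => k a / g a with hv
  have hgp : ∀ a, 0 < g a := hpos
  have hgv : ∀ a, g a * v a = k a := fun a => mul_div_cancel₀ _ (hgp a).ne'
  have hgeq : ∀ a, ∑ b, W a b * g b = 2 * φ a * g a - if a = x then 1 else 0 := by
    intro a
    have h := Hm_mulVec_Gr hφ a x
    simp only [Gr_symm hW φ _ x] at h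
    simp only [hg]
    linarith
  have hkeq : ∀ a, ∑ b, W a b * k b = 2 * φ a * k a - if a = y then 1 else 0 := by
    intro a
    have h := Hm_mulVec_Gr hφ a y
    simp only [Gr_symm hW φ _ y] at h
    simp only [hk]
    linarith
  -- the energy
  set E2 : ℝ := ∑ a, ∑ b, W a b * g a * g b * (v b - v a) ^ 2 with hE2
  have hS1 : ∑ a, ∑ b, W a b * g a * g b * v a ^ 2 =
      (∑ a, 2 * φ a * k a ^ 2) - g x * v x ^ 2 := by
    have h1 : ∀ a, ∑ b, W a b * g a * g b * v a ^ 2 =
        2 * φ a * k a ^ 2 - if a = x then g a * v a ^ 2 else 0 := by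
      intro a
      have h2 : ∑ b, W a b * g a * g b * v a ^ 2 = g a * v a ^ 2 * ∑ b, W a b * g b := by
        rw [Finset.mul_sum]
        exact Finset.sum_congr rfl fun b _ => by ring
      rw [h2, hgeq, mul_sub]
      congr 1
      · rw [← hgv a]
        ring
      · split_ifs <;> simp
    rw [Finset.sum_congr rfl fun a _ => h1 a, Finset.sum_sub_distrib]
    simp
  have hS2 : ∑ a, ∑ b, W a b * g a * g b * v b ^ 2 =
      (∑ a, 2 * φ a * k a ^ 2) - g x * v x ^ 2 := by
    rw [← hS1, Finset.sum_comm]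
    refine Finset.sum_congr rfl fun a _ => Finset.sum_congr rfl fun b _ => ?_
    rw [hW.symm b a]
    ring
  have hS3 : ∑ a, ∑ b, W a b * k a * k b = (∑ a, 2 * φ a * k a ^ 2) - k y := by
    have h1 : ∀ a, ∑ b, W a b * k a * k b =
        2 * φ a * k a ^ 2 - if a = y then k a else 0 := by
      intro a
      have h2 : ∑ b, W a b * k a * k b = k a * ∑ b, W a b * k b := by
        rw [Finset.mul_sum]
        exact Finset.sum_congr rfl fun b _ => by ring
      rw [h2, hkeq, mul_sub]
      congr 1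
      · ring
      · split_ifs <;> simp
    rw [Finset.sum_congr rfl fun a _ => h1 a, Finset.sum_sub_distrib]
    simp
  have hE : E2 = 2 * (k y - g x * v x ^ 2) := by
    have h1 : E2 = ∑ a, ∑ b, W a b * g a * g b * v b ^ 2 +
        ∑ a, ∑ b, W a b * g a * g b * v a ^ 2 - 2 * ∑ a, ∑ b, W a b * k a * k b := by
      rw [hE2, Finset.mul_sum, ← Finset.sum_add_distrib, ← Finset.sum_sub_distrib]
      refine Finset.sum_congr rfl fun a _ => ?_
      rw [Finset.mul_sum, ← Finset.sum_add_distrib, ← Finset.sum_sub_distrib]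
      refine Finset.sum_congr rfl fun b _ => ?_
      rw [← hgv a, ← hgv b]
      ring
    rw [h1, hS1, hS2, hS3]
    ring
  have hE0 : 0 ≤ E2 := Finset.sum_nonneg fun a _ => Finset.sum_nonneg fun b _ =>
    mul_nonneg (mul_nonneg (mul_nonneg (hW.nonneg _ _) (hgp a).le) (hgp b).le) (sq_nonneg _)
  set R : ℝ := ∑ a, ∑ b, θ a b ^ 2 / W a b * (1 / (g a * g b)) with hR
  have hCS : (v y - v x) ^ 2 ≤ R * E2 := by
    rw [← hθ v, hR, hE2, ← Finset.sum_product', ← Finset.sum_product', ← Finset.sum_product']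
    refine Finset.sum_sq_le_sum_mul_sum_of_sq_le_mul _ ?_ ?_ ?_
    · rintro ⟨a, b⟩ _
      exact mul_nonneg (div_nonneg (sq_nonneg _) (hW.nonneg _ _))
        (one_div_nonneg.mpr (mul_nonneg (hgp a).le (hgp b).le))
    · rintro ⟨a, b⟩ _
      exact mul_nonneg (mul_nonneg (mul_nonneg (hW.nonneg _ _) (hgp a).le) (hgp b).le)
        (sq_nonneg _)
    · rintro ⟨a, b⟩ _
      refine le_of_eq ?_
      by_cases h0 : θ a b = 0
      · simp [h0]
      · have hw := hs a b h0
        have hga := hgp a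
        have hgb := hgp b
        field_simp
  have hxy : 0 < g y := hgp y
  have hxx : 0 < g x := hgp x
  have hkx : k x = g y := Gr_symm hW φ y x
  have hvyx : v y - v x = E2 / 2 / g y := by
    rw [hE]
    simp only [hv]
    rw [hkx]
    field_simp
  have hRn : 0 ≤ R := Finset.sum_nonneg fun a _ => Finset.sum_nonneg fun b _ =>
    mul_nonneg (div_nonneg (sq_nonneg _) (hW.nonneg _ _))
        (one_div_nonneg.mpr (mul_nonneg (hgp a).le (hgp b).le))
  have hmain : E2 / 2 / g y ^ 2 ≤ 2 * R := by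
    rcases hE0.eq_or_lt with h0 | h0
    · rw [← h0]
      simp only [zero_div]
      linarith
    · rw [hvyx] at hCS
      have h1 : E2 * (E2 / 4 / g y ^ 2) ≤ E2 * R := by
        calc E2 * (E2 / 4 / g y ^ 2) = (E2 / 2 / g y) ^ 2 := by ring
          _ ≤ R * E2 := hCS
          _ = E2 * R := mul_comm _ _
      have h2 := le_of_mul_le_mul_left h1 h0
      calc E2 / 2 / g y ^ 2 = 2 * (E2 / 4 / g y ^ 2) := by ring
        _ ≤ 2 * R := by linarith
  have hlhs : g x * k y / g y ^ 2 - 1 = g x * (E2 / 2 / g y ^ 2) := by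
    rw [hE]
    simp only [hv]
    rw [hkx]
    field_simp
  have hrhs : ∑ a, ∑ b, θ a b ^ 2 / W a b * (g x / (g a * g b)) = g x * R := by
    rw [hR, Finset.mul_sum]
    refine Finset.sum_congr rfl fun a _ => ?_
    rw [Finset.mul_sum]
    refine Finset.sum_congr rfl fun b _ => ?_
    ring
  have hfin := mul_le_mul_of_nonneg_left hmain hxx.le
  change g x * k y / g y ^ 2 - 1 ≤ 2 * ∑ a, ∑ b, θ a b ^ 2 / W a b * (g x / (g a * g b))
  rw [hlhs, hrhs]
  linarith

end Pool.Agent.Lib.Arb
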