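import Pool.Agent.Lib.Arb.LinAlg

/-!
# Module A': midpoint convexity properties
-/

set_option autoImplicit false

open MeasureTheory
open scoped ENNReal

namespace Pool.Agent.Lib.Arb

variable {V : Type} [Fintype V] [DecidableEq V] {W : Matrix V V ℝ} {φ ψ : V → ℝ}

omit [Fintype V] in
theorem Hm_mid (W : Matrix V V ℝ) (φ ψ : V → ℝ) :
    Hm W (fun a => (φ a + ψ a) / 2) = (1 / 2 : ℝ) • (Hm W φ + Hm W ψ) := by
  unfold Hm
  ext i j
  rcases eq_or_ne i j with rfl | hij
  · simp only [Matrix.sub_apply, Matrix.add_apply, Matrix.smul_apply, Matrix.diagonal_apply_eq,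
      smul_eq_mul]
    ring
  · simp only [Matrix.sub_apply, Matrix.add_apply, Matrix.smul_apply,
      Matrix.diagonal_apply_ne _ hij, smul_eq_mul]
    ring

theorem posDef_mid (hφ : (Hm W φ).PosDef) (hψ : (Hm W ψ).PosDef) :
    (Hm W (fun a => (φ a + ψ a) / 2)).PosDef := by
  rw [Hm_mid]
  exact (hφ.add hψ).smul (by norm_num)

theorem phi_pos (hW : IsWt W) (hφ : (Hm W φ).PosDef) (a : V) : 0 < φ a := by
  have h := hφ.diag_pos (i := a)
  unfold Hm at h
  rw [Matrix.sub_apply, Matrix.diagonal_apply_eq, hW.diag] at h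
  linarith

/-- `G` is (midpoint) log-convex in `φ`. Proof: `k = √(g h)` with `g = G_φ e_b`, `h = G_ψ e_b`
satisfies `H_mid k ≥ e_b` entrywise (Cauchy-Schwarz), hence `k ≥ G_mid e_b`. -/
theorem Gr_mid_sq_le (hW : IsWt W) (hφ : (Hm W φ).PosDef) (hψ : (Hm W ψ).PosDef) (a b : V) :
    Gr W (fun a => (φ a + ψ a) / 2) a b ^ 2 ≤ Gr W φ a b * Gr W ψ a b := by
  set g : V → ℝ := fun c => Gr W φ c b with hg
  set h : V → ℝ := fun c => Gr W ψ c b with hh
  set k : V → ℝ := fun c => Real.sqrt (g c * h c) with hk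
  have hmid := posDef_mid hφ hψ
  have hg0 : ∀ c, 0 ≤ g c := fun c => Gr_nonneg hW hφ c b
  have hh0 : ∀ c, 0 ≤ h c := fun c => Gr_nonneg hW hψ c b
  have hgeq : ∀ c, 2 * φ c * g c = (if c = b then 1 else 0) + ∑ d, W c d * g d := by
    intro c
    have := Hm_mulVec_Gr hφ c b
    simp only [hg]
    linarith
  have hheq : ∀ c, 2 * ψ c * h c = (if c = b then 1 else 0) + ∑ d, W c d * h d := by
    intro c
    have := Hm_mulVec_Gr hψ c b
    simp only [hh]
    linarith
  have hk0 : ∀ c, 0 ≤ k c := fun c => Real.sqrt_nonneg _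
  have hCS : ∀ c, (∑ d, W c d * k d) ^ 2 ≤ (∑ d, W c d * g d) * ∑ d, W c d * h d := by
    intro c
    refine Finset.sum_sq_le_sum_mul_sum_of_sq_le_mul _
      (fun d _ => mul_nonneg (hW.nonneg _ _) (hg0 d))
      (fun d _ => mul_nonneg (hW.nonneg _ _) (hh0 d)) (fun d _ => ?_)
    have : k d ^ 2 = g d * h d := Real.sq_sqrt (mul_nonneg (hg0 d) (hh0 d))
    calc (W c d * k d) ^ 2 = W c d ^ 2 * k d ^ 2 := by ring
      _ = W c d * g d * (W c d * h d) := by rw [this]; ring
      _ ≤ _ := le_rfl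
  have hmain : ∀ c, (if c = b then (1 : ℝ) else 0) + ∑ d, W c d * k d ≤ (φ c + ψ c) * k c := by
    intro c
    set δ : ℝ := if c = b then (1 : ℝ) else 0 with hδ
    have hδ0 : 0 ≤ δ := by rw [hδ]; split_ifs <;> norm_num
    set q : ℝ := ∑ d, W c d * k d with hq
    set q1 : ℝ := ∑ d, W c d * g d with hq1
    set q2 : ℝ := ∑ d, W c d * h d with hq2
    have hq0 : 0 ≤ q := Finset.sum_nonneg fun d _ => mul_nonneg (hW.nonneg _ _) (hk0 d)
    have hq10 : 0 ≤ q1 := Finset.sum_nonneg fun d _ => mul_nonneg (hW.nonneg _ _) (hg0 d)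
    have hq20 : 0 ≤ q2 := Finset.sum_nonneg fun d _ => mul_nonneg (hW.nonneg _ _) (hh0 d)
    have h1 : q ^ 2 ≤ q1 * q2 := hCS c
    have h2 : 2 * q ≤ q1 + q2 := by
      have : (2 * q) ^ 2 ≤ (q1 + q2) ^ 2 := by nlinarith [sq_nonneg (q1 - q2)]
      exact (abs_le_of_sq_le_sq' this (by positivity)).2
    have h3 : (δ + q) ^ 2 ≤ (δ + q1) * (δ + q2) := by nlinarith
    have h4 : (δ + q) ^ 2 ≤ ((φ c + ψ c) * k c) ^ 2 := by
      refine h3.trans ?_
      have e1 : δ + q1 = 2 * φ c * g c := (hgeq c).symm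
      have e2 : δ + q2 = 2 * ψ c * h c := (hheq c).symm
      have e3 : k c ^ 2 = g c * h c := Real.sq_sqrt (mul_nonneg (hg0 c) (hh0 c))
      rw [e1, e2, mul_pow, e3]
      have h5 : 0 ≤ g c * h c := mul_nonneg (hg0 c) (hh0 c)
      nlinarith [mul_nonneg (sq_nonneg (φ c - ψ c)) h5]
    have h6 : 0 ≤ (φ c + ψ c) * k c :=
      mul_nonneg (add_nonneg (phi_pos hW hφ c).le (phi_pos hW hψ c).le) (hk0 c)
    exact (abs_le_of_sq_le_sq' h4 h6).2
  set u : V → ℝ := fun c => k c - Gr W (fun a => (φ a + ψ a) / 2) c b with hu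
  have hu0 : 0 ≤ u a := by
    refine nonneg_of_Hm_mulVec hW hmid u ?_ a
    intro c
    rw [Hm_mulVec]
    have h1 := Hm_mulVec_Gr hmid c b
    have h2 : ∑ d, W c d * u d = ∑ d, W c d * k d -
        ∑ d, W c d * Gr W (fun a => (φ a + ψ a) / 2) d b := by
      rw [← Finset.sum_sub_distrib]
      refine Finset.sum_congr rfl fun d _ => ?_
      simp only [hu]
      ring
    rw [h2]
    simp only [hu]
    have h3 := hmain c
    have h4 : 2 * ((φ c + ψ c) / 2) * (k c - Gr W (fun a => (φ a + ψ a) / 2) c b) =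
        (φ c + ψ c) * k c - 2 * ((φ c + ψ c) / 2) * Gr W (fun a => (φ a + ψ a) / 2) c b := by
      ring
    rw [h4]
    linarith
  have h1 : Gr W (fun a => (φ a + ψ a) / 2) a b ≤ k a := by
    simp only [hu] at hu0
    linarith
  have h0 : 0 ≤ Gr W (fun a => (φ a + ψ a) / 2) a b := Gr_nonneg hW hmid a b
  calc Gr W (fun a => (φ a + ψ a) / 2) a b ^ 2 ≤ k a ^ 2 := by gcongr
    _ = g a * h a := Real.sq_sqrt (mul_nonneg (hg0 a) (hh0 a))

section DetMid

open scoped MatrixOrder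

theorem det_mid_aux {C : Matrix V V ℝ} (hC : C.PosSemidef) :
    C.det ≤ ((1 / 2 : ℝ) • (1 + C)).det ^ 2 := by
  have hH := hC.isHermitian
  have h1 : C.det = ∏ i, hH.eigenvalues i := by
    have := hH.det_eq_prod_eigenvalues
    simpa using this
  have h2 : (1 + C).det = ∏ i, (1 + hH.eigenvalues i) := by
    have h3 := Matrix.eval_charpoly C (-1)
    rw [hH.charpoly_eq, Polynomial.eval_prod] at h3
    have h4 : Matrix.scalar V (-1 : ℝ) - C = -(1 + C) := by
      rw [map_neg, map_one]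
      abel
    rw [h4, Matrix.det_neg] at h3
    have h5 : ∏ i, Polynomial.eval (-1 : ℝ) (Polynomial.X - Polynomial.C (hH.eigenvalues i : ℝ)) =
        (-1) ^ Fintype.card V * ∏ i, (1 + hH.eigenvalues i) := by
      rw [← Finset.card_univ, ← Finset.prod_const, ← Finset.prod_mul_distrib]
      refine Finset.prod_congr rfl fun i _ => ?_
      simp
      ring
    have h6 : ∏ i, Polynomial.eval (-1 : ℝ) (Polynomial.X - Polynomial.C (hH.eigenvalues i : ℝ)) =
        (-1) ^ Fintype.card V * (1 + C).det := h3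
    rw [h5] at h6
    have h7 : ((-1 : ℝ) ^ Fintype.card V) ≠ 0 := pow_ne_zero _ (by norm_num)
    exact (mul_left_cancel₀ h7 h6).symm
  rw [Matrix.det_smul, h2, h1, mul_pow, ← Finset.card_univ, ← pow_mul, ← Finset.prod_pow,
    mul_comm _ 2, pow_mul, ← Finset.prod_const, ← Finset.prod_mul_distrib]
  refine Finset.prod_le_prod (fun i _ => hC.eigenvalues_nonneg i) (fun i _ => ?_)
  nlinarith [sq_nonneg (1 - hH.eigenvalues i)]

/-- The determinant is (midpoint) log-concave on positive definite matrices. -/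
theorem det_mid (hφ : (Hm W φ).PosDef) (hψ : (Hm W ψ).PosDef) :
    (Hm W φ).det * (Hm W ψ).det ≤ (Hm W (fun a => (φ a + ψ a) / 2)).det ^ 2 := by
  rw [Hm_mid]
  set A := Hm W φ
  set B := Hm W ψ
  obtain ⟨S, hS⟩ := CStarAlgebra.nonneg_iff_eq_star_mul_self.mp hφ.posSemidef.nonneg
  have hS' : A = S.transpose * S := by
    rw [hS]
    rfl
  have hdet : A.det = S.det ^ 2 := by
    rw [hS', Matrix.det_mul, Matrix.det_transpose, sq]
  have hSd : S.det ≠ 0 := by
    intro h
    have := hφ.det_pos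
    rw [hdet, h] at this
    norm_num at this
  have hu : IsUnit S.det := isUnit_iff_ne_zero.2 hSd
  set C := S⁻¹.conjTranspose * B * S⁻¹ with hC
  have hCp : C.PosSemidef := hψ.posSemidef.conjTranspose_mul_mul_same S⁻¹
  have hB : B = S.transpose * C * S := by
    have e1 : S⁻¹ * S = 1 := Matrix.nonsing_inv_mul S hu
    have e2 : S.transpose * S⁻¹.conjTranspose = 1 := by
      have : S⁻¹.conjTranspose = (S⁻¹).transpose := rfl
      rw [this, ← Matrix.transpose_mul, e1, Matrix.transpose_one]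
    calc B = 1 * B * 1 := by simp
      _ = (S.transpose * S⁻¹.conjTranspose) * B * (S⁻¹ * S) := by rw [e1, e2]
      _ = S.transpose * C * S := by
        rw [hC]
        simp only [Matrix.mul_assoc]
  have hsum : (1 / 2 : ℝ) • (A + B) = S.transpose * ((1 / 2 : ℝ) • (1 + C)) * S := by
    conv_lhs => rw [hS', hB]
    rw [Matrix.mul_smul, Matrix.smul_mul, Matrix.mul_add, Matrix.add_mul, Matrix.mul_one]
  have haux := det_mid_aux hCp
  have hBd : B.det = S.det ^ 2 * C.det := by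
    conv_lhs => rw [hB]
    rw [Matrix.det_mul, Matrix.det_mul, Matrix.det_transpose]
    ring
  rw [hsum, Matrix.det_mul, Matrix.det_mul, Matrix.det_transpose, hdet, hBd]
  have h4 : 0 ≤ S.det ^ 4 := by positivity
  calc S.det ^ 2 * (S.det ^ 2 * C.det) = S.det ^ 4 * C.det := by ring
    _ ≤ S.det ^ 4 * ((1 / 2 : ℝ) • (1 + C)).det ^ 2 := by gcongr
    _ = (S.det * ((1 / 2 : ℝ) • (1 + C)).det * S.det) ^ 2 := by ring

end DetMid

end Pool.Agent.Lib.Arb
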