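import Pool.Agent.Lib.Arb.Boot

/-!
# Module H: the main estimate for lists of edges and arbitrary wirings
-/

set_option autoImplicit false
set_option linter.unusedSectionVars false
set_option linter.unusedVariables false
set_option linter.unusedSimpArgs false

open MeasureTheory Matrix
open scoped ENNReal

namespace Pool.Agent.Lib.Arb

theorem cs_step {a b p q r s : ℝ} (hp : 0 ≤ p) (hq : 0 ≤ q) (hr : 0 ≤ r) (hs : 0 ≤ s)
    (h1 : a ^ 2 ≤ p * r) (h2 : b ^ 2 ≤ q * s) : (a + b) ^ 2 ≤ (p + q) * (r + s) := by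
  have h3 : (a * b) ^ 2 ≤ (p * s) * (q * r) := by
    have := mul_le_mul h1 h2 (sq_nonneg b) (mul_nonneg hp hr)
    nlinarith
  have h4 : 2 * (a * b) ≤ p * s + q * r := by
    have h5 : (2 * (a * b)) ^ 2 ≤ (p * s + q * r) ^ 2 := by
      nlinarith [sq_nonneg (p * s - q * r)]
    exact le_of_sq_le_sq h5 (by positivity)
  nlinarith

theorem list_cs {ι : Type} (c θ w : ι → ℝ) (hc : ∀ i, c i = 0 ∨ c i = 1) (hw : ∀ i, 0 < w i)
    (L : List ι) :
    0 ≤ (L.map fun i => c i * (θ i ^ 2 / w i)).sum ∧ 0 ≤ (L.map fun i => c i * w i).sum ∧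
    (L.map fun i => c i * θ i).sum ^ 2 ≤
      (L.map fun i => c i * (θ i ^ 2 / w i)).sum * (L.map fun i => c i * w i).sum := by
  induction L with
  | nil => simp
  | cons i L ih =>
    obtain ⟨h1, h2, h3⟩ := ih
    have hw' := hw i
    have hci : 0 ≤ c i := by rcases hc i with h | h <;> rw [h] <;> norm_num
    simp only [List.map_cons, List.sum_cons]
    refine ⟨by positivity, by positivity, ?_⟩
    refine cs_step (by positivity) h1 (by positivity) h2 ?_ h3
    have : c i * c i = c i := by rcases hc i with h | h <;> rw [h] <;> norm_num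
    have h4 : c i * (θ i ^ 2 / w i) * (c i * w i) = (c i * c i) * θ i ^ 2 := by
      field_simp
    rw [h4, this, mul_pow, sq, this]

theorem sum_list_comm {ι V : Type} [Fintype V] (f : V → V → ι → ℝ) (L : List ι) :
    ∑ a, ∑ b, (L.map (f a b)).sum = (L.map fun i => ∑ a, ∑ b, f a b i).sum := by
  induction L with
  | nil => simp
  | cons i L ih =>
    simp only [List.map_cons, List.sum_cons, Finset.sum_add_distrib, ih]

theorem list_sum_ne_zero {ι : Type} (f : ι → ℝ) (L : List ι) (h : (L.map f).sum ≠ 0) :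
    ∃ i ∈ L, f i ≠ 0 := by
  by_contra hcon
  push Not at hcon
  apply h
  apply List.sum_eq_zero
  intro x hx
  obtain ⟨i, hi, rfl⟩ := List.mem_map.mp hx
  exact hcon i hi

/-- Push-forward of a flow to a quotient. -/
theorem push_flow {V₀ V ι : Type} [Fintype V] [DecidableEq V] (π : V₀ → V) (s t : ι → V₀)
    (w : ι → ℝ) (hw : ∀ i, 0 < w i) (L : List ι) (x y : V₀) (A : Finset V) (E : ℝ) (θ : ι → ℝ)
    (hrep : ∀ v : V₀ → ℝ, (L.map fun i => θ i * (v (t i) - v (s i))).sum = v y - v x)
    (hsupp : ∀ i ∈ L, θ i ≠ 0 → π (s i) ∈ A ∧ π (t i) ∈ A)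
    (hen : (L.map fun i => θ i ^ 2 / w i).sum ≤ E) :
    ∃ Θ, IsFlow (Wm (fun i => π (s i)) (fun i => π (t i)) w L) A (π x) (π y) Θ E := by
  classical
  set ind : V → V → ι → ℝ := fun a b i => if π (s i) = a ∧ π (t i) = b then 1 else 0 with hind
  have hind01 : ∀ a b i, ind a b i = 0 ∨ ind a b i = 1 := by
    intro a b i
    simp only [hind]
    split_ifs
    · exact Or.inr rfl
    · exact Or.inl rfl
  set W := Wm (fun i => π (s i)) (fun i => π (t i)) w L with hWdef
  have hWt : IsWt W := isWt_Wm (fun i => (hw i).le) L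
  have hWle : ∀ a b, a ≠ b → (L.map fun i => ind a b i * w i).sum ≤ W a b := by
    intro a b hab
    rw [hWdef, Wm_apply _ _ _ hab]
    refine List.sum_le_sum fun i _ => ?_
    rw [mul_comm]
    refine mul_le_mul_of_nonneg_left ?_ (hw i).le
    simp only [hind]
    split_ifs <;> norm_num
  refine ⟨fun a b => if a = b then 0 else (L.map fun i => ind a b i * θ i).sum, ?_, ?_, ?_⟩
  · intro v
    have h1 : ∀ a b, (if a = b then 0 else (L.map fun i => ind a b i * θ i).sum) * (v b - v a) =
        (L.map fun i => ind a b i * (θ i * (v b - v a))).sum := by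
      intro a b
      by_cases hab : a = b
      · subst hab
        simp
      · rw [if_neg hab, ← List.sum_map_mul_right]
        congr 1
        refine List.map_congr_left fun i _ => ?_
        ring
    simp only [h1]
    rw [sum_list_comm]
    have h2 : ∀ i, ∑ a, ∑ b, ind a b i * (θ i * (v b - v a)) =
        θ i * (v (π (t i)) - v (π (s i))) := by
      intro i
      simp only [hind, ite_mul, one_mul, zero_mul, ite_and]
      simp
    simp only [h2]
    exact hrep fun u => v (π u)
  · intro a b h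
    by_cases hab : a = b
    · rw [if_pos hab] at h; exact absurd rfl h
    rw [if_neg hab] at h
    obtain ⟨i, hi, hne⟩ := list_sum_ne_zero _ L h
    have hi1 : ind a b i ≠ 0 := left_ne_zero_of_mul hne
    have hθ : θ i ≠ 0 := right_ne_zero_of_mul hne
    have hi2 : π (s i) = a ∧ π (t i) = b := by
      by_contra hcon
      apply hi1
      simp only [hind]
      rw [if_neg hcon]
    obtain ⟨h3, h4⟩ := hsupp i hi hθ
    rw [hi2.1] at h3
    rw [hi2.2] at h4
    refine ⟨h3, h4, ?_⟩
    refine lt_of_lt_of_le ?_ (hWle a b hab)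
    have h5 : ind a b i * w i ≤ (L.map fun i => ind a b i * w i).sum := by
      refine List.single_le_sum ?_ _ (List.mem_map.mpr ⟨i, hi, rfl⟩)
      intro z hz
      obtain ⟨j, _, rfl⟩ := List.mem_map.mp hz
      rcases hind01 a b j with h | h <;> rw [h]
      · simp
      · simpa using (hw j).le
    refine lt_of_lt_of_le ?_ h5
    simp only [hind]
    rw [if_pos hi2, one_mul]
    exact hw i
  · refine le_trans ?_ hen
    have h1 : ∀ a b, (if a = b then 0 else (L.map fun i => ind a b i * θ i).sum) ^ 2 / W a b ≤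
        (L.map fun i => ind a b i * (θ i ^ 2 / w i)).sum := by
      intro a b
      obtain ⟨h1, h2, h3⟩ := list_cs (ind a b) θ w (hind01 a b) hw L
      by_cases hab : a = b
      · rw [if_pos hab]
        simpa using h1
      · rw [if_neg hab]
        have hWab := hWle a b hab
        refine div_le_of_le_mul₀ (hWt.nonneg a b) h1 (h3.trans ?_)
        exact mul_le_mul_of_nonneg_left hWab h1
    calc ∑ a, ∑ b, (if a = b then 0 else (L.map fun i => ind a b i * θ i).sum) ^ 2 / W a b
        ≤ ∑ a, ∑ b, (L.map fun i => ind a b i * (θ i ^ 2 / w i)).sum :=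
          Finset.sum_le_sum fun a _ => Finset.sum_le_sum fun b _ => h1 a b
      _ = (L.map fun i => θ i ^ 2 / w i).sum := by
          rw [sum_list_comm]
          congr 1
          refine List.map_congr_left fun i _ => ?_
          simp only [hind, ite_mul, one_mul, zero_mul, ite_and]
          simp

/-- If inside `S` there are unit flows of energy at most `E` from `x` to every point of `S`, then in
every wiring `r` the vertices `x` and `y` are connected with probability at least `1 - K E`. -/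
theorem main_list : ∃ K : ℝ, 0 < K ∧
    ∀ (V₀ : Type) [Fintype V₀] (ι : Type) (s t : ι → V₀) (w : ι → ℝ), (∀ i, 0 < w i) →
    ∀ (L : List ι) (x : V₀) (S : Finset V₀) (E : ℝ),
    (∀ y ∈ S, ∃ θ : ι → ℝ,
      (∀ v : V₀ → ℝ, (L.map fun i => θ i * (v (t i) - v (s i))).sum = v y - v x) ∧
      (∀ i ∈ L, θ i ≠ 0 → s i ∈ S ∧ t i ∈ S) ∧
      (L.map fun i => θ i ^ 2 / w i).sum ≤ E) →
    ∀ y ∈ S, ∀ r : Setoid V₀, (1 - K * E) * Zl s t w L r ≤ Nl s t w x y L r := by
  obtain ⟨K, hK, hmain⟩ := main_estimate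
  refine ⟨K, hK, ?_⟩
  intro V₀ _ ι s t w hw L x S E hf y hy r
  classical
  have hwn : ∀ i, 0 ≤ w i := fun i => (hw i).le
  have hZ : 0 ≤ Zl s t w L r := Zl_nonneg' hwn L r
  have hE0 : 0 ≤ E := by
    obtain ⟨θ, _, _, h⟩ := hf y hy
    refine le_trans (List.sum_nonneg ?_) h
    intro z hz
    obtain ⟨i, _, rfl⟩ := List.mem_map.mp hz
    exact div_nonneg (sq_nonneg _) (hwn i)
  have hKE0 : 0 ≤ K * E := mul_nonneg hK.le hE0
  by_cases hxy : r x y
  · rw [Nl_eq_Zl x y L r hxy]
    nlinarith [mul_nonneg hKE0 hZ]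
  set π : V₀ → Quotient r := Quotient.mk r with hπ
  have hker : Setoid.ker π = r := Setoid.ker_mk_eq r
  have hπxy : π y ≠ π x := fun h => hxy (Quotient.exact h.symm)
  have : Fintype (Quotient r) := Fintype.ofFinite _
  set W := Wm (fun i => π (s i)) (fun i => π (t i)) w L with hWdef
  have hWt : IsWt W := isWt_Wm hwn L
  have h1 : II (mrg (π x) (π y) W) ≤ ENNReal.ofReal (K * E) * II W := by
    refine hmain (Quotient r) W hWt (π x) (S.image π) E ?_ (π y)
      (Finset.mem_image_of_mem π hy) hπxy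
    intro a ha
    obtain ⟨y', hy', rfl⟩ := Finset.mem_image.mp ha
    obtain ⟨θ, hrep, hsupp, hen⟩ := hf y' hy'
    exact push_flow π s t w hw L x y' (S.image π) E θ hrep (fun i hi h =>
      ⟨Finset.mem_image_of_mem π (hsupp i hi h).1, Finset.mem_image_of_mem π (hsupp i hi h).2⟩) hen
  have h2 : II W = ENNReal.ofReal (Zl s t w L r) * II (0 : Matrix (Quotient r) (Quotient r) ℝ) := by
    have := II_list π s t w hwn L
    rwa [hker] at this
  have h3 : II (mrg (π x) (π y) W) = ENNReal.ofReal (Zl s t w L r - Nl s t w x y L r) *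
      II (0 : Matrix (Quotient r) (Quotient r) ℝ) := by
    have h4 := II_list (fun u => if π u = π y then π x else π u) s t w hwn L
    rw [ker_joinS, hker, Zl_sub_Nl x y L r hxy] at h4
    rw [← h4, hWdef, mrg_Wm _ _ hπxy.symm]
  rw [h2, h3, ← mul_assoc, ENNReal.mul_le_mul_iff_left II_zero_ne_zero II_zero_ne_top,
    ← ENNReal.ofReal_mul hKE0, ENNReal.ofReal_le_ofReal_iff (mul_nonneg hKE0 hZ)] at h1
  linarith

/-- The same with an arbitrary starting point `q`; here all edges of the list are inside `S`. -/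
theorem main_list' : ∃ K : ℝ, 0 < K ∧
    ∀ (V₀ : Type) [Fintype V₀] (ι : Type) (s t : ι → V₀) (w : ι → ℝ), (∀ i, 0 < w i) →
    ∀ (L : List ι) (x : V₀) (S : Finset V₀) (E : ℝ), (∀ i ∈ L, s i ∈ S ∧ t i ∈ S) →
    (∀ y ∈ S, ∃ θ : ι → ℝ,
      (∀ v : V₀ → ℝ, (L.map fun i => θ i * (v (t i) - v (s i))).sum = v y - v x) ∧
      (L.map fun i => θ i ^ 2 / w i).sum ≤ E) →
    ∀ (q : V₀), ∀ y ∈ S, ∀ r : Setoid V₀,
      (1 - K * E) * Nl s t w q y L r ≤ Nl s t w q x L r := by
  obtain ⟨K, hK, hmain⟩ := main_list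
  refine ⟨K, hK, ?_⟩
  intro V₀ _ ι s t w hw L x S E hS hf q y hy r
  have hwn : ∀ i, 0 ≤ w i := fun i => (hw i).le
  by_cases hneg : 1 - K * E < 0
  · have h1 := Nl_nonneg hwn (s := s) (t := t) q y L r
    have h2 := Nl_nonneg hwn (s := s) (t := t) q x L r
    nlinarith
  push Not at hneg
  by_cases hq : ∃ u ∈ S, r q u
  · obtain ⟨u, hu, hqu⟩ := hq
    have h1 := hmain V₀ ι s t w hw L x S E (fun y' hy' => by
      obtain ⟨θ, h1, h2⟩ := hf y' hy'
      exact ⟨θ, h1, fun i hi _ => hS i hi, h2⟩) u hu r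
    have h2 := Nl_le_Zl hwn (s := s) (t := t) q y L r
    have h3 : Nl s t w q x L r = Nl s t w x u L r := by
      rw [Nl_comm q x, Nl_congr x x q u L r (r.refl x) hqu]
    rw [h3]
    exact (mul_le_mul_of_nonneg_left h2 hneg).trans h1
  · push Not at hq
    have h1 : Nl s t w q y L r = 0 :=
      Nl_eq_zero q y L r (fun i hi => ⟨hq _ (hS i hi).1, hq _ (hS i hi).2⟩) (hq y hy)
    rw [h1, mul_zero]
    exact Nl_nonneg hwn q x L r

end Pool.Agent.Lib.Arb
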