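import Pool.Agent.Lib.Arb.Elim
import Pool.Agent.Lib.Arb.Comb

/-!
# Module C': deletion-contraction for the partition function and the two-point function
-/

set_option autoImplicit false
set_option linter.unusedSectionVars false
set_option linter.unusedVariables false
set_option linter.unusedSimpArgs false

open MeasureTheory Matrix
open scoped ENNReal

namespace Pool.Agent.Lib.Arb

variable {V : Type} [Fintype V] [DecidableEq V] {W : Matrix V V ℝ}

/-- Set the weight of the edge `a b` to zero. -/
def del (a b : V) (W : Matrix V V ℝ) : Matrix V V ℝ := fun c d =>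
  if (c = a ∧ d = b) ∨ (c = b ∧ d = a) then 0 else W c d

theorem IsWt.del (hW : IsWt W) (a b : V) : IsWt (del a b W) where
  symm c d := by
    unfold Arb.del
    have : ((c = a ∧ d = b) ∨ (c = b ∧ d = a)) ↔ ((d = a ∧ c = b) ∨ (d = b ∧ c = a)) := by tauto
    simp only [this, hW.symm c d]
  nonneg c d := by
    unfold Arb.del
    split_ifs
    · exact le_rfl
    · exact hW.nonneg c d
  diag c := by
    unfold Arb.del
    split_ifs
    · rfl
    · exact hW.diag c

theorem IsWt.mrg (hW : IsWt W) (a b : V) : IsWt (mrg a b W) where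
  symm c d := by
    unfold Arb.mrg
    by_cases h1 : c = b
    · simp [h1]
    by_cases h2 : d = b
    · simp [h2]
    by_cases h3 : c = d
    · simp [h3]
    by_cases h4 : c = a
    · subst h4
      simp [h1, h2, h3, Ne.symm h3, hW.symm c d, hW.symm b d]
    by_cases h5 : d = a
    · subst h5
      simp [h1, h2, h3, Ne.symm h3, hW.symm c d, hW.symm b c]
    simp [h1, h2, h3, h4, h5, Ne.symm h3, hW.symm c d]
  nonneg c d := by
    unfold Arb.mrg
    have := hW.nonneg
    split_ifs
    · exact le_rfl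
    · exact add_nonneg (this _ _) (this _ _)
    · exact add_nonneg (this _ _) (this _ _)
    · exact this _ _
  diag c := by simp [Arb.mrg]

/-! ### the ratio `tt` -/

theorem tt_iso (hW : IsWt W) (x a : V) (hax : a ≠ x) (φ : V → ℝ)
    (hφ : (Hm (iso x W) φ).PosDef) :
    tt W x a φ = ∑ c, Gr (iso x W) φ a c * W x c := by
  have hupd : Function.update φ x (φ x) = φ := Function.update_eq_self x φ
  have hφ' : (Hm (iso x W) (Function.update φ x (φ x))).PosDef := by rw [hupd]; exact hφ
  obtain ⟨hpos, hK⟩ := (posDef_iso_iff hW x φ (φ x)).mp hφ'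
  set t : ℝ := (kk W x φ + 1) / 2 with ht
  have ht1 : 2 * t - kk W x φ = 1 := by rw [ht]; ring
  have ht0 : 0 < 2 * t - kk W x φ := by rw [ht1]; exact one_pos
  have hpd := (posDef_update_iff hW x φ hK t).mpr ht0
  rw [← tt_update W x a φ t, tt_eq hW hpd]
  have h := Gr_mulVec hW x φ hK (Pi.single x 1) t ht0
  have h0 : Function.update (Pi.single x (1 : ℝ) : V → ℝ) x 0 = 0 := by
    ext c
    by_cases hc : c = x
    · subst hc; simp
    · simp [Function.update_of_ne hc, Pi.single_eq_of_ne hc]
  have hS0 : SS W x φ 0 = 0 := by unfold SS; simp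
  have hq : qq W x (Pi.single x 1) φ = 1 := by
    unfold qq
    rw [h0, hS0]
    simp
  rw [Matrix.mulVec_single_one, h0, hS0, hq, ht1] at h
  have hz : SS W x φ (W x) x = 0 := SS_b x φ hK (W x) (hW.diag x)
  have h1 := congrFun h a
  have h2 := congrFun h x
  simp only [Matrix.col_apply, Pi.add_apply, Pi.zero_apply, Pi.smul_apply, smul_eq_mul, zero_add,
    div_one, one_mul, hz, Pi.single_eq_same, Pi.single_eq_of_ne hax, add_zero] at h1 h2
  rw [Gr_symm hW, h1, h2, div_one]
  have h3 := Gr_iso_mulVec x φ hK (W x) (hW.diag x) (φ x) hpos hW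
  rw [hupd] at h3
  rw [← h3]
  rfl

theorem lint_tt (hW : IsWt W) (x a : V) :
    ∫⁻ φ : V → ℝ, ENNReal.ofReal (tt W x a φ) * dens W 0 φ =
      ∫⁻ φ : V → ℝ, ENNReal.ofReal (Gr W φ x a) * dens W 0 φ := by
  have h := lint_indep hW x (fun φ => ENNReal.ofReal (tt W x a φ))
    (ENNReal.measurable_ofReal.comp (measurable_tt W x a))
    (fun φ s => by rw [tt_update]) (fun y => ENNReal.ofReal y⁻¹)
    (ENNReal.measurable_ofReal.comp measurable_inv)
  rw [mom_inv, one_mul] at h
  rw [← h]
  refine lintegral_congr fun φ => ?_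
  refine mul_dens_congr _ _ _ fun hφ => ?_
  have h1 := Gr_diag_pos hφ x
  rw [inv_inv, mul_comm, ← ENNReal.ofReal_mul h1.le, tt_eq hW hφ]
  congr 1
  field_simp

theorem lint_diag (hW : IsWt W) (x : V) :
    ∫⁻ φ : V → ℝ, ENNReal.ofReal (Gr W φ x x) * dens W 0 φ = II W := by
  have h := lint_indep hW x (fun _ => 1) measurable_const (fun _ _ => rfl)
    (fun y => ENNReal.ofReal y⁻¹) (ENNReal.measurable_ofReal.comp measurable_inv)
  simp only [mom_inv, one_mul, inv_inv] at h
  exact h

/-! ### elimination of two vertices -/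

theorem elim_one_zero (hW : IsWt W) (b : V) (F : (V → ℝ) → ℝ≥0∞) (hF : Measurable F)
    (hFb : ∀ φ s, F (Function.update φ b s) = F φ) :
    ∫⁻ φ : V → ℝ, F φ * dens W 0 φ = ∫⁻ φ : V → ℝ, F φ * dens (iso b W) (W b) φ := by
  rw [lint_elim hW b 0 (fun _ => le_rfl) F hF hFb]
  have h0 : Function.update (0 : V → ℝ) b 0 = 0 := by simp
  have h1 : ∀ φ : V → ℝ, QQ W 0 b φ = 0 := by
    intro φ
    unfold QQ
    rw [h0]
    simp
  simp [h0, h1]

theorem QQ_nonneg' (hW : IsWt W) (b a : V) (φ : V → ℝ)
    (hφ : (Hm (iso a (iso b W)) φ).PosDef) : 0 ≤ QQ (iso b W) (W b) a φ :=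
  QQ_nonneg (hW.iso b) a (W b) (hW.nonneg b) φ hφ

theorem II_elim2 (hW : IsWt W) (a b : V) :
    II W = ∫⁻ φ : V → ℝ, ENNReal.ofReal (1 + QQ (iso b W) (W b) a φ) *
      dens (iso a (iso b W)) (Function.update (W b) a 0 + iso b W a) φ := by
  have h1 := elim_one_zero hW b (fun _ => 1) measurable_const (fun _ _ => rfl)
  have h2 := lint_elim (hW.iso b) a (W b) (hW.nonneg b) (fun _ => 1) measurable_const
    (fun _ _ => rfl)
  simp only [one_mul] at h1 h2
  unfold II
  rw [h1, h2]

theorem II_mrg_eq (hW : IsWt W) (a b : V) (hab : a ≠ b) :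
    II (mrg a b W) = ∫⁻ φ : V → ℝ,
      dens (iso a (iso b W)) (Function.update (W b) a 0 + iso b W a) φ := by
  have h1 := elim_one_zero (hW.mrg a b) a (fun _ => 1) measurable_const (fun _ _ => rfl)
  simp only [one_mul] at h1
  unfold II
  rw [h1]
  have e1 : iso a (mrg a b W) = iso a (iso b W) := by
    ext c d
    unfold iso mrg
    by_cases hc : c = a
    · simp [hc]
    by_cases hd : d = a
    · simp [hd]
    by_cases hc' : c = b
    · simp [hc']
    by_cases hd' : d = b
    · simp [hd']
    by_cases hcd : c = d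
    · subst hcd; simp [hc, hc', hW.diag]
    simp [hc, hd, hc', hd', hcd]
  have e2 : mrg a b W a = Function.update (W b) a 0 + iso b W a := by
    ext d
    unfold mrg
    by_cases hd : d = a
    · subst hd; simp [iso, hab, hW.diag]
    by_cases hd' : d = b
    · subst hd'; simp [iso, hd, hW.diag]
    simp [hab, hd, hd', Ne.symm hd, iso, add_comm]
  rw [e1, e2]

theorem II_dc (hW : IsWt W) (a b : V) (hab : a ≠ b) :
    II W = II (del a b W) + ENNReal.ofReal (W a b) * II (mrg a b W) := by
  rw [II_elim2 hW a b, II_elim2 (hW.del a b) a b, II_mrg_eq hW a b hab]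
  have e1 : iso b (del a b W) = iso b W := by
    ext c d
    unfold iso del
    by_cases hc : c = b
    · simp [hc]
    by_cases hd : d = b
    · simp [hd]
    simp [hc, hd]
  have e2 : Function.update (del a b W b) a 0 = Function.update (W b) a 0 := by
    ext d
    by_cases hd : d = a
    · subst hd; simp
    · simp [Function.update_of_ne hd, del, hd, Ne.symm hab]
  have e3 : ∀ φ : V → ℝ, QQ (iso b W) (W b) a φ = QQ (iso b W) (del a b W b) a φ + W a b := by
    intro φ
    unfold QQ
    rw [e2]
    have : del a b W b a = 0 := by simp [del]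
    rw [this, hW.symm b a]
    ring
  rw [e1, e2, ← lintegral_const_mul _ (measurable_dens _ _), ← lintegral_add_right _
    ((measurable_dens _ _).const_mul _)]
  refine lintegral_congr fun φ => ?_
  rw [← add_mul]
  refine mul_dens_congr _ _ _ fun hφ => ?_
  have hq : 0 ≤ QQ (iso b W) (del a b W b) a φ := by
    have := QQ_nonneg' (hW.del a b) b a φ (by rw [e1]; exact hφ)
    rwa [e1] at this
  rw [e3, ← ENNReal.ofReal_add (by linarith) (hW.nonneg a b)]
  congr 1
  ring

theorem lint_tt_elim (hW : IsWt W) (x a : V) (hax : a ≠ x) :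
    ∫⁻ φ : V → ℝ, ENNReal.ofReal (tt W x a φ) * dens W 0 φ =
      ∫⁻ φ : V → ℝ, ENNReal.ofReal (QQ (iso x W) (W x) a φ) *
        dens (iso a (iso x W)) (Function.update (W x) a 0 + iso x W a) φ := by
  rw [elim_one_zero hW x (fun φ => ENNReal.ofReal (tt W x a φ))
    (ENNReal.measurable_ofReal.comp (measurable_tt W x a)) (fun φ s => by rw [tt_update])]
  have h2 := lint_elim2 (hW.iso x) a (W x) (hW.nonneg x) (fun _ => 1) measurable_const
    (fun _ _ => rfl)
  simp only [one_mul] at h2
  rw [← h2]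
  refine lintegral_congr fun φ => ?_
  refine mul_dens_congr _ _ _ fun hφ => ?_
  rw [tt_iso hW x a hax φ hφ]

/-- `E[(G x a / G x x)²] = E[G x a / G x x]`. -/
theorem lint_tt_sq (hW : IsWt W) (x a : V) (hxa : x ≠ a) :
    ∫⁻ φ : V → ℝ, ENNReal.ofReal (tt W x a φ ^ 2) * dens W 0 φ =
      ∫⁻ φ : V → ℝ, ENNReal.ofReal (tt W x a φ) * dens W 0 φ := by
  rw [lint_tt_elim hW x a hxa.symm]
  rw [elim_one_zero hW x (fun φ => ENNReal.ofReal (tt W x a φ ^ 2))
    (ENNReal.measurable_ofReal.comp ((measurable_tt W x a).pow_const 2))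
    (fun φ s => by rw [tt_update])]
  have h2 := lint_elim3 (hW.iso x) a (W x) (hW.nonneg x) (fun _ => 1) measurable_const
    (fun _ _ => rfl)
  simp only [one_mul] at h2
  rw [← h2]
  refine lintegral_congr fun φ => ?_
  refine mul_dens_congr _ _ _ fun hφ => ?_
  rw [tt_iso hW x a hxa.symm φ hφ]

theorem II_two (hW : IsWt W) (a b : V) (hab : a ≠ b) :
    (∫⁻ φ : V → ℝ, ENNReal.ofReal (Gr W φ a b) * dens W 0 φ) + II (mrg a b W) = II W := by
  have h1 : ∫⁻ φ : V → ℝ, ENNReal.ofReal (Gr W φ a b) * dens W 0 φ =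
      ∫⁻ φ : V → ℝ, ENNReal.ofReal (tt W b a φ) * dens W 0 φ := by
    rw [lint_tt hW b a]
    exact lintegral_congr fun φ => by rw [Gr_symm hW]
  rw [h1, lint_tt_elim hW b a hab, II_mrg_eq hW a b hab, II_elim2 hW a b,
    ← lintegral_add_right _ (measurable_dens _ _)]
  refine lintegral_congr fun φ => ?_
  nth_rewrite 2 [← one_mul (dens (iso a (iso b W)) (Function.update (W b) a 0 + iso b W a) φ)]
  rw [← add_mul]
  refine mul_dens_congr _ _ _ fun hφ => ?_
  have hq := QQ_nonneg' hW b a φ hφ
  rw [← ENNReal.ofReal_one, ← ENNReal.ofReal_add hq zero_le_one, add_comm]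

theorem IsWt.add_edge (hW : IsWt W) (a b : V) (hab : a ≠ b) (u : ℝ) (hu : 0 ≤ u) :
    IsWt (W + u • (Matrix.single a b 1 + Matrix.single b a 1)) where
  symm c d := by
    simp only [Matrix.add_apply, Matrix.smul_apply, Matrix.single_apply, smul_eq_mul]
    rw [hW.symm c d]
    congr 2
    rw [add_comm]
    congr 1
    · congr 1
      exact propext ⟨fun h => ⟨h.2, h.1⟩, fun h => ⟨h.2, h.1⟩⟩
    · congr 1
      exact propext ⟨fun h => ⟨h.2, h.1⟩, fun h => ⟨h.2, h.1⟩⟩
  nonneg c d := by
    simp only [Matrix.add_apply, Matrix.smul_apply, Matrix.single_apply, smul_eq_mul]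
    refine add_nonneg (hW.nonneg c d) (mul_nonneg hu (add_nonneg ?_ ?_)) <;> split_ifs <;> norm_num
  diag c := by
    simp only [Matrix.add_apply, Matrix.smul_apply, Matrix.single_apply, smul_eq_mul, hW.diag]
    have h1 : ¬ (a = c ∧ b = c) := fun h => hab (h.1.trans h.2.symm)
    have h2 : ¬ (b = c ∧ a = c) := fun h => hab (h.2.trans h.1.symm)
    simp [h1, h2]

/-- Adding an edge of weight `u` between `a` and `b`. -/
theorem II_add_edge (hW : IsWt W) (a b : V) (hab : a ≠ b) (u : ℝ) (hu : 0 ≤ u) :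
    II (W + u • (Matrix.single a b 1 + Matrix.single b a 1)) =
      II W + ENNReal.ofReal u * II (mrg a b W) := by
  have hW' := hW.add_edge a b hab u hu
  have e1 : del a b (W + u • (Matrix.single a b 1 + Matrix.single b a 1)) = del a b W := by
    ext c d
    unfold del
    split_ifs with h
    · rfl
    · simp only [Matrix.add_apply, Matrix.smul_apply, Matrix.single_apply, smul_eq_mul]
      have h1 : ¬ (a = c ∧ b = d) := fun h' => h (Or.inl ⟨h'.1.symm, h'.2.symm⟩)
      have h2 : ¬ (b = c ∧ a = d) := fun h' => h (Or.inr ⟨h'.1.symm, h'.2.symm⟩)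
      simp [h1, h2]
  have e2 : mrg a b (W + u • (Matrix.single a b 1 + Matrix.single b a 1)) = mrg a b W := by
    ext c d
    unfold mrg
    by_cases h1 : c = b
    · simp [h1]
    by_cases h2 : d = b
    · simp [h2]
    by_cases h3 : c = d
    · simp [h3]
    have h1' : ¬ b = c := fun h => h1 h.symm
    have h2' : ¬ b = d := fun h => h2 h.symm
    by_cases h4 : c = a
    · subst h4
      have h3' : ¬ d = c := fun h => h3 h.symm
      simp [h1, h2, h3, h1', h2', h3', Matrix.single_apply]
    by_cases h5 : d = a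
    · subst h5
      have h3' : ¬ d = c := fun h => h3 h.symm
      simp [h1, h2, h3, h1', h2', h3', Matrix.single_apply]
    have h4' : ¬ a = c := fun h => h4 h.symm
    simp [h1, h2, h3, h4, h5, h1', h2', h4', Matrix.single_apply]
  rw [II_dc hW' a b hab, e1, e2, II_dc hW a b hab]
  have e3 : (W + u • (Matrix.single a b 1 + Matrix.single b a 1) : Matrix V V ℝ) a b =
      W a b + u := by
    simp only [Matrix.add_apply, Matrix.smul_apply, Matrix.single_apply, smul_eq_mul]
    simp [hab, Ne.symm hab]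
  rw [e3, ENNReal.ofReal_add (hW.nonneg a b) hu]
  ring

theorem II_mrg_le (hW : IsWt W) (a b : V) (hab : a ≠ b) :
    ENNReal.ofReal (1 + W a b) * II (mrg a b W) ≤ II W := by
  have h1 : II (mrg a b W) ≤ II (del a b W) := by
    have e : mrg a b (del a b W) = mrg a b W := by
      ext c d
      unfold mrg
      by_cases h1 : c = b
      · simp [h1]
      by_cases h2 : d = b
      · simp [h2]
      by_cases h3 : c = d
      · simp [h3]
      by_cases h4 : c = a
      · subst h4
        have h3' : ¬ d = c := fun h => h3 h.symm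
        simp [h1, h2, h3, h3', del]
      by_cases h5 : d = a
      · subst h5
        simp [h1, h2, h3, del]
      simp [h1, h2, h3, h4, h5, del]
    rw [← e, ← II_two (hW.del a b) a b hab]
    exact le_add_self
  rw [II_dc hW a b hab, ENNReal.ofReal_add zero_le_one (hW.nonneg a b), add_mul,
    ENNReal.ofReal_one, one_mul]
  gcongr

/-! ### the empty graph -/

theorem lint_pi_prod (f : ℝ → ℝ≥0∞) (hf : Measurable f) :
    ∫⁻ φ : V → ℝ, ∏ a, f (φ a) = (∫⁻ t : ℝ, f t) ^ Fintype.card V := by
  have hP : Measurable fun φ : V → ℝ => ∏ a, f (φ a) :=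
    Finset.measurable_prod _ fun a _ => hf.comp (measurable_pi_apply a)
  have key : ∀ s : Finset V, ∀ x : V → ℝ,
      (∫⋯∫⁻_s, (fun φ : V → ℝ => ∏ a, f (φ a)) ∂(fun _ => (volume : Measure ℝ))) x =
        (∫⁻ t : ℝ, f t) ^ s.card * ∏ a ∈ sᶜ, f (x a) := by
    intro s
    induction s using Finset.induction_on with
    | empty => intro x; simp
    | insert i s hi ih =>
      intro x
      rw [lmarginal_insert _ hP hi]
      simp only [ih]
      have h1 : ∀ t : ℝ, (∫⁻ t : ℝ, f t) ^ s.card *
          ∏ a ∈ sᶜ, f (Function.update x i t a) =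
          ((∫⁻ t : ℝ, f t) ^ s.card * ∏ a ∈ (insert i s)ᶜ, f (x a)) * f t := by
        intro t
        have h2 : sᶜ = insert i (insert i s)ᶜ := by
          ext a
          simp only [Finset.mem_compl, Finset.mem_insert]
          by_cases ha : a = i
          · subst ha; simp [hi]
          · simp [ha]
        rw [h2, Finset.prod_insert (by simp)]
        rw [Function.update_self]
        have h3 : ∏ a ∈ (insert i s)ᶜ, f (Function.update x i t a) =
            ∏ a ∈ (insert i s)ᶜ, f (x a) := by
          refine Finset.prod_congr rfl fun a ha => ?_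
          have : a ≠ i := by
            rintro rfl
            simp at ha
          rw [Function.update_of_ne this]
        rw [h3]
        ring
      simp only [h1]
      rw [lintegral_const_mul _ hf, Finset.card_insert_of_notMem hi, pow_succ]
      ring
  have h := key Finset.univ (fun _ => 0)
  rw [← lintegral_eq_lmarginal_univ] at h
  rw [volume_pi, h]
  simp

theorem II_zero : II (0 : Matrix V V ℝ) = (c3 / 2) ^ Fintype.card V := by
  have hm2 : Measurable fun s : ℝ => ENNReal.ofReal (Real.sqrt (2 * s) * Real.exp (-s)) :=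
    ENNReal.measurable_ofReal.comp (by fun_prop)
  have h : ∀ φ : V → ℝ, dens (0 : Matrix V V ℝ) 0 φ =
      ∏ a, (Set.Ioi (0 : ℝ)).indicator
        (fun s => ENNReal.ofReal (Real.sqrt (2 * s) * Real.exp (-s))) (φ a) := by
    intro φ
    have hH : Hm (0 : Matrix V V ℝ) φ = Matrix.diagonal fun a => 2 * φ a := by simp [Hm]
    unfold dens
    rw [hH]
    by_cases hp : ∀ a, 0 < φ a
    · have hpd : (Matrix.diagonal fun a => 2 * φ a).PosDef :=
        Matrix.posDef_diagonal_iff.mpr fun a => by have := hp a; positivity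
      rw [if_pos hpd]
      have h1 : ∀ a, (Set.Ioi (0 : ℝ)).indicator
        (fun s => ENNReal.ofReal (Real.sqrt (2 * s) * Real.exp (-s))) (φ a) =
          ENNReal.ofReal (Real.sqrt (2 * φ a) * Real.exp (-φ a)) := fun a =>
        Set.indicator_of_mem (Set.mem_Ioi.mpr (hp a)) _
      simp only [h1]
      rw [← ENNReal.ofReal_prod_of_nonneg fun a _ => by positivity]
      congr 1
      rw [Finset.prod_mul_distrib, Matrix.det_diagonal, ← Real.exp_sum, mul_comm]
      congr 1
      · rw [Real.sqrt_prod _ fun a _ => by have := (hp a).le; positivity]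
      · simp
    · have hpd : ¬ (Matrix.diagonal fun a => 2 * φ a).PosDef := by
        rw [Matrix.posDef_diagonal_iff]
        intro h
        exact hp fun a => by have := h a; linarith
      rw [if_neg hpd]
      push Not at hp
      obtain ⟨a, ha⟩ := hp
      symm
      refine Finset.prod_eq_zero (Finset.mem_univ a) ?_
      rw [Set.indicator_of_notMem (by simpa using ha)]
  unfold II
  simp only [h]
  rw [lint_pi_prod _ (hm2.indicator measurableSet_Ioi), lintegral_indicator measurableSet_Ioi,
    int_half_s]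

theorem II_zero_ne_zero : II (0 : Matrix V V ℝ) ≠ 0 := by
  rw [II_zero]
  refine pow_ne_zero _ ?_
  exact ENNReal.div_ne_zero.mpr ⟨c3_pos, by norm_num⟩

theorem II_zero_ne_top : II (0 : Matrix V V ℝ) ≠ ⊤ := by
  rw [II_zero]
  exact ENNReal.pow_ne_top (ENNReal.div_ne_top c3_lt_top (by norm_num))

/-! ### lists of edges -/

theorem Zl_nonneg' {V₀ ι : Type} {s t : ι → V₀} {w : ι → ℝ} (hw : ∀ i, 0 ≤ w i) (L : List ι)
    (r : Setoid V₀) : 0 ≤ Zl s t w L r :=
  le_trans zero_le_one (one_le_Zl hw L r)

/-- The partition function of a list of edges. -/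
theorem II_list {V₀ ι : Type} (π : V₀ → V) (s t : ι → V₀) (w : ι → ℝ) (hw : ∀ i, 0 ≤ w i)
    (L : List ι) :
    II (Wm (fun i => π (s i)) (fun i => π (t i)) w L) =
      ENNReal.ofReal (Zl s t w L (Setoid.ker π)) * II (0 : Matrix V V ℝ) := by
  induction L generalizing π with
  | nil => simp [Wm, Zl]
  | cons i L ih =>
    by_cases h : π (s i) = π (t i)
    · have e1 : Wm (fun i => π (s i)) (fun i => π (t i)) w (i :: L) =
          Wm (fun i => π (s i)) (fun i => π (t i)) w L := by
        simp [Wm, h]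
      have e2 : Zl s t w (i :: L) (Setoid.ker π) = Zl s t w L (Setoid.ker π) := by
        have : (Setoid.ker π) (s i) (t i) := h
        rw [Zl, if_pos this, add_zero]
      rw [e1, e2, ih π]
    · have e1 : Wm (fun i => π (s i)) (fun i => π (t i)) w (i :: L) =
          Wm (fun i => π (s i)) (fun i => π (t i)) w L +
            w i • (Matrix.single (π (s i)) (π (t i)) 1 + Matrix.single (π (t i)) (π (s i)) 1) := by
        simp [Wm, h]
      have e2 : Zl s t w (i :: L) (Setoid.ker π) = Zl s t w L (Setoid.ker π) +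
          w i * Zl s t w L (joinS (Setoid.ker π) (s i) (t i)) := by
        have : ¬ (Setoid.ker π) (s i) (t i) := h
        rw [Zl, if_neg this]
      have hWt : IsWt (Wm (fun i => π (s i)) (fun i => π (t i)) w L) := isWt_Wm hw L
      rw [e1, e2, II_add_edge hWt _ _ h _ (hw i), mrg_Wm _ _ h, ih π]
      have e3 := ih (fun x => if π x = π (t i) then π (s i) else π x)
      rw [e3, ker_joinS, ENNReal.ofReal_add (Zl_nonneg' hw _ _)
        (mul_nonneg (hw i) (Zl_nonneg' hw _ _)), ENNReal.ofReal_mul (hw i)]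
      ring

theorem Wm_univ (hW : IsWt W) :
    Wm (Prod.fst : V × V → V) Prod.snd (fun p => W p.1 p.2 / 2) Finset.univ.toList = W := by
  have hw : ∀ p : V × V, 0 ≤ W p.1 p.2 / 2 := fun p => by have := hW.nonneg p.1 p.2; linarith
  ext a b
  by_cases hab : a = b
  · subst hab
    rw [hW.diag]
    exact (isWt_Wm hw _).diag a
  · rw [Wm_apply _ _ _ hab, Finset.sum_map_toList]
    have h1 : ∀ p : V × V, W p.1 p.2 / 2 * ((if p.1 = a ∧ p.2 = b then (1 : ℝ) else 0) +
        (if p.1 = b ∧ p.2 = a then 1 else 0)) =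
        (if p = (a, b) then W a b / 2 else 0) + (if p = (b, a) then W a b / 2 else 0) := by
      rintro ⟨c, d⟩
      simp only [Prod.mk.injEq]
      by_cases h1 : c = a ∧ d = b
      · obtain ⟨rfl, rfl⟩ := h1
        have : ¬ (c = d ∧ d = c) := fun h => hab h.1
        simp [this]
      · by_cases h2 : c = b ∧ d = a
        · obtain ⟨rfl, rfl⟩ := h2
          simp [h1, hW.symm c d]
        · simp [h1, h2]
    simp only [h1]
    rw [Finset.sum_add_distrib, Finset.sum_ite_eq' , Finset.sum_ite_eq']
    simp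

theorem II_eq_Zl (hW : IsWt W) :
    II W = ENNReal.ofReal (Zl (Prod.fst : V × V → V) Prod.snd (fun p => W p.1 p.2 / 2)
      Finset.univ.toList (Setoid.ker id)) * II (0 : Matrix V V ℝ) := by
  have hw : ∀ p : V × V, 0 ≤ W p.1 p.2 / 2 := fun p => by have := hW.nonneg p.1 p.2; linarith
  have h := II_list (id : V → V) Prod.fst Prod.snd (fun p : V × V => W p.1 p.2 / 2) hw
    Finset.univ.toList
  rw [← h]
  congr 1
  exact (Wm_univ hW).symm

theorem II_mrg_eq_Zl (hW : IsWt W) (a b : V) (hab : a ≠ b) :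
    II (mrg a b W) = ENNReal.ofReal (Zl (Prod.fst : V × V → V) Prod.snd
      (fun p => W p.1 p.2 / 2) Finset.univ.toList
        (Setoid.ker fun x => if x = b then a else x)) * II (0 : Matrix V V ℝ) := by
  have hw : ∀ p : V × V, 0 ≤ W p.1 p.2 / 2 := fun p => by have := hW.nonneg p.1 p.2; linarith
  have h := II_list (fun x : V => if x = b then a else x) Prod.fst Prod.snd
    (fun p : V × V => W p.1 p.2 / 2) hw Finset.univ.toList
  rw [← h]
  congr 1
  have h2 := mrg_Wm (s := (Prod.fst : V × V → V)) (t := Prod.snd)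
    (w := fun p => W p.1 p.2 / 2) a b hab Finset.univ.toList
  rw [Wm_univ hW] at h2
  exact h2

theorem II_ne_zero (hW : IsWt W) : II W ≠ 0 := by
  have hw : ∀ p : V × V, 0 ≤ W p.1 p.2 / 2 := fun p => by have := hW.nonneg p.1 p.2; linarith
  rw [II_eq_Zl hW]
  refine mul_ne_zero ?_ II_zero_ne_zero
  rw [ne_eq, ENNReal.ofReal_eq_zero, not_le]
  exact lt_of_lt_of_le one_pos (one_le_Zl hw _ _)

theorem II_ne_top (hW : IsWt W) : II W ≠ ⊤ := by
  rw [II_eq_Zl hW]
  exact ENNReal.mul_ne_top ENNReal.ofReal_ne_top II_zero_ne_top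

end Pool.Agent.Lib.Arb
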