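import Pool.Agent.Lib.Arb.General
import Pool.Agent.Lib.Arb.Flow

/-!
# Module K: the torus
-/

set_option autoImplicit false
set_option linter.unusedSectionVars false
set_option linter.unusedVariables false
set_option linter.unusedSimpArgs false

namespace Pool.Agent.Lib.Arb

/-- Shift by an integer vector. -/
def emb (L : ℕ) (x : ZMod L × ZMod L) (z : ℤ × ℤ) : ZMod L × ZMod L :=
  x + ((z.1 : ZMod L), (z.2 : ZMod L))

theorem torus_adj_of_adj4 (L : ℕ) (x : ZMod L × ZMod L) (z w : ℤ × ℤ) (h : Adj4 z w)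
    (hne : emb L x z ≠ emb L x w) : (torus L).Adj (emb L x z) (emb L x w) := by
  unfold torus
  rw [SimpleGraph.fromRel_adj]
  refine ⟨hne, ?_⟩
  unfold Adj4 at h
  have h' : (w.1 = z.1 + 1 ∧ w.2 = z.2) ∨ (w.1 = z.1 ∧ w.2 = z.2 + 1) ∨
      (z.1 = w.1 + 1 ∧ z.2 = w.2) ∨ (z.1 = w.1 ∧ z.2 = w.2 + 1) := by omega
  simp only [emb, Prod.fst_add, Prod.snd_add]
  rcases h' with ⟨h1, h2⟩ | ⟨h1, h2⟩ | ⟨h1, h2⟩ | ⟨h1, h2⟩ <;> rw [h1, h2] <;> push_cast
  · left; left; exact ⟨by ring, rfl⟩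
  · left; right; exact ⟨rfl, by ring⟩
  · right; left; exact ⟨by ring, rfl⟩
  · right; right; exact ⟨rfl, by ring⟩

theorem mem_box (n : ℕ) (z : ℤ × ℤ) :
    z ∈ box n ↔ (-(n : ℤ) ≤ z.1 ∧ z.1 ≤ n) ∧ (-(n : ℤ) ≤ z.2 ∧ z.2 ≤ n) := by
  simp [box]

theorem cast_inj_of_lt (L : ℕ) (a b : ℤ) (n : ℕ) (hL : 2 * n + 1 ≤ L) (ha : -(n : ℤ) ≤ a ∧ a ≤ n)
    (hb : -(n : ℤ) ≤ b ∧ b ≤ n) (h : (a : ZMod L) = (b : ZMod L)) : a = b := by
  rw [ZMod.intCast_eq_intCast_iff_dvd_sub] at h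
  have h1 : |b - a| < (L : ℤ) := by
    rw [abs_lt]; omega
  have := Int.eq_zero_of_abs_lt_dvd h h1
  omega

theorem emb_injOn (L n : ℕ) (hL : 2 * n + 1 ≤ L) (x : ZMod L × ZMod L) :
    Set.InjOn (emb L x) (box n : Set (ℤ × ℤ)) := by
  intro z hz w hw h
  rw [Finset.mem_coe, mem_box] at hz hw
  unfold emb at h
  have h' := add_left_cancel h
  rw [Prod.ext_iff] at h'
  exact Prod.ext (cast_inj_of_lt L _ _ n hL hz.1 hw.1 h'.1) (cast_inj_of_lt L _ _ n hL hz.2 hw.2 h'.2)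

/-- Transport of a finitely supported function of two variables. -/
theorem transport {α β : Type} [Fintype β] [DecidableEq β] (f : α → β) (T : Finset α)
    (hf : Set.InjOn f (T : Set α)) (θ : α → α → ℝ) : ∃ Θ : β → β → ℝ,
      (∀ a b, Θ a b ≠ 0 → ∃ z ∈ T, ∃ w ∈ T, f z = a ∧ f w = b ∧ θ z w ≠ 0) ∧
      (∀ F : β → β → ℝ → ℝ, (∀ a b, F a b 0 = 0) →
        ∑ a, ∑ b, F a b (Θ a b) = ∑ z ∈ T, ∑ w ∈ T, F (f z) (f w) (θ z w)) := by
  classical
  by_cases hT : T.Nonempty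
  swap
  · rw [Finset.not_nonempty_iff_eq_empty] at hT
    subst hT
    refine ⟨fun _ _ => 0, fun a b h => absurd rfl h, fun F hF => ?_⟩
    simp [hF]
  have : Nonempty α := ⟨hT.choose⟩
  set g : β → α := Function.invFunOn f (T : Set α) with hg
  have hgf : ∀ z ∈ T, g (f z) = z := fun z hz => hf.leftInvOn_invFunOn hz
  refine ⟨fun a b => if a ∈ T.image f ∧ b ∈ T.image f then θ (g a) (g b) else 0, ?_, ?_⟩
  · intro a b h
    beta_reduce at h
    by_cases hab : a ∈ T.image f ∧ b ∈ T.image f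
    · rw [if_pos hab] at h
      obtain ⟨ha, hb⟩ := hab
      obtain ⟨z, hz, rfl⟩ := Finset.mem_image.mp ha
      obtain ⟨w, hw, rfl⟩ := Finset.mem_image.mp hb
      rw [hgf z hz, hgf w hw] at h
      exact ⟨z, hz, w, hw, rfl, rfl, h⟩
    · rw [if_neg hab] at h
      exact absurd rfl h
  · intro F hF
    have h1 : ∀ a b, F a b (if a ∈ T.image f ∧ b ∈ T.image f then θ (g a) (g b) else 0) =
        if a ∈ T.image f then (if b ∈ T.image f then F a b (θ (g a) (g b)) else 0) else 0 := by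
      intro a b
      by_cases ha : a ∈ T.image f <;> by_cases hb : b ∈ T.image f <;> simp [ha, hb, hF]
    simp only [h1]
    have h2 : ∀ a, ∑ b, (if a ∈ T.image f then (if b ∈ T.image f then F a b (θ (g a) (g b))
        else 0) else 0) = if a ∈ T.image f then ∑ b ∈ T.image f, F a b (θ (g a) (g b)) else 0 := by
      intro a
      by_cases ha : a ∈ T.image f
      · simp only [ha, if_true]
        rw [Finset.sum_ite_mem, Finset.univ_inter]
      · simp [ha]
    simp only [h2]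
    rw [Finset.sum_ite_mem, Finset.univ_inter, Finset.sum_image hf]
    refine Finset.sum_congr rfl fun z hz => ?_
    rw [Finset.sum_image hf]
    refine Finset.sum_congr rfl fun w hw => ?_
    rw [hgf z hz, hgf w hw]

/-- Comparison for the box of radius `n` around `x`. -/
theorem torus_step : ∃ C₀ : ℝ, 0 < C₀ ∧ ∀ (β : ℝ) (n L : ℕ), 0 < β → 1 ≤ n → 2 * n + 1 ≤ L →
    ∀ [NeZero L] (x : ZMod L × ZMod L) (z : ℤ × ℤ), z ∈ box n →
    ∀ q : ZMod L × ZMod L,
      (1 - C₀ * (1 + Real.log n) / β) *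
        NG (torus L) β q (x + ((z.1 : ZMod L), (z.2 : ZMod L))) ≤ NG (torus L) β q x := by
  obtain ⟨K, hK, hgen⟩ := general_graph
  obtain ⟨C, hC, hflow⟩ := exists_box_flow
  refine ⟨K * C, by positivity, ?_⟩
  intro β n L hβ hn hL _ x z hz q
  have hinj := emb_injOn L n hL x
  have h0 : (0 : ℤ × ℤ) ∈ box n := by
    rw [mem_box]; simp
  have he0 : emb L x 0 = x := by simp [emb]
  rw [mul_assoc K C]
  refine hgen (ZMod L × ZMod L) (torus L) β hβ x ((box n).image (emb L x))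
    (C * (1 + Real.log n)) ?_ q (x + ((z.1 : ZMod L), (z.2 : ZMod L)))
    (Finset.mem_image.mpr ⟨z, hz, rfl⟩)
  intro y hy
  obtain ⟨y', hy', rfl⟩ := Finset.mem_image.mp hy
  obtain ⟨θ, h1, h2, h3⟩ := hflow n hn y' hy'
  obtain ⟨Θ, h4, h5⟩ := transport (emb L x) (box n) hinj θ
  refine ⟨Θ, ?_, ?_, ?_⟩
  · intro a b hab
    obtain ⟨z, hz, w, hw, rfl, rfl, hθ⟩ := h4 a b hab
    refine ⟨Finset.mem_image_of_mem _ hz, Finset.mem_image_of_mem _ hw, ?_⟩
    obtain ⟨_, _, hadj⟩ := h1 z w hθ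
    refine torus_adj_of_adj4 L x z w hadj ?_
    intro heq
    have := hinj hz hw heq
    subst this
    simp [Adj4] at hadj
  · intro v
    rw [h5 (fun a b t => t * (v b - v a)) (fun a b => by simp), h2 (fun z => v (emb L x z)), he0]
  · rw [h5 (fun a b t => t ^ 2) (fun a b => by simp)]
    exact h3

/-! ### distances -/

theorem walk_bound (L : ℕ) (u v : ZMod L × ZMod L) (p : (torus L).Walk u v) :
    ∃ z : ℤ × ℤ, z.1.natAbs + z.2.natAbs ≤ p.length ∧ v = emb L u z := by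
  induction p with
  | nil => exact ⟨0, by simp, by simp [emb]⟩
  | @cons u v w h p ih =>
    obtain ⟨z, hz, rfl⟩ := ih
    unfold torus at h
    rw [SimpleGraph.fromRel_adj] at h
    obtain ⟨hne, (⟨h1, h2⟩ | ⟨h1, h2⟩) | (⟨h1, h2⟩ | ⟨h1, h2⟩)⟩ := h
    · refine ⟨(z.1 + 1, z.2), by simp only [SimpleGraph.Walk.length_cons]; omega, ?_⟩
      simp only [emb]
      ext
      · simp [h1]; ring
      · simp [h2]
    · refine ⟨(z.1, z.2 + 1), by simp only [SimpleGraph.Walk.length_cons]; omega, ?_⟩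
      simp only [emb]
      ext
      · simp [h1]
      · simp [h2]; ring
    · refine ⟨(z.1 - 1, z.2), by simp only [SimpleGraph.Walk.length_cons]; omega, ?_⟩
      simp only [emb]
      ext
      · simp [h1]
      · simp [h2]
    · refine ⟨(z.1, z.2 - 1), by simp only [SimpleGraph.Walk.length_cons]; omega, ?_⟩
      simp only [emb]
      ext
      · simp [h1]
      · simp [h2]

theorem reachable_axis (L m : ℕ) : (torus L).Reachable (0, 0) ((m : ZMod L), 0) := by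
  induction m with
  | zero => simp
  | succ m ih =>
    refine ih.trans ?_
    by_cases h : ((m : ZMod L), (0 : ZMod L)) = (((m + 1 : ℕ) : ZMod L), 0)
    · rw [h]
    · refine SimpleGraph.Adj.reachable ?_
      unfold torus
      rw [SimpleGraph.fromRel_adj]
      exact ⟨h, Or.inl (Or.inl ⟨by push_cast; ring, rfl⟩)⟩

theorem torus_dist_ge (L m : ℕ) (hm : 2 * m ≤ L) :
    m ≤ (torus L).dist (0, 0) ((m : ZMod L), 0) := by
  obtain ⟨p, hp⟩ := (reachable_axis L m).exists_walk_length_eq_dist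
  rw [← hp]
  obtain ⟨z, hz, hv⟩ := walk_bound L _ _ p
  simp only [emb, Prod.mk_add_mk, Prod.mk.injEq, zero_add] at hv
  have h1 : ((m : ℤ) : ZMod L) = (z.1 : ZMod L) := by
    have := hv.1
    push_cast
    exact this
  rw [ZMod.intCast_eq_intCast_iff_dvd_sub] at h1
  obtain ⟨k, hk⟩ := h1
  by_contra hlt
  push Not at hlt
  have h2 : z.1.natAbs < m := by omega
  have h3 : |z.1 - m| < L := by
    rw [abs_lt]
    omega
  have h4 : z.1 - m = 0 := Int.eq_zero_of_abs_lt_dvd ⟨k, hk⟩ h3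
  omega

end Pool.Agent.Lib.Arb
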